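import Pool.Agent.Helper53.ST.Defs
import Pool.Agent.Helper53.AC.B1
import Pool.Agent.Helper53.AC.B4
import Pool.Agent.Helper53.AC.B6
import Pool.Agent.Helper53.AC.C1
import Pool.Agent.Helper53.AC.C2
import Pool.Agent.Helper53.AC.C3

/-!
# ST-B1: one cell, backward (compare AC/B7.lean, which does the same with two functions)

Write `ρ = lam * α * blob x (s/4)`, `t y = 64 * (ρ (gp k h y) * h ^ 2)`. PROOF. As in AC/B7:
* `u = (∑ pA) / α`; `‖∑ pA‖ ≤ ∑ t y ≤ 64 (∫ ρ + η) ≤ 65 lam α` by `part_spec` and `grid_mass`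
  (with `η = lam * α / 64`, eventually in `h`), so `‖u‖ ≤ 65 lam`;
* let `B' = ∑ pB F (gp k h y) (t y) x`, `‖B'‖ ≤ ∑ t y (‖gp - x‖ + t y) ≤ 65 lam α s`, and
  `e = B' - u * b`, so `‖e‖ ≤ 65 lam α s + 65 lam * 100 s α`;
* if `h / 2 ≤ ‖z - gp k h y‖` for all `y ∈ J` then, as `2 t y ≤ h / 2` eventually,
  `‖part‖ ≤ 2 t y / ‖z - gp‖`, `ρ ≤ lam α * 16 / s ^ 2`, and `grid_pot` gives
  `‖∑ part‖ ≤ C lam α / s ≤ C' lam`;
* let `q = ∑ part - (u + v) G`. If `‖z - x‖ ≤ 6 s` both kernels vanish, `‖q z‖ ≤ C (lam + ‖v‖)` and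
  `wt (3 s) (z - x) ≥ 1/8`. On `{z | 3 s < ‖z - x‖}` the function `q` is holomorphic (`part` is
  holomorphic off the closed discs, which lie in `ball x (s)` eventually; `G` off `P`), bounded by
  `C (lam + ‖v‖)`, with coefficients `u α - (u+v) α = - v α` and `B' - (u + v) b = e - v b` about
  `x`. So `q z - (-(v α) / (z - x) + (e - v b) / (z - x) ^ 2)` satisfies the assumptions of
  `cube_decay` with `R = 3 s` (its bound is again `C (lam + ‖v‖)`, as `α ≤ 3 s`).
-/

set_option autoImplicit false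

open Complex Filter Topology Metric
open scoped ComplexConjugate

namespace Pool.Agent.SV

open Pool.Agent.Helper53.CAC

/-- the coefficients of the kernels -/
private theorem stb1_ker (x A B : ℂ) : Coef (fun z => A / (z - x) + B / (z - x) ^ 2) x A B := by
  have hg : Tendsto (fun z : ℂ => (z - x)⁻¹) (cocompact ℂ) (𝓝 0) := by
    have h1 : Tendsto (fun z : ℂ => z - x) (cocompact ℂ) (cocompact ℂ) :=
      (Homeomorph.subRight x).isClosedEmbedding.tendsto_cocompact
    have h2 : Tendsto (fun z : ℂ => z⁻¹) (cocompact ℂ) (𝓝 0) := by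
      rw [← Metric.cobounded_eq_cocompact]
      exact tendsto_inv₀_cobounded
    exact h2.comp h1
  have hne : ∀ᶠ z : ℂ in cocompact ℂ, z - x ≠ 0 := by
    have h1 : ({x} : Set ℂ)ᶜ ∈ cocompact ℂ := isCompact_singleton.compl_mem_cocompact
    filter_upwards [h1] with z hz h2
    exact hz (sub_eq_zero.1 h2)
  refine ⟨?_, ?_, ?_⟩
  · have h1 : Tendsto (fun z : ℂ => A * (z - x)⁻¹ + B * ((z - x)⁻¹) ^ 2) (cocompact ℂ)
        (𝓝 (A * 0 + B * 0 ^ 2)) := (hg.const_mul A).add ((hg.pow 2).const_mul B)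
    have h2 : A * 0 + B * 0 ^ 2 = 0 := by ring
    rw [h2] at h1
    exact h1.congr fun z => by rw [div_eq_mul_inv, div_eq_mul_inv, inv_pow]
  · have h1 : Tendsto (fun z : ℂ => A + B * (z - x)⁻¹ + x * (A * (z - x)⁻¹ + B * ((z - x)⁻¹) ^ 2))
        (cocompact ℂ) (𝓝 (A + B * 0 + x * (A * 0 + B * 0 ^ 2))) :=
      (tendsto_const_nhds.add (hg.const_mul B)).add
        (((hg.const_mul A).add ((hg.pow 2).const_mul B)).const_mul x)
    have h2 : A + B * 0 + x * (A * 0 + B * 0 ^ 2) = A := by ring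
    rw [h2] at h1
    refine h1.congr' ?_
    filter_upwards [hne] with z hz
    field_simp
    ring
  · refine tendsto_const_nhds.congr' ?_
    filter_upwards [hne] with z hz
    field_simp
    ring

theorem back_cell2 : ∃ C : ℝ, 0 < C ∧ ∀ (k : ℕ), 0 < k → ∀ (c : Fin k) (P : Set ℂ) (x : ℂ)
    (s α : ℝ) (b : ℂ) (G : ℂ → ℂ) (lam : ℝ), 0 < s → 0 < α → α ≤ 3 * s → IsCompact P →
    P ⊆ closedBall x (3 * s) → AF P x G α b → (∀ z, ‖G z‖ ≤ 1) → ‖b‖ ≤ 100 * s * α → 0 < lam →
    ∀ᶠ h : ℝ in 𝓝[>] 0, ∀ J : Finset (Fin k × ℤ × ℤ),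
      (∀ y ∈ J, y.1 = c ∧ 0 < lam * α * blob x (s / 4) (gp k h y)) → ∀ F : ℂ → ℂ,
      (∀ y ∈ J, ContinuousOn F
        (sphere (gp k h y) (64 * (lam * α * blob x (s / 4) (gp k h y) * h ^ 2)))) →
      (∀ y ∈ J, ∀ z ∈ sphere (gp k h y) (64 * (lam * α * blob x (s / 4) (gp k h y) * h ^ 2)),
        ‖F z‖ ≤ 1) →
      ∃ u e : ℂ, ‖u‖ ≤ C * lam ∧ ‖e‖ ≤ C * lam * s * α ∧
        ∑ y ∈ J, pA F (gp k h y) (64 * (lam * α * blob x (s / 4) (gp k h y) * h ^ 2)) = u * α ∧
        ∀ v z : ℂ, (∀ y ∈ J, h / 2 ≤ ‖z - gp k h y‖) →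
          ‖∑ y ∈ J, part F (gp k h y) (64 * (lam * α * blob x (s / 4) (gp k h y) * h ^ 2)) z
            - (u + v) * G z - (-(v * α) * phiK s z x + (e - v * b) * psiK s z x)‖
              ≤ C * (lam + ‖v‖) * wt (3 * s) (z - x) := by
  refine ⟨500000, by norm_num, ?_⟩
  intro k hk j P x s α b G lam hs hα hα3 _hPc hPsub hG hGb hb hlam
  have ht : 0 < s / 4 := by positivity
  set Mρ := 16 * lam * α / s ^ 2 with hMρ
  have hMρ0 : 0 < Mρ := by positivity
  set ρ : ℂ → ℝ := fun ζ => lam * α * blob x (s / 4) ζ with hρ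
  have hρle : ∀ ζ, ρ ζ ≤ Mρ := by
    intro ζ
    have h1 := blob_le x ht ζ
    have h2 : ρ ζ ≤ lam * α * (1 / (s / 4) ^ 2) := mul_le_mul_of_nonneg_left h1 (by positivity)
    refine h2.trans (le_of_eq ?_)
    rw [hMρ]
    field_simp
    ring
  have hρ0 : ∀ ζ, 0 ≤ ρ ζ := fun ζ => mul_nonneg (by positivity) (blob_nonneg _ _ _)
  have hρc : Continuous ρ := continuous_const.mul (blob_cont _ _)
  have hρs : HasCompactSupport ρ := (blob_compact x ht).mul_left
  have hρint : ∫ ζ, ρ ζ = lam * α := by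
    rw [hρ, MeasureTheory.integral_const_mul, blob_int _ ht, mul_one]
  have e1 := grid_mass hk j hρc hρ0 hρs (η := lam * α) (by positivity)
  have e2 : ∀ᶠ h : ℝ in 𝓝[>] 0, h ≤ s / 4 :=
    (eventually_nhdsWithin_of_eventually_nhds (eventually_le_nhds ht))
  have e3 : ∀ᶠ h : ℝ in 𝓝[>] 0, h ≤ 1 / (256 * Mρ) :=
    (eventually_nhdsWithin_of_eventually_nhds (eventually_le_nhds (by positivity)))
  filter_upwards [e1, e2, e3, self_mem_nhdsWithin] with h hmass hhs hhM hh0 J hJ F hFc hFb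
  have hh : 0 < h := hh0
  rw [hρint] at hmass
  have hsum := hmass J fun y hy => (hJ y hy).1
  set T : Fin k × ℤ × ℤ → ℝ := fun y => 64 * (ρ (gp k h y) * h ^ 2) with hT
  have hTpos : ∀ y ∈ J, 0 < T y := fun y hy => by
    have : 0 < ρ (gp k h y) := (hJ y hy).2
    simp only [hT]
    positivity
  have hTle : ∀ y, T y ≤ h / 4 := by
    intro y
    have h1 : ρ (gp k h y) ≤ Mρ := hρle _
    have h2 : 256 * Mρ * h ≤ 1 := by
      rw [le_div_iff₀ (by positivity)] at hhM
      linarith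
    simp only [hT]
    have h3 : ρ (gp k h y) * h ^ 2 ≤ Mρ * h ^ 2 := mul_le_mul_of_nonneg_right h1 (by positivity)
    nlinarith
  have hTsum : ∑ y ∈ J, T y ≤ 128 * (lam * α) := by
    simp only [hT]
    rw [← Finset.mul_sum]
    linarith
  have hdist : ∀ y ∈ J, ‖gp k h y - x‖ ≤ s / 4 := fun y hy => by
    have h1 : 0 < lam * α * blob x (s / 4) (gp k h y) := (hJ y hy).2
    have h2 : blob x (s / 4) (gp k h y) ≠ 0 := by
      intro h3
      rw [h3, mul_zero] at h1
      exact lt_irrefl _ h1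
    exact (blob_supp x ht h2).le
  have hspec : ∀ y ∈ J, _ := fun y hy => part_spec (hTpos y hy) (hFc y hy) (hFb y hy) x
  have hαC : (α : ℂ) ≠ 0 := by exact_mod_cast hα.ne'
  set u : ℂ := (∑ y ∈ J, pA F (gp k h y) (T y)) / α with hu
  set B' : ℂ := ∑ y ∈ J, pB F (gp k h y) (T y) x with hB'
  have huα : ∑ y ∈ J, pA F (gp k h y) (T y) = u * α := by
    rw [hu]; field_simp
  have hun : ‖u‖ ≤ 128 * lam := by
    rw [hu, norm_div, norm_real, Real.norm_of_nonneg hα.le, div_le_iff₀ hα]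
    have h1 : ‖∑ y ∈ J, pA F (gp k h y) (T y)‖ ≤ ∑ y ∈ J, T y :=
      (norm_sum_le _ _).trans (Finset.sum_le_sum fun y hy => (hspec y hy).2.2.2.1)
    nlinarith
  have hBn : ‖B'‖ ≤ 64 * lam * s * α := by
    have h1 : ‖B'‖ ≤ ∑ y ∈ J, T y * (s / 2) := by
      refine (norm_sum_le _ _).trans (Finset.sum_le_sum fun y hy => ?_)
      refine ((hspec y hy).2.2.2.2).trans (mul_le_mul_of_nonneg_left ?_ (hTpos y hy).le)
      have h2 := hdist y hy
      have h3 := hTle y
      linarith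
    rw [← Finset.sum_mul] at h1
    have h2 : (∑ y ∈ J, T y) * (s / 2) ≤ 128 * (lam * α) * (s / 2) :=
      mul_le_mul_of_nonneg_right hTsum (by positivity)
    linarith
  have hen : ‖B' - u * b‖ ≤ 12864 * lam * s * α := by
    have h1 : ‖u * b‖ ≤ 128 * lam * (100 * s * α) := by
      rw [norm_mul]
      exact mul_le_mul hun hb (norm_nonneg _) (by positivity)
    have h2 := norm_sub_le B' (u * b)
    linarith
  refine ⟨u, B' - u * b, ?_, ?_, huα, ?_⟩
  · nlinarith
  · refine hen.trans ?_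
    have : 0 ≤ lam * s * α := by positivity
    nlinarith
  intro v
  set e : ℂ := B' - u * b with he
  -- the bound for `q`
  have hqb : ∀ z ∈ {z | ∀ y ∈ J, h / 2 ≤ ‖z - gp k h y‖},
      ‖∑ y ∈ J, part F (gp k h y) (T y) z - (u + v) * G z‖ ≤ 58700 * (lam + ‖v‖) := by
    intro z hz
    have h0 : ∑ y ∈ J, ρ (gp k h y) * h ^ 2 / ‖z - gp k h y‖ ≤ 144 * Real.pi * lam := by
      have h1 := grid_pot j ht hh J (c := x) (fun y hy => ⟨(hJ y hy).1, hdist y hy⟩) z hz
      have h4 : ∑ y ∈ J, ρ (gp k h y) * h ^ 2 / ‖z - gp k h y‖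
          ≤ Mρ * ∑ y ∈ J, h ^ 2 / ‖z - gp k h y‖ := by
        rw [Finset.mul_sum]
        refine Finset.sum_le_sum fun y _ => ?_
        rw [mul_div_assoc]
        exact mul_le_mul_of_nonneg_right (hρle _) (by positivity)
      refine h4.trans ?_
      have h5 : ∑ y ∈ J, h ^ 2 / ‖z - gp k h y‖ ≤ 3 * Real.pi * s := by
        have h6 : 6 * Real.pi * (s / 4 + h) ≤ 3 * Real.pi * s := by
          nlinarith [Real.pi_pos]
        linarith
      calc Mρ * ∑ y ∈ J, h ^ 2 / ‖z - gp k h y‖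
          ≤ Mρ * (3 * Real.pi * s) := mul_le_mul_of_nonneg_left h5 hMρ0.le
        _ = 48 * Real.pi * lam * (α / s) := by rw [hMρ]; field_simp; ring
        _ ≤ 48 * Real.pi * lam * 3 := by
            refine mul_le_mul_of_nonneg_left ?_ (by positivity)
            rw [div_le_iff₀ hs]
            exact hα3
        _ = 144 * Real.pi * lam := by ring
    have h1 : ‖∑ y ∈ J, part F (gp k h y) (T y) z‖ ≤ 128 * (144 * Real.pi * lam) := by
      refine le_trans ?_ (mul_le_mul_of_nonneg_left h0 (by norm_num))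
      rw [Finset.mul_sum]
      refine (norm_sum_le _ _).trans (Finset.sum_le_sum fun y hy => ?_)
      have h3 := hz y hy
      have h4 := hTle y
      have h5 := (hspec y hy).2.2.1 z (by linarith)
      refine h5.trans (le_of_eq ?_)
      simp only [hT]
      ring
    have h2 : ‖(u + v) * G z‖ ≤ 128 * lam + ‖v‖ := by
      rw [norm_mul]
      have g1 := hGb z
      have g2 : ‖u + v‖ ≤ 128 * lam + ‖v‖ := (norm_add_le _ _).trans (by linarith)
      have g3 : ‖u + v‖ * ‖G z‖ ≤ (128 * lam + ‖v‖) * 1 :=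
        mul_le_mul g2 g1 (norm_nonneg _) (by positivity)
      linarith
    have h3 : 128 * (144 * Real.pi * lam) ≤ 58070 * lam := by
      have h6 := Real.pi_lt_d4
      nlinarith
    have h4 := norm_sub_le (∑ y ∈ J, part F (gp k h y) (T y) z) ((u + v) * G z)
    have h5 := norm_nonneg v
    nlinarith
  -- far away
  have hfar : ∀ z, 3 * s < ‖z - x‖ → ∀ y ∈ J, h / 2 ≤ ‖z - gp k h y‖ := by
    intro z hz y hy
    have h1 := hdist y hy
    have h3 : ‖z - x‖ ≤ ‖z - gp k h y‖ + ‖gp k h y - x‖ := by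
      have h4 : z - x = (z - gp k h y) + (gp k h y - x) := by ring
      rw [h4]
      exact norm_add_le _ _
    linarith
  have hPsub' : {z | 3 * s < ‖z - x‖} ⊆ Pᶜ := by
    intro z hz hzP
    have h1 := hPsub hzP
    rw [mem_closedBall, dist_eq_norm] at h1
    have h2 : 3 * s < ‖z - x‖ := hz
    linarith
  have hne : ∀ z ∈ {z : ℂ | 3 * s < ‖z - x‖}, z - x ≠ 0 := by
    intro z hz h1
    have h2 : 3 * s < ‖z - x‖ := hz
    rw [h1, norm_zero] at h2
    linarith
  have hcoef : Coef (fun z => (∑ y ∈ J, part F (gp k h y) (T y) z - (u + v) * G z)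
      - (-(v * α) / (z - x) + (e - v * b) / (z - x) ^ 2)) x 0 0 := by
    have h1 := Coef.sum J (f := fun y z => part F (gp k h y) (T y) z) (x := x)
      (a := fun y => pA F (gp k h y) (T y)) (b := fun y => pB F (gp k h y) (T y) x)
      (fun y hy => (hspec y hy).2.1)
    have h3 := (h1.sub (hG.coef.const_mul (u + v))).sub (stb1_ker x (-(v * α)) (e - v * b))
    have e4 : ∑ y ∈ J, pA F (gp k h y) (T y) - (u + v) * α - -(v * α) = 0 := by rw [huα]; ring
    have e5 : ∑ y ∈ J, pB F (gp k h y) (T y) x - (u + v) * b - (e - v * b) = 0 := by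
      rw [← hB', he]; ring
    rw [e4, e5] at h3
    exact h3
  have hdiff : DifferentiableOn ℂ
      (fun z => (∑ y ∈ J, part F (gp k h y) (T y) z - (u + v) * G z)
        - (-(v * α) / (z - x) + (e - v * b) / (z - x) ^ 2)) {z | 3 * s < ‖z - x‖} := by
    refine DifferentiableOn.sub (DifferentiableOn.sub ?_ ?_) ?_
    · refine DifferentiableOn.fun_sum fun y hy => ((hspec y hy).1).mono fun z hz => ?_
      have h1 := hfar z hz y hy
      have h2 := hTle y
      have h3 : T y < ‖z - gp k h y‖ := by linarith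
      exact h3
    · exact (hG.holo.mono hPsub').const_mul _
    · have hsub : DifferentiableOn ℂ (fun z : ℂ => z - x) {z | 3 * s < ‖z - x‖} :=
        differentiableOn_id.sub_const x
      refine DifferentiableOn.add ?_ ?_
      · exact (differentiableOn_const _).div hsub hne
      · exact (differentiableOn_const _).div (hsub.pow 2) fun z hz => pow_ne_zero 2 (hne z hz)
  have hbd : ∀ z, 3 * s < ‖z - x‖ →
      ‖(∑ y ∈ J, part F (gp k h y) (T y) z - (u + v) * G z)
        - (-(v * α) / (z - x) + (e - v * b) / (z - x) ^ 2)‖ ≤ 64000 * (lam + ‖v‖) := by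
    intro z hz
    have hzx : 0 < ‖z - x‖ := lt_trans (by positivity) hz
    have h1 := hqb z (hfar z hz)
    have hv0 := norm_nonneg v
    have h2 : ‖-(v * (α : ℂ)) / (z - x)‖ ≤ ‖v‖ := by
      rw [norm_div, norm_neg, norm_mul, norm_real, Real.norm_of_nonneg hα.le, div_le_iff₀ hzx]
      exact mul_le_mul_of_nonneg_left (hα3.trans hz.le) hv0
    have h3 : ‖(e - v * b) / (z - x) ^ 2‖ ≤ 4288 * lam + 34 * ‖v‖ := by
      rw [norm_div, norm_pow, div_le_iff₀ (by positivity)]
      have g1 : ‖e - v * b‖ ≤ 12864 * lam * s * α + ‖v‖ * (100 * s * α) := by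
        refine (norm_sub_le _ _).trans (add_le_add hen ?_)
        rw [norm_mul]
        exact mul_le_mul_of_nonneg_left hb hv0
      have g2 : s * α ≤ 3 * s ^ 2 := by nlinarith
      have g3 : 9 * s ^ 2 ≤ ‖z - x‖ ^ 2 := by nlinarith
      have g4 : 12864 * lam * s * α + ‖v‖ * (100 * s * α)
          ≤ (12864 * lam + 100 * ‖v‖) * (3 * s ^ 2) := by
        have : 12864 * lam * s * α + ‖v‖ * (100 * s * α)
            = (12864 * lam + 100 * ‖v‖) * (s * α) := by ring
        rw [this]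
        exact mul_le_mul_of_nonneg_left g2 (by positivity)
      have g5 : (12864 * lam + 100 * ‖v‖) * (3 * s ^ 2)
          ≤ (4288 * lam + 34 * ‖v‖) * (9 * s ^ 2) := by
        have : 0 ≤ s ^ 2 := by positivity
        nlinarith [mul_nonneg hv0 this]
      have g6 : (4288 * lam + 34 * ‖v‖) * (9 * s ^ 2)
          ≤ (4288 * lam + 34 * ‖v‖) * ‖z - x‖ ^ 2 :=
        mul_le_mul_of_nonneg_left g3 (by positivity)
      exact g1.trans (g4.trans (g5.trans g6))
    have h4 := norm_add_le (-(v * (α : ℂ)) / (z - x)) ((e - v * b) / (z - x) ^ 2)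
    have h5 := norm_sub_le (∑ y ∈ J, part F (gp k h y) (T y) z - (u + v) * G z)
      (-(v * (α : ℂ)) / (z - x) + (e - v * b) / (z - x) ^ 2)
    have h6 : 0 ≤ ‖v‖ := hv0
    nlinarith
  have hfin := cube_decay (R := 3 * s) (by positivity) hdiff hbd hcoef
  intro z hz
  have hlv : 0 ≤ lam + ‖v‖ := by positivity
  have hw0 := wt_nonneg (R := 3 * s) (by positivity) (z - x)
  rcases lt_or_ge (6 * s) ‖z - x‖ with h6 | h6
  · have h3 : 3 * s < ‖z - x‖ := by linarith
    have h1 := hfin z h3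
    have h2 : wt (3 * s) (z - x) = (3 * s / ‖z - x‖) ^ 3 := by
      unfold wt
      rw [max_eq_right h3.le]
    rw [← h2] at h1
    have e1 : phiK s z x = 1 / (z - x) := by unfold phiK; rw [if_pos h6]
    have e2 : psiK s z x = 1 / (z - x) ^ 2 := by unfold psiK; rw [if_pos h6]
    rw [e1, e2]
    have e3 : -(v * (α : ℂ)) * (1 / (z - x)) + (e - v * b) * (1 / (z - x) ^ 2)
        = -(v * (α : ℂ)) / (z - x) + (e - v * b) / (z - x) ^ 2 := by ring
    rw [e3]
    refine h1.trans (mul_le_mul_of_nonneg_right ?_ hw0)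
    nlinarith
  · have e1 : phiK s z x = 0 := by unfold phiK; rw [if_neg (not_lt.2 h6)]
    have e2 : psiK s z x = 0 := by unfold psiK; rw [if_neg (not_lt.2 h6)]
    rw [e1, e2, mul_zero, mul_zero, add_zero, sub_zero]
    have h1 := hqb z hz
    have h2 : (1 / 8 : ℝ) ≤ wt (3 * s) (z - x) := by
      unfold wt
      have g1 : 0 < max (3 * s) ‖z - x‖ := lt_max_of_lt_left (by positivity)
      have g2 : max (3 * s) ‖z - x‖ ≤ 6 * s := max_le (by linarith) h6
      have g3 : (1 / 2 : ℝ) ≤ 3 * s / max (3 * s) ‖z - x‖ := by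
        rw [le_div_iff₀ g1]
        linarith
      calc (1 / 8 : ℝ) = (1 / 2) ^ 3 := by norm_num
        _ ≤ (3 * s / max (3 * s) ‖z - x‖) ^ 3 := pow_le_pow_left₀ (by norm_num) g3 3
    refine h1.trans ?_
    have h3 : 500000 * (lam + ‖v‖) * (1 / 8) ≤ 500000 * (lam + ‖v‖) * wt (3 * s) (z - x) :=
      mul_le_mul_of_nonneg_left h2 (by positivity)
    nlinarith

end Pool.Agent.SV
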