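import Pool.Agent.Helper53.ST.Defs
import Pool.Agent.Helper53.AC.C3

/-!
# ST-R3: double summation by parts in a row

PROOF. Put `x k = p + k s`, `w = z - x k`.
Kernel estimates: `‖phiK s z (x k + s) - phiK s z (x k) - s * psiK s z (x k)‖ ≤ (C/s) * wt (3 s) w`
and `‖psiK s z (x k + s) - psiK s z (x k)‖ ≤ (C/s^2) * wt (3 s) w`. If `‖w‖ ≤ 8 s` then
`wt (3 s) w ≥ (3/8)^3` and every term is at most `1/(6 s)`, `1/(36 s)`, `1/(36 s^2)`. If
`‖w‖ > 8 s` nothing is cut off, `1/(w-s) - 1/w - s/w^2 = s^2/(w^2 (w-s))`,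
`1/(w-s)^2 - 1/w^2 = s (2 w - s)/(w^2 (w-s)^2)`, `‖w - s‖ ≥ (7/8) ‖w‖` and
`wt (3 s) w = 27 s^3/‖w‖^3`.
Summation by parts: with `Q m = ∑_{k<m} A k` (`Q n = 0`) and
`R m = ∑_{k<m} (B k - s * Q (k+1))`, `φ k = phiK s z (x k)`, `ψ k = psiK s z (x k)`:
`∑_{k<n} A k φ k = Q n φ n - ∑_{k<n} Q (k+1) (φ (k+1) - φ k)`
`= - ∑_{k<n} Q (k+1) s ψ k - ∑_{k<n} Q (k+1) (φ (k+1) - φ k - s ψ k)`, so
`∑_{k<n} (A k φ k + B k ψ k) = ∑_{k<n} (B k - s Q (k+1)) ψ k - ∑_{k<n} Q (k+1) (...)`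
`= R n ψ n - ∑_{k<n} R (k+1) (ψ (k+1) - ψ k) - ∑_{k<n} Q (k+1) (φ (k+1) - φ k - s ψ k)`.
(Mathlib: `Finset.sum_range_by_parts`, or a direct induction on `n`.)
-/

set_option autoImplicit false

open Complex Filter Topology Metric Finset
open scoped ComplexConjugate

namespace Pool.Agent.SV

private theorem r3_wt_near {s : ℝ} (hs : 0 < s) {w : ℂ} (hw : ‖w‖ ≤ 8 * s) :
    27 / 512 ≤ wt (3 * s) w := by
  unfold wt
  have h1 : 0 < max (3 * s) ‖w‖ := lt_max_of_lt_left (by positivity)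
  have h2 : (3 / 8 : ℝ) ≤ 3 * s / max (3 * s) ‖w‖ := by
    rw [le_div_iff₀ h1]
    have : max (3 * s) ‖w‖ ≤ 8 * s := max_le (by linarith) hw
    linarith
  calc (27 / 512 : ℝ) = (3 / 8) ^ 3 := by norm_num
    _ ≤ _ := pow_le_pow_left₀ (by norm_num) h2 3

private theorem r3_wt_far {s : ℝ} (hs : 0 < s) {w : ℂ} (hw : 8 * s < ‖w‖) :
    wt (3 * s) w = 27 * s ^ 3 / ‖w‖ ^ 3 := by
  unfold wt
  rw [max_eq_right (by linarith), div_pow]
  ring

private theorem r3_phi_le {s : ℝ} (hs : 0 < s) (z x : ℂ) : ‖phiK s z x‖ ≤ 1 / (6 * s) := by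
  unfold phiK
  split_ifs with h
  · rw [norm_div, norm_one]
    exact one_div_le_one_div_of_le (by positivity) h.le
  · rw [norm_zero]
    positivity

private theorem r3_psi_le {s : ℝ} (hs : 0 < s) (z x : ℂ) : ‖psiK s z x‖ ≤ 1 / (36 * s ^ 2) := by
  unfold psiK
  split_ifs with h
  · rw [norm_div, norm_one, norm_pow]
    refine one_div_le_one_div_of_le (by positivity) ?_
    calc 36 * s ^ 2 = (6 * s) ^ 2 := by ring
      _ ≤ _ := pow_le_pow_left₀ (by positivity) h.le 2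
  · rw [norm_zero]
    positivity

private theorem r3_sub {s : ℝ} (hs : 0 < s) {w : ℂ} (hw : 8 * s < ‖w‖) :
    7 / 8 * ‖w‖ ≤ ‖w - s‖ := by
  have h1 : ‖w‖ - ‖(s : ℂ)‖ ≤ ‖w - s‖ := norm_sub_norm_le _ _
  rw [Complex.norm_real, Real.norm_of_nonneg hs.le] at h1
  linarith

private theorem r3_k1 {s : ℝ} (hs : 0 < s) (z x : ℂ) :
    ‖phiK s z (x + s) - phiK s z x - s * psiK s z x‖ ≤ 10 / s * wt (3 * s) (z - x) := by
  rcases le_or_gt ‖z - x‖ (8 * s) with hw | hw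
  · have h1 := r3_wt_near hs hw
    have h2 : ‖phiK s z (x + s) - phiK s z x - s * psiK s z x‖ ≤
        1 / (6 * s) + 1 / (6 * s) + s * (1 / (36 * s ^ 2)) := by
      refine (norm_sub_le _ _).trans (add_le_add ((norm_sub_le _ _).trans
        (add_le_add (r3_phi_le hs _ _) (r3_phi_le hs _ _))) ?_)
      rw [norm_mul, Complex.norm_real, Real.norm_of_nonneg hs.le]
      exact mul_le_mul_of_nonneg_left (r3_psi_le hs _ _) hs.le
    refine h2.trans ?_
    calc 1 / (6 * s) + 1 / (6 * s) + s * (1 / (36 * s ^ 2)) = 13 / 36 / s := by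
          field_simp
          norm_num
      _ ≤ 10 / s * (27 / 512) := by
          rw [div_mul_eq_mul_div]
          exact div_le_div_of_nonneg_right (by norm_num) hs.le
      _ ≤ _ := mul_le_mul_of_nonneg_left h1 (by positivity)
  · set w := z - x with hwdef
    have hw0 : 0 < ‖w‖ := by linarith [mul_pos (by norm_num : (0 : ℝ) < 8) hs]
    have h1 := r3_sub hs hw
    have hws : 0 < ‖w - s‖ := by linarith [mul_pos (by norm_num : (0 : ℝ) < 7 / 8) hw0]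
    have e1 : z - (x + s) = w - s := by rw [hwdef]; ring
    have hwne : w ≠ 0 := norm_pos_iff.1 hw0
    have hwsne : w - s ≠ 0 := norm_pos_iff.1 hws
    have e2 : phiK s z (x + s) - phiK s z x - s * psiK s z x = (s : ℂ) ^ 2 / (w ^ 2 * (w - s)) := by
      unfold phiK psiK
      rw [← hwdef, e1, if_pos (by linarith : 6 * s < ‖w - s‖), if_pos (by linarith : 6 * s < ‖w‖),
        if_pos (by linarith : 6 * s < ‖w‖)]
      field_simp
      ring
    rw [e2, r3_wt_far hs hw, norm_div, norm_mul, norm_pow, norm_pow, Complex.norm_real,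
      Real.norm_of_nonneg hs.le]
    calc s ^ 2 / (‖w‖ ^ 2 * ‖w - s‖) ≤ s ^ 2 / (‖w‖ ^ 2 * (7 / 8 * ‖w‖)) := by gcongr
      _ = 8 / 7 * (s ^ 2 / ‖w‖ ^ 3) := by field_simp
      _ ≤ 270 * (s ^ 2 / ‖w‖ ^ 3) := mul_le_mul_of_nonneg_right (by norm_num) (by positivity)
      _ = 10 / s * (27 * s ^ 3 / ‖w‖ ^ 3) := by field_simp; norm_num

private theorem r3_k2 {s : ℝ} (hs : 0 < s) (z x : ℂ) :
    ‖psiK s z (x + s) - psiK s z x‖ ≤ 10 / s ^ 2 * wt (3 * s) (z - x) := by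
  rcases le_or_gt ‖z - x‖ (8 * s) with hw | hw
  · have h1 := r3_wt_near hs hw
    have h2 : ‖psiK s z (x + s) - psiK s z x‖ ≤ 1 / (36 * s ^ 2) + 1 / (36 * s ^ 2) :=
      (norm_sub_le _ _).trans (add_le_add (r3_psi_le hs _ _) (r3_psi_le hs _ _))
    refine h2.trans ?_
    calc 1 / (36 * s ^ 2) + 1 / (36 * s ^ 2) = 1 / 18 / s ^ 2 := by
          field_simp
          norm_num
      _ ≤ 10 / s ^ 2 * (27 / 512) := by
          rw [div_mul_eq_mul_div]
          exact div_le_div_of_nonneg_right (by norm_num) (by positivity)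
      _ ≤ _ := mul_le_mul_of_nonneg_left h1 (by positivity)
  · set w := z - x with hwdef
    have hw0 : 0 < ‖w‖ := by linarith [mul_pos (by norm_num : (0 : ℝ) < 8) hs]
    have h1 := r3_sub hs hw
    have hws : 0 < ‖w - s‖ := by linarith [mul_pos (by norm_num : (0 : ℝ) < 7 / 8) hw0]
    have e1 : z - (x + s) = w - s := by rw [hwdef]; ring
    have hwne : w ≠ 0 := norm_pos_iff.1 hw0
    have hwsne : w - s ≠ 0 := norm_pos_iff.1 hws
    have e2 : psiK s z (x + s) - psiK s z x =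
        (s : ℂ) * (2 * w - s) / (w ^ 2 * (w - s) ^ 2) := by
      unfold psiK
      rw [← hwdef, e1, if_pos (by linarith : 6 * s < ‖w - s‖), if_pos (by linarith : 6 * s < ‖w‖)]
      field_simp
      ring
    have h3 : ‖2 * w - s‖ ≤ 3 * ‖w‖ := by
      refine (norm_sub_le _ _).trans ?_
      rw [norm_mul, Complex.norm_real, Real.norm_of_nonneg hs.le, Complex.norm_ofNat]
      linarith
    rw [e2, r3_wt_far hs hw, norm_div, norm_mul, norm_mul, norm_pow, norm_pow, Complex.norm_real,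
      Real.norm_of_nonneg hs.le]
    calc s * ‖2 * w - s‖ / (‖w‖ ^ 2 * ‖w - s‖ ^ 2)
        ≤ s * (3 * ‖w‖) / (‖w‖ ^ 2 * (7 / 8 * ‖w‖) ^ 2) := by gcongr
      _ = 192 / 49 * (s / ‖w‖ ^ 3) := by field_simp; norm_num
      _ ≤ 270 * (s / ‖w‖ ^ 3) := mul_le_mul_of_nonneg_right (by norm_num) (by positivity)
      _ = 10 / s ^ 2 * (27 * s ^ 3 / ‖w‖ ^ 3) := by field_simp; norm_num

/-- double summation by parts -/
private theorem r3_abel (A B φ ψ : ℕ → ℂ) (s : ℂ) (n : ℕ) :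
    ∑ k ∈ range n, (A k * φ k + B k * ψ k) =
      (∑ k ∈ range n, A k) * φ n + (∑ k ∈ range n, (B k - s * ∑ l ∈ range (k + 1), A l)) * ψ n
      - ∑ k ∈ range n, (∑ m ∈ range (k + 1), (B m - s * ∑ l ∈ range (m + 1), A l)) *
          (ψ (k + 1) - ψ k)
      - ∑ k ∈ range n, (∑ l ∈ range (k + 1), A l) * (φ (k + 1) - φ k - s * ψ k) := by
  induction n with
  | zero => simp
  | succ n ih =>
    rw [sum_range_succ, ih, sum_range_succ (fun k => (∑ m ∈ range (k + 1),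
      (B m - s * ∑ l ∈ range (m + 1), A l)) * (ψ (k + 1) - ψ k)) n,
      sum_range_succ (fun k => (∑ l ∈ range (k + 1), A l) * (φ (k + 1) - φ k - s * ψ k)) n,
      sum_range_succ (fun k => B k - s * ∑ l ∈ range (k + 1), A l) n, sum_range_succ A n]
    ring

theorem abel_row : ∃ C : ℝ, 0 < C ∧ ∀ (s κ : ℝ), 0 < s → 0 ≤ κ → ∀ (n : ℕ) (A B : ℕ → ℂ)
    (z p : ℂ), ∑ k ∈ range n, A k = 0 → (∀ m ≤ n, ‖∑ k ∈ range m, A k‖ ≤ κ * s) →
    (∀ m ≤ n, ‖∑ k ∈ range m, (B k - s * ∑ l ∈ range (k + 1), A l)‖ ≤ κ * s ^ 2) →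
    ‖∑ k ∈ range n, (A k * phiK s z (p + k * s) + B k * psiK s z (p + k * s))‖
      ≤ C * κ * (∑ k ∈ range n, wt (3 * s) (z - (p + k * s))
        + s ^ 2 * ‖psiK s z (p + n * s)‖) := by
  refine ⟨20, by norm_num, ?_⟩
  intro s κ hs hκ n A B z p hQ hQm hRm
  set φ : ℕ → ℂ := fun k => phiK s z (p + k * s) with hφ
  set ψ : ℕ → ℂ := fun k => psiK s z (p + k * s) with hψ
  have hx : ∀ k : ℕ, p + ((k + 1 : ℕ) : ℂ) * s = (p + k * s) + s := by
    intro k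
    push_cast
    ring
  have hk1 : ∀ k : ℕ, ‖φ (k + 1) - φ k - s * ψ k‖ ≤ 10 / s * wt (3 * s) (z - (p + k * s)) := by
    intro k
    simp only [hφ, hψ]
    rw [hx k]
    exact r3_k1 hs z _
  have hk2 : ∀ k : ℕ, ‖ψ (k + 1) - ψ k‖ ≤ 10 / s ^ 2 * wt (3 * s) (z - (p + k * s)) := by
    intro k
    simp only [hψ]
    rw [hx k]
    exact r3_k2 hs z _
  have hwt : ∀ k : ℕ, 0 ≤ wt (3 * s) (z - (p + k * s)) := by
    intro k
    unfold wt
    have : 0 < max (3 * s) ‖z - (p + k * s)‖ := lt_max_of_lt_left (by positivity)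
    positivity
  have key := r3_abel A B φ ψ (s : ℂ) n
  rw [hQ, zero_mul, zero_add] at key
  change ‖∑ k ∈ range n, (A k * φ k + B k * ψ k)‖ ≤ _
  rw [key]
  have b1 : ‖(∑ k ∈ range n, (B k - s * ∑ l ∈ range (k + 1), A l)) * ψ n‖ ≤
      κ * s ^ 2 * ‖ψ n‖ := by
    rw [norm_mul]
    exact mul_le_mul_of_nonneg_right (hRm n le_rfl) (norm_nonneg _)
  have b2 : ‖∑ k ∈ range n, (∑ m ∈ range (k + 1), (B m - s * ∑ l ∈ range (m + 1), A l)) *
      (ψ (k + 1) - ψ k)‖ ≤ 10 * κ * ∑ k ∈ range n, wt (3 * s) (z - (p + k * s)) := by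
    refine (norm_sum_le _ _).trans ?_
    rw [mul_sum]
    refine sum_le_sum fun k hk => ?_
    rw [norm_mul]
    calc _ ≤ (κ * s ^ 2) * (10 / s ^ 2 * wt (3 * s) (z - (p + k * s))) :=
          mul_le_mul (hRm (k + 1) (Finset.mem_range.1 hk)) (hk2 k) (norm_nonneg _) (by positivity)
      _ = _ := by field_simp
  have b3 : ‖∑ k ∈ range n, (∑ l ∈ range (k + 1), A l) * (φ (k + 1) - φ k - s * ψ k)‖ ≤
      10 * κ * ∑ k ∈ range n, wt (3 * s) (z - (p + k * s)) := by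
    refine (norm_sum_le _ _).trans ?_
    rw [mul_sum]
    refine sum_le_sum fun k hk => ?_
    rw [norm_mul]
    calc _ ≤ (κ * s) * (10 / s * wt (3 * s) (z - (p + k * s))) :=
          mul_le_mul (hQm (k + 1) (Finset.mem_range.1 hk)) (hk1 k) (norm_nonneg _) (by positivity)
      _ = _ := by field_simp
  have b4 : 0 ≤ s ^ 2 * ‖ψ n‖ := by positivity
  have b5 : 0 ≤ κ * (s ^ 2 * ‖ψ n‖) := mul_nonneg hκ b4
  refine (norm_sub_le _ _).trans ?_
  refine (add_le_add ((norm_sub_le _ _).trans (add_le_add b1 b2)) b3).trans ?_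
  change _ ≤ 20 * κ * (∑ k ∈ range n, wt (3 * s) (z - (p + k * s)) + s ^ 2 * ‖ψ n‖)
  nlinarith

end Pool.Agent.SV
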