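import Pool.Agent.Helper53.ST.R2
import Pool.Agent.Helper53.ST.R3
import Pool.Agent.Helper53.AC.L2b

/-!
# ST-R4: control on the lattice

PROOF. We may assume that `α`, `b`, `e` vanish outside `J` (replace them). Let `K : ℕ` be such
that `J ⊆ [-K, K] × [-K, K]`. For each row `i ∈ [-K, K]` apply `row_control` with `n = 2 K + 1` to
`k ↦ α (k - K, i)` etc.; this gives `v (k - K, i)`; put `v = 0` outside `[-K, K] × [-K, K]`. Note
`lp s (k - K, i) = p_i + k s` with `p_i = lp s (-K, i)`.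
Fix `z`. For each `N ≥ 2 K + 1` and each row apply `abel_row` with `n = N`,
`A k = - v (k-K,i) α (k-K,i)`, `B k = e (k-K,i) - v (k-K,i) b (k-K,i)` (all zero for `k > 2 K`, so
the cumulative sums at `m > 2 K + 1` are those at `2 K + 1`, and the total of the `A k` is zero):
the row sum is at most
`C κ (∑_{k<N} wt (3 s) (z - (p_i + k s)) + s ^ 2 ‖psiK s z (p_i + N s)‖)`. Sum over the `2 K + 1`
rows. The sum of the `wt` terms is at most `C₀ (3/2)^3` by `lattice_sum` (`wt_scale` with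
`t = 3/2`: `3 s = (3/2) (2 s)`; the lattice points of different rows are different, use an
injective image of a finite set), independent of `N`, and the `psiK` terms tend to zero as
`N → ∞` (`z` and `K` are fixed). Let `N → ∞` (`ge_of_tendsto`).
-/

set_option autoImplicit false

open Complex Filter Topology Metric Finset
open scoped ComplexConjugate

namespace Pool.Agent.SV

private theorem r4_psiK_tendsto {s : ℝ} (hs : 0 < s) (z p : ℂ) :
    Tendsto (fun N : ℕ => ‖psiK s z (p + N * s)‖) atTop (𝓝 0) := by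
  have h1 : ∀ N : ℕ, ‖psiK s z (p + N * s)‖ ≤ (‖z - (p + N * s)‖ ^ 2)⁻¹ := by
    intro N
    unfold psiK
    split_ifs
    · rw [norm_div, norm_one, norm_pow, one_div]
    · rw [norm_zero]
      positivity
  have h2 : Tendsto (fun N : ℕ => ‖z - (p + N * s)‖) atTop atTop := by
    have h3 : ∀ N : ℕ, s * N + -‖z - p‖ ≤ ‖z - (p + N * s)‖ := by
      intro N
      have h4 : z - (p + N * s) = (z - p) - (N * s : ℂ) := by ring
      rw [h4]
      have h5 := norm_sub_norm_le ((N * s : ℂ)) (z - p)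
      rw [norm_sub_rev (N * s : ℂ) (z - p)] at h5
      have h6 : ‖(N * s : ℂ)‖ = s * N := by
        rw [norm_mul, Complex.norm_natCast, Complex.norm_real, Real.norm_eq_abs, abs_of_pos hs,
          mul_comm]
      linarith
    refine tendsto_atTop_mono h3 ?_
    exact tendsto_atTop_add_const_right _ _ (tendsto_natCast_atTop_atTop.const_mul_atTop hs)
  have h3 : Tendsto (fun N : ℕ => (‖z - (p + N * s)‖ ^ 2)⁻¹) atTop (𝓝 0) :=
    tendsto_inv_atTop_zero.comp ((tendsto_pow_atTop (two_ne_zero)).comp h2)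
  exact squeeze_zero (fun N => norm_nonneg _) h1 h3

/-- the injection of the rectangle in the lattice -/
private def r4_emb (K : ℕ) : ℤ × ℕ ↪ ℤ × ℤ :=
  ⟨fun p => ((p.2 : ℤ) - K, p.1), by
    rintro ⟨a, b⟩ ⟨c, d⟩ h
    simp only [Prod.mk.injEq] at h ⊢
    omega⟩

private theorem r4_lp (s : ℝ) (K k : ℕ) (i : ℤ) :
    lp s ((k : ℤ) - K, i) = lp s (-(K : ℤ), i) + k * s := by
  apply Complex.ext
  · simp [lp]
    ring
  · simp [lp]

private theorem r4_sum {J : Finset (ℤ × ℤ)} {K : ℕ}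
    (hK : ∀ j ∈ J, -(K : ℤ) ≤ j.1 ∧ j.1 ≤ K ∧ -(K : ℤ) ≤ j.2 ∧ j.2 ≤ K) {N : ℕ}
    (hN : 2 * K + 1 ≤ N) (F : ℤ × ℤ → ℂ) (hF : ∀ j, j ∉ J → F j = 0) :
    ∑ j ∈ J, F j = ∑ i ∈ Icc (-(K : ℤ)) K, ∑ k ∈ range N, F ((k : ℤ) - K, i) := by
  have h1 : ∑ i ∈ Icc (-(K : ℤ)) K, ∑ k ∈ range N, F ((k : ℤ) - K, i)
      = ∑ p ∈ Icc (-(K : ℤ)) K ×ˢ range N, F (r4_emb K p) := by
    rw [Finset.sum_product]
    rfl
  rw [h1, ← Finset.sum_map _ (r4_emb K) F]
  apply Finset.sum_subset
  · intro j hj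
    obtain ⟨a1, a2, a3, a4⟩ := hK j hj
    rw [Finset.mem_map]
    refine ⟨(j.2, (j.1 + K).toNat), ?_, ?_⟩
    · rw [Finset.mem_product, Finset.mem_Icc, Finset.mem_range]
      simp only
      omega
    · show (((j.1 + K).toNat : ℤ) - K, j.2) = j
      apply Prod.ext
      · simp only
        omega
      · rfl
  · intro j _ hj
    exact hF j hj

theorem lattice_control : ∃ C : ℝ, 0 < C ∧ ∀ (s κ : ℝ), 0 < s → 0 ≤ κ →
    ∀ (J : Finset (ℤ × ℤ)) (α : ℤ × ℤ → ℝ) (b e : ℤ × ℤ → ℂ), (∀ j ∈ J, 0 ≤ α j) →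
    (∀ j ∈ J, α j ≤ 3 * s) → (∀ j ∈ J, ‖b j‖ ≤ 100 * s * α j) →
    (∀ j ∈ J, ‖e j‖ ≤ κ * s * α j) →
    ∃ v : ℤ × ℤ → ℂ, (∀ j, ‖v j‖ ≤ C * κ) ∧ ∑ j ∈ J, v j * α j = 0 ∧
      ∀ z : ℂ, ‖∑ j ∈ J, (-(v j * α j) * phiK s z (lp s j)
        + (e j - v j * b j) * psiK s z (lp s j))‖ ≤ C * κ := by
  classical
  obtain ⟨C₁, hC₁, row⟩ := row_control
  obtain ⟨C₂, hC₂, abel⟩ := abel_row
  obtain ⟨C₀, hC₀, lat⟩ := lattice_sum
  refine ⟨C₁ + C₂ * C₁ * (27 / 8 * C₀), by positivity, ?_⟩
  intro s κ hs hκ J α b e h0 h3 hb he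
  obtain ⟨K, hK⟩ : ∃ K : ℕ, ∀ j ∈ J, -(K : ℤ) ≤ j.1 ∧ j.1 ≤ K ∧ -(K : ℤ) ≤ j.2 ∧ j.2 ≤ K := by
    refine ⟨J.sup (fun j => j.1.natAbs + j.2.natAbs), fun j hj => ?_⟩
    have := Finset.le_sup (f := fun j : ℤ × ℤ => j.1.natAbs + j.2.natAbs) hj
    omega
  obtain ⟨α', hα'⟩ : ∃ f : ℤ × ℤ → ℝ, ∀ j, f j = if j ∈ J then α j else 0 := ⟨_, fun _ => rfl⟩
  obtain ⟨b', hb'⟩ : ∃ f : ℤ × ℤ → ℂ, ∀ j, f j = if j ∈ J then b j else 0 := ⟨_, fun _ => rfl⟩
  obtain ⟨e', he'⟩ : ∃ f : ℤ × ℤ → ℂ, ∀ j, f j = if j ∈ J then e j else 0 := ⟨_, fun _ => rfl⟩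
  have h0' : ∀ j, 0 ≤ α' j := by
    intro j
    rw [hα']
    split_ifs with h
    · exact h0 j h
    · exact le_refl _
  have h3' : ∀ j, α' j ≤ 3 * s := by
    intro j
    rw [hα']
    split_ifs with h
    · exact h3 j h
    · positivity
  have hbb : ∀ j, ‖b' j‖ ≤ 100 * s * α' j := by
    intro j
    rw [hα', hb']
    split_ifs with h
    · exact hb j h
    · simp
  have hee : ∀ j, ‖e' j‖ ≤ κ * s * α' j := by
    intro j
    rw [hα', he']
    split_ifs with h
    · exact he j h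
    · simp
  have row' := fun i : ℤ => row s κ hs hκ (2 * K + 1) (fun k => α' ((k : ℤ) - K, i))
    (fun k => b' ((k : ℤ) - K, i)) (fun k => e' ((k : ℤ) - K, i)) (fun k => h0' _)
    (fun k => h3' _) (fun k => hbb _) (fun k => hee _)
  choose v hv1 hv2 hv3 hv4 hv5 using row'
  obtain ⟨w, hw⟩ : ∃ f : ℤ × ℤ → ℂ, ∀ j, f j = if -(K : ℤ) ≤ j.1 then v j.2 (j.1 + K).toNat
    else 0 := ⟨_, fun _ => rfl⟩
  have hwv : ∀ (k : ℕ) (i : ℤ), w ((k : ℤ) - K, i) = v i k := by
    intro k i
    rw [hw, if_pos (by simp only; omega)]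
    congr 1
    simp only
    omega
  have hout : ∀ j, j ∉ J → α' j = 0 ∧ b' j = 0 ∧ e' j = 0 := by
    intro j hj
    rw [hα', hb', he', if_neg hj, if_neg hj, if_neg hj]
    exact ⟨rfl, rfl, rfl⟩
  have hkout : ∀ (k : ℕ) (i : ℤ), 2 * K + 1 ≤ k → α' ((k : ℤ) - K, i) = 0 ∧
      b' ((k : ℤ) - K, i) = 0 ∧ e' ((k : ℤ) - K, i) = 0 := by
    intro k i hk
    apply hout
    intro h
    have := (hK _ h).2.1
    simp only at this
    omega
  have hwC : ∀ j, ‖w j‖ ≤ C₁ * κ := by
    intro j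
    rw [hw]
    split_ifs
    · exact hv1 _ _
    · rw [norm_zero]
      positivity
  refine ⟨w, ?_, ?_, ?_⟩
  · intro j
    refine (hwC j).trans ?_
    apply mul_le_mul_of_nonneg_right _ hκ
    have : 0 ≤ C₂ * C₁ * (27 / 8 * C₀) := by positivity
    linarith
  · have h1 : ∑ j ∈ J, w j * α j = ∑ j ∈ J, w j * α' j := by
      apply Finset.sum_congr rfl
      intro j hj
      rw [hα', if_pos hj]
    rw [h1, r4_sum hK (le_refl (2 * K + 1)) (fun j => w j * α' j)
      (fun j hj => by rw [(hout j hj).1]; simp)]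
    apply Finset.sum_eq_zero
    intro i _
    rw [← hv3 i]
    apply Finset.sum_congr rfl
    intro k _
    rw [hwv]
  · intro z
    obtain ⟨F, hF⟩ : ∃ f : ℤ × ℤ → ℂ, ∀ j, f j = -(w j * α' j) * phiK s z (lp s j)
        + (e' j - w j * b' j) * psiK s z (lp s j) := ⟨_, fun _ => rfl⟩
    have h1 : ∑ j ∈ J, (-(w j * α j) * phiK s z (lp s j)
        + (e j - w j * b j) * psiK s z (lp s j)) = ∑ j ∈ J, F j := by
      apply Finset.sum_congr rfl
      intro j hj
      rw [hF, hα', hb', he', if_pos hj, if_pos hj, if_pos hj]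
    have hF0 : ∀ j, j ∉ J → F j = 0 := by
      intro j hj
      rw [hF, (hout j hj).1, (hout j hj).2.1, (hout j hj).2.2]
      simp
    rw [h1]
    -- the bound for each N
    have key : ∀ N : ℕ, 2 * K + 1 ≤ N → ‖∑ j ∈ J, F j‖ ≤
        C₂ * (C₁ * κ) * (27 / 8 * C₀ + s ^ 2 * ∑ i ∈ Icc (-(K : ℤ)) K,
          ‖psiK s z (lp s (-(K : ℤ), i) + N * s)‖) := by
      intro N hN
      rw [r4_sum hK hN F hF0]
      refine (norm_sum_le _ _).trans ?_
      have hrow : ∀ i ∈ Icc (-(K : ℤ)) K, ‖∑ k ∈ range N, F ((k : ℤ) - K, i)‖ ≤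
          C₂ * (C₁ * κ) * (∑ k ∈ range N, wt (3 * s) (z - lp s ((k : ℤ) - K, i))
            + s ^ 2 * ‖psiK s z (lp s (-(K : ℤ), i) + N * s)‖) := by
        intro i _
        have hA : ∀ m, 2 * K + 1 ≤ m → ∑ k ∈ range m, v i k * α' ((k : ℤ) - K, i) = 0 := by
          intro m hm
          rw [← hv3 i]
          symm
          apply Finset.sum_subset
          · intro k hk
            rw [Finset.mem_range] at hk ⊢
            omega
          · intro k _ hk
            rw [Finset.mem_range, not_lt] at hk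
            rw [hv2 i k hk, zero_mul]
        have hB : ∀ m, 2 * K + 1 ≤ m → ∑ k ∈ range m, (e' ((k : ℤ) - K, i)
            - v i k * b' ((k : ℤ) - K, i)
            + s * ∑ l ∈ range (k + 1), v i l * α' ((l : ℤ) - K, i)) =
            ∑ k ∈ range (2 * K + 1), (e' ((k : ℤ) - K, i) - v i k * b' ((k : ℤ) - K, i)
            + s * ∑ l ∈ range (k + 1), v i l * α' ((l : ℤ) - K, i)) := by
          intro m hm
          symm
          apply Finset.sum_subset
          · intro k hk
            rw [Finset.mem_range] at hk ⊢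
            omega
          · intro k _ hk
            rw [Finset.mem_range, not_lt] at hk
            rw [hA (k + 1) (by omega), hv2 i k hk, (hkout k i hk).2.2]
            simp
        have hab := abel s (C₁ * κ) hs (by positivity) N
          (fun k => -(v i k * α' ((k : ℤ) - K, i)))
          (fun k => e' ((k : ℤ) - K, i) - v i k * b' ((k : ℤ) - K, i)) z
          (lp s (-(K : ℤ), i)) ?_ ?_ ?_
        · have e1 : ∑ k ∈ range N, F ((k : ℤ) - K, i) =
              ∑ k ∈ range N, (-(v i k * α' ((k : ℤ) - K, i)) *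
                phiK s z (lp s (-(K : ℤ), i) + k * s) +
                (e' ((k : ℤ) - K, i) - v i k * b' ((k : ℤ) - K, i)) *
                  psiK s z (lp s (-(K : ℤ), i) + k * s)) := by
            apply Finset.sum_congr rfl
            intro k _
            rw [hF, hwv, r4_lp]
          have e2 : ∑ k ∈ range N, wt (3 * s) (z - lp s ((k : ℤ) - K, i)) =
              ∑ k ∈ range N, wt (3 * s) (z - (lp s (-(K : ℤ), i) + k * s)) := by
            apply Finset.sum_congr rfl
            intro k _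
            rw [r4_lp]
          rw [e1, e2]
          exact hab
        · rw [Finset.sum_neg_distrib, hA N hN, neg_zero]
        · intro m _
          rw [Finset.sum_neg_distrib, norm_neg]
          rcases le_total m (2 * K + 1) with h | h
          · exact hv4 i m h
          · rw [hA m h, norm_zero]
            positivity
        · intro m _
          have e3 : ∑ k ∈ range m, (e' ((k : ℤ) - K, i) - v i k * b' ((k : ℤ) - K, i)
              - s * ∑ l ∈ range (k + 1), -(v i l * α' ((l : ℤ) - K, i))) =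
              ∑ k ∈ range m, (e' ((k : ℤ) - K, i) - v i k * b' ((k : ℤ) - K, i)
              + s * ∑ l ∈ range (k + 1), v i l * α' ((l : ℤ) - K, i)) := by
            apply Finset.sum_congr rfl
            intro k _
            rw [Finset.sum_neg_distrib]
            ring
          rw [e3]
          rcases le_total m (2 * K + 1) with h | h
          · exact hv5 i m h
          · rw [hB m h]
            exact hv5 i _ le_rfl
      refine (Finset.sum_le_sum hrow).trans ?_
      rw [← Finset.mul_sum, Finset.sum_add_distrib, ← Finset.mul_sum]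
      apply mul_le_mul_of_nonneg_left _ (by positivity)
      apply add_le_add_left
      have e4 : ∑ i ∈ Icc (-(K : ℤ)) K, ∑ k ∈ range N, wt (3 * s) (z - lp s ((k : ℤ) - K, i)) =
          ∑ j ∈ (Icc (-(K : ℤ)) K ×ˢ range N).map (r4_emb K), wt (3 * s) (z - lp s j) := by
        rw [Finset.sum_map, Finset.sum_product]
        rfl
      rw [e4]
      have e5 : ∀ j : ℤ × ℤ, wt (3 * s) (z - lp s j) ≤ 27 / 8 * wt (2 * s) (z - lp s j) := by
        intro j
        have h := wt_scale (R := 2 * s) (t := 3 / 2) (by positivity) (by norm_num) (z - lp s j)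
        have h2 : (3 / 2 : ℝ) * (2 * s) = 3 * s := by ring
        rw [h2] at h
        norm_num at h ⊢
        exact h
      refine (Finset.sum_le_sum fun j _ => e5 j).trans ?_
      rw [← Finset.mul_sum]
      exact mul_le_mul_of_nonneg_left (lat s hs z _) (by norm_num)
    have hlim : Tendsto (fun N : ℕ => C₂ * (C₁ * κ) * (27 / 8 * C₀ + s ^ 2 *
        ∑ i ∈ Icc (-(K : ℤ)) K, ‖psiK s z (lp s (-(K : ℤ), i) + N * s)‖)) atTop
        (𝓝 (C₂ * (C₁ * κ) * (27 / 8 * C₀ + s ^ 2 * 0))) := by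
      apply Tendsto.const_mul
      apply Tendsto.const_add
      apply Tendsto.const_mul
      have := tendsto_finsetSum (Icc (-(K : ℤ)) K)
        (fun i _ => r4_psiK_tendsto hs z (lp s (-(K : ℤ), i)))
      simpa using this
    have hfin := ge_of_tendsto hlim (eventually_atTop.2 ⟨2 * K + 1, fun N hN => key N hN⟩)
    refine hfin.trans ?_
    have : 0 ≤ C₁ * κ := by positivity
    nlinarith [this]

end Pool.Agent.SV
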