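import Pool.Agent.Helper53.ST.B1
import Pool.Agent.Helper53.ST.R4
import Pool.Agent.Helper53.AC.B5
import Pool.Agent.Helper53.AC.B8a
import Pool.Agent.Helper53.AC.L2b
import Pool.Agent.Helper53.SV.D6
import Pool.Agent.Helper53.SV.D9
import Pool.Agent.Helper53.SV.D14

/-!
# ST-B2: the backward theorem (adapt the proof of `back_main` in AC/B8.lean)

PROOF. Same structure as AC/B8.lean with `Fam.rho lam` instead of `rhoC`; for every `c` use
`back_cell2` (with `x = lp s (j c)`) instead of `back_cell`. Fix the colour `i` and `F`;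
`T = {c | grp c = i}`. The cells of the colour `i` have different lattice indices (`Fam.inj`), so
the data `α c, b c, e c` (`c ∈ T`) are functions of the lattice index `j ∈ T.image Fam.j`;
`lattice_control` with `κ = C₁ lam` gives `v` with `‖v‖ ≤ C C₁ lam`, `∑_{c∈T} v c α c = 0` and
`‖∑_{c∈T} (-(v α) phiK + (e - v b) psiK)‖ ≤ C C₁ lam` for all `z`. Put `Hf = ∑_{c∈T} (u + v) G`.
At the points `z` with `h/2 ≤ ‖z - gp k h y‖` for all grid points `y`, `F z` is the sum of the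
parts, and `‖F z - Hf z‖ ≤ ∑_{c∈T} C (lam + ‖v c‖) wt (3 s) (z - x c) + C C₁ lam ≤ C' lam`
(`lattice_sum` with `wt_scale`), so `‖Hf z‖ ≤ 1 + C' lam`. For the other points use `equi` as in
AC/B8.lean (this costs `η`). The coefficient: `a = ∑ pA = ∑_{c∈T} u c α c = ∑_{c∈T} (u + v) α`.
The answer is `u + v` on `T` and `0` off `T`.
-/

set_option autoImplicit false

open Complex Filter Topology Metric
open scoped ComplexConjugate

namespace Pool.Agent.SV

open Pool.Agent.Helper53.CAC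

private theorem b2s_rho_cont {m : ℕ} (Fam : SFam m) (lam : ℝ) (c : Fin Fam.k) :
    Continuous (Fam.rho lam c) :=
  continuous_const.mul (blob_cont _ _)

private theorem b2s_rho_nonneg {m : ℕ} (Fam : SFam m) {lam : ℝ} (hlam : 0 < lam)
    (c : Fin Fam.k) (ζ : ℂ) : 0 ≤ Fam.rho lam c ζ :=
  mul_nonneg (mul_pos hlam (Fam.α_pos c)).le (blob_nonneg _ _ _)

private theorem b2s_rho_compact {m : ℕ} (Fam : SFam m) (lam : ℝ) (c : Fin Fam.k) :
    HasCompactSupport (Fam.rho lam c) :=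
  (blob_compact _ (by have := Fam.s_pos; positivity)).mul_left

private theorem b2s_radius {k : ℕ} (ρ : Fin k → ℂ → ℝ) (hρs : ∀ c, HasCompactSupport (ρ c)) :
    ∃ w : ℂ, ∀ c z, 0 < ρ c z → 1 ≤ ‖w - z‖ := by
  have h1 : IsCompact (⋃ c, tsupport (ρ c)) := isCompact_iUnion (fun c => hρs c)
  obtain ⟨C, hC⟩ := h1.isBounded.exists_norm_le
  refine ⟨((|C| + 1 : ℝ) : ℂ), ?_⟩
  intro c z hz
  have h2 : z ∈ ⋃ c, tsupport (ρ c) :=
    Set.mem_iUnion.2 ⟨c, subset_tsupport _ (Function.mem_support.2 (ne_of_gt hz))⟩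
  have h3 := hC z h2
  have h4 : ‖((|C| + 1 : ℝ) : ℂ)‖ = |C| + 1 := by
    rw [Complex.norm_real, Real.norm_of_nonneg (by positivity)]
  have h5 := norm_sub_norm_le ((|C| + 1 : ℝ) : ℂ) z
  rw [h4] at h5
  linarith [le_abs_self C]

/-- every point is near a point which is far from the grid -/
private theorem b2s_line (k : ℕ) {h : ℝ} (hh : 0 < h) (z : ℂ) :
    ∃ z' : ℂ, ‖z - z'‖ ≤ h ∧ ∀ x : Fin k × ℤ × ℤ, h / 2 ≤ ‖z' - gp k h x‖ := by
  set n : ℤ := ⌊z.im / h⌋ with hn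
  have h1 : (n : ℝ) ≤ z.im / h := Int.floor_le _
  have h2 : z.im / h < n + 1 := Int.lt_floor_add_one _
  rw [le_div_iff₀ hh] at h1
  rw [div_lt_iff₀ hh] at h2
  refine ⟨⟨z.re, h * (n + 1 / 2)⟩, ?_, ?_⟩
  · have h3 : z - ⟨z.re, h * (n + 1 / 2)⟩ = ((z.im - h * (n + 1 / 2) : ℝ) : ℂ) * I := by
      apply Complex.ext <;> simp
    rw [h3, norm_mul, Complex.norm_I, mul_one, Complex.norm_real, Real.norm_eq_abs, abs_le]
    constructor <;> nlinarith
  · intro x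
    have h4 := Complex.abs_im_le_norm ((⟨z.re, h * (n + 1 / 2)⟩ : ℂ) - gp k h x)
    have h5 : ((⟨z.re, h * (n + 1 / 2)⟩ : ℂ) - gp k h x).im
        = h * (((n - x.2.2 : ℤ) : ℝ) + 1 / 2) := by
      rw [Complex.sub_im]
      show h * ((n : ℝ) + 1 / 2) - h * (x.2.2 : ℝ) = _
      push_cast
      ring
    rw [h5, abs_mul, abs_of_pos hh] at h4
    refine le_trans ?_ h4
    have h6 : (1 : ℝ) / 2 ≤ |((n - x.2.2 : ℤ) : ℝ) + 1 / 2| := by
      rcases le_or_gt 0 (n - x.2.2) with h7 | h7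
      · have h8 : (0 : ℝ) ≤ ((n - x.2.2 : ℤ) : ℝ) := by exact_mod_cast h7
        rw [abs_of_nonneg (by linarith)]
        linarith
      · have h8 : ((n - x.2.2 : ℤ) : ℝ) ≤ -1 := by
          have : n - x.2.2 ≤ -1 := by omega
          exact_mod_cast this
        rw [abs_of_nonpos (by linarith)]
        linarith
    calc h / 2 = h * (1 / 2) := by ring
      _ ≤ _ := mul_le_mul_of_nonneg_left h6 hh.le

theorem back_main2 : ∃ C : ℝ, 0 < C ∧ ∀ (m : ℕ) (Fam : SFam m), 0 < Fam.k →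
    ∀ (lam η : ℝ), 0 < lam → 0 < η → ∀ᶠ h : ℝ in 𝓝[>] 0, ∀ (i : Fin m) (F : ℂ → ℂ) (a : ℂ),
      DifferentiableOn ℂ F (grpDom Fam.k m (Fam.rho lam) Fam.grp i h) →
      (∀ z ∈ grpDom Fam.k m (Fam.rho lam) Fam.grp i h, ‖F z‖ ≤ 1) →
      Tendsto F (cocompact ℂ) (𝓝 0) → Tendsto (fun z => z * F z) (cocompact ℂ) (𝓝 a) →
      ∃ u : Fin Fam.k → ℂ, (∀ c, ‖u c‖ ≤ C * lam) ∧
        (∀ z, ‖∑ c with Fam.grp c = i, u c * Fam.G c z‖ ≤ 1 + C * lam + η) ∧
        a = ∑ c with Fam.grp c = i, u c * Fam.α c := by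
  classical
  obtain ⟨C₁, hC₁, hcell0⟩ := back_cell2
  obtain ⟨C₂, hC₂, hlat⟩ := lattice_control
  obtain ⟨C₀, hC₀, hls⟩ := lattice_sum
  refine ⟨C₁ + C₂ * C₁ + (C₁ * (1 + C₂ * C₁) * (27 / 8 * C₀) + C₂ * C₁), by positivity, ?_⟩
  intro m Fam hk lam η hlam hη
  have hk1 : (1 : ℝ) ≤ (Fam.k : ℝ) := by exact_mod_cast hk
  have hs := Fam.s_pos
  set ρ : Fin Fam.k → ℂ → ℝ := Fam.rho lam with hρdef
  have hα : ∀ j, 0 < Fam.α j := Fam.α_pos
  have hρc : ∀ j, Continuous (ρ j) := fun j => b2s_rho_cont Fam lam j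
  have hρ0 : ∀ j z, 0 ≤ ρ j z := fun j z => b2s_rho_nonneg Fam hlam j z
  have hρs : ∀ j, HasCompactSupport (ρ j) := fun j => b2s_rho_compact Fam lam j
  obtain ⟨w, hw⟩ := b2s_radius ρ hρs
  obtain ⟨A, B, C₃, -, hdil⟩ := grid_dil Fam.k hk (fun j z => 64 * ρ j z)
    (fun j => continuous_const.mul (hρc j)) (fun j z => mul_nonneg (by norm_num) (hρ0 j z))
    (fun j => (hρs j).mul_left) w (fun j z hz => hw j z (by linarith))
  have hcell : ∀ᶠ h : ℝ in 𝓝[>] 0, ∀ j : Fin Fam.k, ∀ J : Finset (Fin Fam.k × ℤ × ℤ),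
      (∀ y ∈ J, y.1 = j ∧ 0 < ρ j (gp Fam.k h y)) → ∀ F : ℂ → ℂ,
      (∀ y ∈ J, ContinuousOn F (sphere (gp Fam.k h y) (64 * (ρ j (gp Fam.k h y) * h ^ 2)))) →
      (∀ y ∈ J, ∀ z ∈ sphere (gp Fam.k h y) (64 * (ρ j (gp Fam.k h y) * h ^ 2)),
        ‖F z‖ ≤ 1) →
      ∃ u e : ℂ, ‖u‖ ≤ C₁ * lam ∧ ‖e‖ ≤ C₁ * lam * Fam.s * Fam.α j ∧
        ∑ y ∈ J, pA F (gp Fam.k h y) (64 * (ρ j (gp Fam.k h y) * h ^ 2)) = u * Fam.α j ∧
        ∀ v z : ℂ, (∀ y ∈ J, h / 2 ≤ ‖z - gp Fam.k h y‖) →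
          ‖∑ y ∈ J, part F (gp Fam.k h y) (64 * (ρ j (gp Fam.k h y) * h ^ 2)) z
            - (u + v) * Fam.G j z - (-(v * Fam.α j) * phiK Fam.s z (lp Fam.s (Fam.j j))
              + (e - v * Fam.b j) * psiK Fam.s z (lp Fam.s (Fam.j j)))‖
              ≤ C₁ * (lam + ‖v‖) * wt (3 * Fam.s) (z - lp Fam.s (Fam.j j)) := by
    rw [Filter.eventually_all]
    intro j
    exact hcell0 Fam.k hk j (Fam.P j) (lp Fam.s (Fam.j j)) Fam.s (Fam.α j) (Fam.b j) (Fam.G j)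
      lam hs (hα j) (Fam.α_le j) (Fam.compact j) (Fam.sub j) (Fam.hG j) (Fam.hGb j) (Fam.hb j)
      hlam
  have hEG := equi (G := Fam.G) (fun j => (Fam.hG j).cont)
    (fun j => (Fam.hG j).coef.zero) (L := (C₁ + C₂ * C₁) * lam) hη
  filter_upwards [hdil, hcell, hEG, self_mem_nhdsWithin] with h hI hB hG hh0 i F a hFd hFb
    hF0 hFa
  have hh : 0 < h := hh0
  obtain ⟨I, hI, hD⟩ := hI
  have hr : ∀ x ∈ I, 128 * (64 * (ρ x.1 (gp Fam.k h x) * h ^ 2)) ≤ h / Fam.k := by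
    intro x hx
    have h1 := d6_rad hD hx
    have h2 : gr Fam.k (fun j z => 64 * ρ j z) h x = 64 * (ρ x.1 (gp Fam.k h x) * h ^ 2) := by
      unfold gr; ring
    rwa [h2] at h1
  have hδ : h / Fam.k ≤ h := div_le_self hh.le hk1
  have hpos : ∀ x ∈ I, 0 < ρ x.1 (gp Fam.k h x) * h ^ 2 := by
    intro x hx
    have h1 := (hI x).1 hx
    have h2 : 0 < ρ x.1 (gp Fam.k h x) := by linarith
    positivity
  have hmem : ∀ x, 0 < ρ x.1 (gp Fam.k h x) → x ∈ I := by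
    intro x hx
    exact (hI x).2 (by positivity)
  set J : Finset (Fin Fam.k × ℤ × ℤ) := I.filter (fun x => Fam.grp x.1 = i) with hJdef
  have hJI : J ⊆ I := Finset.filter_subset _ _
  obtain ⟨c, hcp, hcr, -, -⟩ := dil_config hD hJI
  have hcr' : ∀ q, c.r q = 64 * (ρ (enum J q).1 (gp Fam.k h (enum J q)) * h ^ 2) := by
    intro q
    rw [hcr]
    simp only [Function.comp_apply]
    unfold gr; ring
  have hcp' : ∀ q, c.p q = gp Fam.k h (enum J q) := by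
    intro q
    rw [hcp]
    rfl
  -- the closed domain is contained in `grpDom`
  have hdom : ∀ z : ℂ, (∀ x ∈ J, 64 * (ρ x.1 (gp Fam.k h x) * h ^ 2) ≤ ‖z - gp Fam.k h x‖) →
      z ∈ grpDom Fam.k m ρ Fam.grp i h := by
    intro z hz x hxi hx
    have h1 : x ∈ I := hmem x hx
    have h2 := hz x (Finset.mem_filter.2 ⟨h1, hxi⟩)
    have h3 := hpos x h1
    have h4 : gr Fam.k ρ h x = ρ x.1 (gp Fam.k h x) * h ^ 2 := rfl
    rw [h4]
    linarith
  have hOmc : Omc c ⊆ grpDom Fam.k m ρ Fam.grp i h := by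
    intro z hz
    refine hdom z fun x hx => ?_
    have h1 := hz (J.equivFin ⟨x, hx⟩)
    have h2 : enum J (J.equivFin ⟨x, hx⟩) = x := by
      unfold enum
      rw [Equiv.symm_apply_apply]
    rw [hcr', hcp', h2] at h1
    exact h1
  have hOm : Om c ⊆ Omc c := fun z hz q => (hz q).le
  have hReg : Reg c F 0 :=
    ⟨hFd.mono (hOm.trans hOmc), hFd.continuousOn.mono hOmc, hF0⟩
  obtain ⟨hsplit, ha⟩ := split_parts c hReg hFa
  have hsplit' : ∀ z, (∀ x ∈ J, 64 * (ρ x.1 (gp Fam.k h x) * h ^ 2) < ‖z - gp Fam.k h x‖) →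
      F z = ∑ x ∈ J, part F (gp Fam.k h x) (64 * (ρ x.1 (gp Fam.k h x) * h ^ 2)) z := by
    intro z hz
    rw [hsplit z (fun q => by rw [hcr', hcp']; exact hz _ (d6_enum_mem J q)),
      ← d6_enum_sum J (fun x => part F (gp Fam.k h x) (64 * (ρ x.1 (gp Fam.k h x) * h ^ 2)) z)]
    refine Finset.sum_congr rfl fun q _ => ?_
    rw [hcr', hcp']
  have ha' : a = ∑ x ∈ J, pA F (gp Fam.k h x) (64 * (ρ x.1 (gp Fam.k h x) * h ^ 2)) := by
    rw [ha, ← d6_enum_sum J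
      (fun x => pA F (gp Fam.k h x) (64 * (ρ x.1 (gp Fam.k h x) * h ^ 2)))]
    refine Finset.sum_congr rfl fun q _ => ?_
    rw [hcr', hcp']
  -- spheres are contained in the domain
  have hsph : ∀ y ∈ J, sphere (gp Fam.k h y) (64 * (ρ y.1 (gp Fam.k h y) * h ^ 2)) ⊆
      grpDom Fam.k m ρ Fam.grp i h := by
    intro y hy z hz
    refine hdom z fun x hx => ?_
    rw [mem_sphere_iff_norm] at hz
    by_cases hxy : x = y
    · rw [hxy, hz]
    · have h1 := hD.sep x (hJI hx) y (hJI hy) hxy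
      have h2 := hr x (hJI hx)
      have h3 := hr y (hJI hy)
      have h4 := hpos x (hJI hx)
      have h5 := hpos y (hJI hy)
      have h6 : ‖gp Fam.k h x - gp Fam.k h y‖ ≤ ‖z - gp Fam.k h y‖ + ‖z - gp Fam.k h x‖ := by
        have : gp Fam.k h x - gp Fam.k h y = (z - gp Fam.k h y) - (z - gp Fam.k h x) := by ring
        rw [this]
        exact norm_sub_le _ _
      linarith
  -- the cells
  set T : Finset (Fin Fam.k) := Finset.univ.filter (fun j => Fam.grp j = i) with hTdef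
  have hfib : ∀ f : Fin Fam.k × ℤ × ℤ → ℂ,
      ∑ j ∈ T, ∑ x ∈ J with x.1 = j, f x = ∑ x ∈ J, f x := fun f =>
    Finset.sum_fiberwise_of_maps_to (s := J) (t := T) (g := fun x => x.1) (fun x hx =>
      Finset.mem_filter.2 ⟨Finset.mem_univ _, (Finset.mem_filter.1 hx).2⟩) f
  have hB' : ∀ j : Fin Fam.k, ∃ u e : ℂ, ‖u‖ ≤ C₁ * lam ∧ ‖e‖ ≤ C₁ * lam * Fam.s * Fam.α j ∧
      ∑ y ∈ J with y.1 = j, pA F (gp Fam.k h y) (64 * (ρ y.1 (gp Fam.k h y) * h ^ 2))
        = u * Fam.α j ∧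
      ∀ v z : ℂ, (∀ y ∈ J, h / 2 ≤ ‖z - gp Fam.k h y‖) →
        ‖∑ y ∈ J with y.1 = j, part F (gp Fam.k h y) (64 * (ρ y.1 (gp Fam.k h y) * h ^ 2)) z
          - (u + v) * Fam.G j z - (-(v * Fam.α j) * phiK Fam.s z (lp Fam.s (Fam.j j))
              + (e - v * Fam.b j) * psiK Fam.s z (lp Fam.s (Fam.j j)))‖
            ≤ C₁ * (lam + ‖v‖) * wt (3 * Fam.s) (z - lp Fam.s (Fam.j j)) := by
    intro j
    have hj : ∀ y ∈ J.filter (fun y => y.1 = j), y ∈ J ∧ y.1 = j := fun y hy =>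
      Finset.mem_filter.1 hy
    obtain ⟨u, v, hu, hv, hs, hp⟩ := hB j (J.filter (fun y => y.1 = j))
      (fun y hy => by
        obtain ⟨h1, h2⟩ := hj y hy
        refine ⟨h2, ?_⟩
        rw [← h2]
        have h3 := hpos y (hJI h1)
        exact (pos_iff_pos_of_mul_pos h3).2 (by positivity)) F
      (fun y hy => by
        obtain ⟨h1, h2⟩ := hj y hy
        rw [← h2]
        exact hFd.continuousOn.mono (hsph y h1))
      (fun y hy z hz => by
        obtain ⟨h1, h2⟩ := hj y hy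
        rw [← h2] at hz
        exact hFb z (hsph y h1 hz))
    refine ⟨u, v, hu, hv, ?_, ?_⟩
    · rw [← hs]
      refine Finset.sum_congr rfl fun y hy => ?_
      rw [(hj y hy).2]
    · intro v' z hz
      have h1 := hp v' z (fun y hy => hz y (hj y hy).1)
      have h2 : ∑ y ∈ J with y.1 = j,
            part F (gp Fam.k h y) (64 * (ρ y.1 (gp Fam.k h y) * h ^ 2)) z
          = ∑ y ∈ J with y.1 = j,
            part F (gp Fam.k h y) (64 * (ρ j (gp Fam.k h y) * h ^ 2)) z := by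
        refine Finset.sum_congr rfl fun y hy => ?_
        rw [(hj y hy).2]
      rw [h2]
      exact h1
  choose u e hu he hsum hp using hB'
  -- the lattice
  have hinj : Set.InjOn Fam.j (T : Set (Fin Fam.k)) := by
    intro c₁ h1 c₂ h2 h12
    have h3 : Fam.grp c₁ = i := (Finset.mem_filter.1 h1).2
    have h4 : Fam.grp c₂ = i := (Finset.mem_filter.1 h2).2
    exact Fam.inj c₁ c₂ (h3.trans h4.symm) h12
  have : Nonempty (Fin Fam.k) := ⟨⟨0, hk⟩⟩
  set cc : ℤ × ℤ → Fin Fam.k := Function.invFunOn Fam.j (T : Set (Fin Fam.k)) with hcc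
  have hccj : ∀ c ∈ T, cc (Fam.j c) = c := fun c hc =>
    hinj.leftInvOn_invFunOn (Finset.mem_coe.2 hc)
  have hsumT : ∀ f : ℤ × ℤ → ℂ, ∑ j ∈ T.image Fam.j, f j = ∑ c ∈ T, f (Fam.j c) := fun f =>
    Finset.sum_image hinj
  obtain ⟨v, hv, hv0, hvb⟩ := hlat Fam.s (C₁ * lam) hs (by positivity) (T.image Fam.j)
    (fun j => Fam.α (cc j)) (fun j => Fam.b (cc j)) (fun j => e (cc j))
    (fun j _ => (hα _).le) (fun j _ => Fam.α_le _) (fun j _ => Fam.hb _) (fun j _ => he _)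
  have hv0' : ∑ c ∈ T, v (Fam.j c) * (Fam.α c : ℂ) = 0 := by
    rw [hsumT] at hv0
    rw [← hv0]
    refine Finset.sum_congr rfl fun c hc => ?_
    rw [hccj c hc]
  have hvb' : ∀ z : ℂ, ‖∑ c ∈ T, (-(v (Fam.j c) * Fam.α c) * phiK Fam.s z (lp Fam.s (Fam.j c))
        + (e c - v (Fam.j c) * Fam.b c) * psiK Fam.s z (lp Fam.s (Fam.j c)))‖
        ≤ C₂ * (C₁ * lam) := by
    intro z
    have h1 := hvb z
    rw [hsumT] at h1
    refine le_trans (le_of_eq ?_) h1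
    congr 1
    refine Finset.sum_congr rfl fun c hc => ?_
    rw [hccj c hc]
  -- the comparison function
  set Hf : ℂ → ℂ := fun z => ∑ j ∈ T, (u j + v (Fam.j j)) * Fam.G j z with hHf
  have hwt : ∀ z : ℂ, ∑ c ∈ T, wt (3 * Fam.s) (z - lp Fam.s (Fam.j c)) ≤ 27 / 8 * C₀ := by
    intro z
    have h1 : ∑ j ∈ T.image Fam.j, wt (2 * Fam.s) (z - lp Fam.s j)
        = ∑ c ∈ T, wt (2 * Fam.s) (z - lp Fam.s (Fam.j c)) := Finset.sum_image hinj
    have h2 := hls Fam.s hs z (T.image Fam.j)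
    rw [h1] at h2
    calc ∑ c ∈ T, wt (3 * Fam.s) (z - lp Fam.s (Fam.j c))
        ≤ ∑ c ∈ T, (27 / 8) * wt (2 * Fam.s) (z - lp Fam.s (Fam.j c)) := by
          refine Finset.sum_le_sum fun c _ => ?_
          have h3 := wt_scale (R := 2 * Fam.s) (t := 3 / 2) (by positivity) (by norm_num)
            (z - lp Fam.s (Fam.j c))
          rw [show (3 / 2 : ℝ) * (2 * Fam.s) = 3 * Fam.s by ring] at h3
          refine h3.trans (le_of_eq ?_)
          norm_num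
      _ = 27 / 8 * ∑ c ∈ T, wt (2 * Fam.s) (z - lp Fam.s (Fam.j c)) := by rw [Finset.mul_sum]
      _ ≤ 27 / 8 * C₀ := mul_le_mul_of_nonneg_left h2 (by norm_num)
  -- the bound
  have hgood : ∀ z, (∀ x : Fin Fam.k × ℤ × ℤ, h / 2 ≤ ‖z - gp Fam.k h x‖) →
      ‖Hf z‖ ≤ 1 + (C₁ * (1 + C₂ * C₁) * (27 / 8 * C₀) + C₂ * C₁) * lam := by
    intro z hz
    have h1 : ∀ x ∈ J, 64 * (ρ x.1 (gp Fam.k h x) * h ^ 2) < ‖z - gp Fam.k h x‖ := by
      intro x hx
      have h2 := hr x (hJI hx)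
      have h3 := hz x
      linarith
    have h2 : ‖F z‖ ≤ 1 := hFb z (hdom z fun x hx => (h1 x hx).le)
    have h3 : F z - Hf z = ∑ j ∈ T,
        (∑ y ∈ J with y.1 = j, part F (gp Fam.k h y) (64 * (ρ y.1 (gp Fam.k h y) * h ^ 2)) z
          - (u j + v (Fam.j j)) * Fam.G j z
          - (-(v (Fam.j j) * Fam.α j) * phiK Fam.s z (lp Fam.s (Fam.j j))
              + (e j - v (Fam.j j) * Fam.b j) * psiK Fam.s z (lp Fam.s (Fam.j j))))
        + ∑ c ∈ T, (-(v (Fam.j c) * Fam.α c) * phiK Fam.s z (lp Fam.s (Fam.j c))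
        + (e c - v (Fam.j c) * Fam.b c) * psiK Fam.s z (lp Fam.s (Fam.j c))) := by
      rw [Finset.sum_sub_distrib, Finset.sum_sub_distrib, hfib, ← hsplit' z h1]
      ring
    have h4 : ‖∑ j ∈ T,
        (∑ y ∈ J with y.1 = j, part F (gp Fam.k h y) (64 * (ρ y.1 (gp Fam.k h y) * h ^ 2)) z
          - (u j + v (Fam.j j)) * Fam.G j z
          - (-(v (Fam.j j) * Fam.α j) * phiK Fam.s z (lp Fam.s (Fam.j j))
              + (e j - v (Fam.j j) * Fam.b j) * psiK Fam.s z (lp Fam.s (Fam.j j))))‖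
        ≤ ∑ j ∈ T, C₁ * (1 + C₂ * C₁) * lam * wt (3 * Fam.s) (z - lp Fam.s (Fam.j j)) := by
      refine norm_sum_le_of_le _ fun j _ => ?_
      refine (hp j (v (Fam.j j)) z fun y _ => hz y).trans ?_
      refine mul_le_mul_of_nonneg_right ?_ (wt_nonneg (by positivity) _)
      have h5 := hv (Fam.j j)
      calc C₁ * (lam + ‖v (Fam.j j)‖) ≤ C₁ * (lam + C₂ * (C₁ * lam)) :=
            mul_le_mul_of_nonneg_left (by linarith) hC₁.le
        _ = C₁ * (1 + C₂ * C₁) * lam := by ring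
    rw [← Finset.mul_sum] at h4
    have h5 := mul_le_mul_of_nonneg_left (hwt z)
      (by positivity : 0 ≤ C₁ * (1 + C₂ * C₁) * lam)
    have h6 : Hf z = F z - (F z - Hf z) := by ring
    have h7 : ‖F z - Hf z‖ ≤ C₁ * (1 + C₂ * C₁) * lam * (27 / 8 * C₀) + C₂ * (C₁ * lam) := by
      rw [h3]
      exact (norm_add_le _ _).trans (add_le_add (h4.trans h5) (hvb' z))
    rw [h6]
    refine (norm_sub_le _ _).trans ?_
    calc ‖F z‖ + ‖F z - Hf z‖
        ≤ 1 + (C₁ * (1 + C₂ * C₁) * lam * (27 / 8 * C₀) + C₂ * (C₁ * lam)) :=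
          add_le_add h2 h7
      _ = _ := by ring
  set u' : Fin Fam.k → ℂ := fun j => if Fam.grp j = i then u j + v (Fam.j j) else 0 with hu'
  have hu'b : ∀ j, ‖u' j‖ ≤ (C₁ + C₂ * C₁) * lam := by
    intro j
    simp only [hu']
    split_ifs
    · have h1 := norm_add_le (u j) (v (Fam.j j))
      have h2 := hu j
      have h3 := hv (Fam.j j)
      calc ‖u j + v (Fam.j j)‖ ≤ C₁ * lam + C₂ * (C₁ * lam) := by linarith
        _ = _ := by ring
    · rw [norm_zero]; positivity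
  have hHf' : ∀ y, ∑ j, u' j * Fam.G j y = Hf y := by
    intro y
    simp only [hHf, hTdef, Finset.sum_filter, hu']
    refine Finset.sum_congr rfl fun j _ => ?_
    split_ifs
    · rfl
    · simp
  have hHf2 : ∀ y, ∑ c with Fam.grp c = i, u' c * Fam.G c y = Hf y := by
    intro y
    simp only [hHf, hTdef]
    refine Finset.sum_congr rfl fun j hj => ?_
    simp only [hu', if_pos (Finset.mem_filter.1 hj).2]
  refine ⟨u', fun c => ?_, fun z => ?_, ?_⟩
  · refine (hu'b c).trans ?_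
    refine mul_le_mul_of_nonneg_right ?_ hlam.le
    have : 0 ≤ C₁ * (1 + C₂ * C₁) * (27 / 8 * C₀) + C₂ * C₁ := by positivity
    linarith
  · rw [hHf2]
    obtain ⟨z', hzz', hz'⟩ := b2s_line Fam.k hh z
    have h1 := hgood z' hz'
    have h2 := hG u' hu'b z z' hzz'
    rw [hHf', hHf'] at h2
    have h4 : Hf z = Hf z' + (Hf z - Hf z') := by ring
    rw [h4]
    refine (norm_add_le _ _).trans ?_
    have h5 : 0 ≤ (C₁ + C₂ * C₁) * lam := by positivity
    nlinarith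
  · have h1 : ∑ c with Fam.grp c = i, u' c * (Fam.α c : ℂ)
        = ∑ c ∈ T, u c * (Fam.α c : ℂ) + ∑ c ∈ T, v (Fam.j c) * (Fam.α c : ℂ) := by
      rw [← Finset.sum_add_distrib]
      refine Finset.sum_congr rfl fun j hj => ?_
      simp only [hu', if_pos (Finset.mem_filter.1 hj).2]
      ring
    rw [h1, hv0', add_zero, ha', ← hfib]
    exact Finset.sum_congr rfl fun j _ => hsum j

end Pool.Agent.SV
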