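import Pool.Agent.Helper53.AC.Defs

/-!
# Definitions for the step theorem and the induction on scales

Overview of the proof of `alpha (E₁ ∪ E₂) ≤ alpha E₁ + alpha E₂` for all compact sets: see the
file ST/Plan.md (team-store helper53_ST_plan.md).
-/

set_option autoImplicit false

open Complex Filter Topology Metric
open scoped ComplexConjugate

namespace Pool.Agent.SV

/-- cut off kernel `1 / (z - x)` -/
noncomputable def phiK (s : ℝ) (z x : ℂ) : ℂ := if 6 * s < ‖z - x‖ then 1 / (z - x) else 0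

/-- cut off kernel `1 / (z - x) ^ 2` -/
noncomputable def psiK (s : ℝ) (z x : ℂ) : ℂ := if 6 * s < ‖z - x‖ then 1 / (z - x) ^ 2 else 0

/-- the complex density of a cell with lattice point `x` at scale `s`, with first moment data
`A`, `B` -/
noncomputable def gD (s : ℝ) (x A B ζ : ℂ) : ℂ :=
  Real.pi * (A + 160 / 3 * B * conj (ζ - x) / (s : ℂ) ^ 2) * (blob x (s / 4) ζ : ℂ)

/-- A finite family of cells at scale `s`, coloured by `Fin m`; only first coefficients. -/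
structure SFam (m : ℕ) where
  /-- the number of cells -/
  k : ℕ
  /-- the scale -/
  s : ℝ
  /-- the compact sets -/
  P : Fin k → Set ℂ
  /-- the lattice index -/
  j : Fin k → ℤ × ℤ
  /-- the first coefficients -/
  α : Fin k → ℝ
  /-- the second coefficients about the lattice point -/
  b : Fin k → ℂ
  /-- the functions -/
  G : Fin k → ℂ → ℂ
  /-- the colour -/
  grp : Fin k → Fin m
  s_pos : 0 < s
  α_pos : ∀ c, 0 < α c
  α_le : ∀ c, α c ≤ 3 * s
  compact : ∀ c, IsCompact (P c)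
  sub : ∀ c, P c ⊆ closedBall (lp s (j c)) (3 * s)
  hG : ∀ c, AF (P c) (lp s (j c)) (G c) (α c) (b c)
  hGb : ∀ c z, ‖G c z‖ ≤ 1
  hb : ∀ c, ‖b c‖ ≤ 100 * s * α c
  inj : ∀ c c', grp c = grp c' → j c = j c' → c = c'

/-- the density of the radii of the cell `c` -/
noncomputable def SFam.rho {m : ℕ} (Fam : SFam m) (lam : ℝ) (c : Fin Fam.k) (ζ : ℂ) : ℝ :=
  lam * Fam.α c * blob (lp Fam.s (Fam.j c)) (Fam.s / 4) ζ

/-- `W` is a modulus of continuity of `h` -/
def Mod (W : ℝ → ℝ) (h : ℂ → ℂ) : Prop := ∀ z z' : ℂ, ‖h z - h z'‖ ≤ W ‖z - z'‖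

/-- the class of functions for the capacity with the modulus `W` -/
structure WCls (W : ℝ → ℝ) (P : Set ℂ) (x : ℂ) (h : ℂ → ℂ) (a b : ℂ) : Prop where
  af : AF P x h a b
  bound : ∀ z, ‖h z‖ ≤ 1
  mod : Mod W h

/-- the capacity with the modulus `W` -/
noncomputable def capW (W : ℝ → ℝ) (P : Set ℂ) : ℝ :=
  sSup {t : ℝ | t = 0 ∨ ∃ (x : ℂ) (h : ℂ → ℂ) (a b : ℂ), WCls W P x h a b ∧ t = ‖a‖}

/-- the moduli of the induction on scales -/
noncomputable def Wseq (Q : ℕ → ℝ) (k : ℕ) (t : ℝ) : ℝ :=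
  ∑' l : ℕ, (1 / 2 : ℝ) ^ l * min 2 (Q (k + l) * t)

/-- a localised piece: a function bounded by one, holomorphic off `E ∩ closedBall x (2 * r)`,
with the coefficients `a`, `b` at infinity about `x` -/
structure PieceAt (E : Set ℂ) (r : ℝ) (g : ℂ → ℂ) (x a b : ℂ) : Prop where
  af : AF (E ∩ closedBall x (2 * r)) x g a b
  bound : ∀ z, ‖g z‖ ≤ 1

/-- the piece `(g, x)` at scale `r` is decomposed into pieces of the finite set `S` at scale `s`,
with the factor `ω`; `J` is the set of the lattice indices -/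
def Refines (E : Set ℂ) (ω r s : ℝ) (S : Set ((ℂ → ℂ) × ℂ)) (n : ℕ) (g : ℂ → ℂ) (x : ℂ) : Prop :=
  ∃ (J : Finset (ℤ × ℤ)) (f : ℤ × ℤ → ℂ → ℂ) (A B : ℤ × ℤ → ℂ), J.card ≤ n ∧
    (∀ j ∈ J, PieceAt E s (f j) (lp s j) (A j) (B j)) ∧
    (∀ j ∈ J, closedBall (lp s j) (3 * s) ⊆ closedBall x (3 * r)) ∧
    (∀ j ∈ J, (f j, lp s j) ∈ S) ∧
    (∀ j ∈ J, (fun z => ((z - lp s j) * f j z - A j) / (4 * s), lp s j) ∈ S) ∧
    (∀ z, g z = ω * ∑ j ∈ J, f j z)

end Pool.Agent.SV
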