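import Pool.Agent.Helper53.ST.Defs
import Pool.Agent.Helper53.AC.B1
import Pool.Agent.Helper53.AC.B2
import Pool.Agent.Helper53.AC.C1
import Pool.Agent.Helper53.AC.C2
import Pool.Agent.Helper53.AC.C3
import Pool.Agent.Helper53.AC.L0

/-!
# ST-F1: one cell, forward

`gD_norm`: on the support of the blob `‖ζ - x‖ ≤ s / 4`, and `160 / 3 * (1 / 4) ≤ 14`.
`gD_int`: `∫ blob = 1` and `∫ conj (ζ - x) * blob = 0` (conjugate of `blob_first`).
`gD_first`: `∫ (ζ - x) blob = 0` and `∫ ‖ζ - x‖ ^ 2 blob x t = 3 t ^ 2 / 10` (polar coordinates, as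
in the proof of `blob_int`), for `t = s / 4` it is `3 s ^ 2 / 160`.
`fwd_cell2`: by `pot_AF` (with the factor `π⁻¹`) the potential is `AF (tsupport ..) x` with the
coefficients `A`, `B`, and `tsupport ⊆ closedBall x (2 s)`; the difference with `g` is
`AF (closedBall x (2 s)) x` with coefficients `0`, `0`. It is bounded by `C ω`:
`‖A‖ ≤ 2 s ω` (`AF.coef_le`, `alpha_toReal_le`), `‖B‖ ≤ 8 s ^ 2 ω` (`AF.second_le`), so
`‖gD‖ ≤ π * 114 s ω * blob`, `blob ≤ 16 / s ^ 2` (`blob_le`) on `closedBall x (s/4)` and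
`∫ 1/‖z - ζ‖ ≤ 2 π (s/4)` (`inv_ball_integral`). Then `cube_wt` (with `S = univ` or with the
complement of the ball).
-/

set_option autoImplicit false

open Complex Filter Topology Metric
open scoped ComplexConjugate

namespace Pool.Agent.SV

open Pool.Agent.Helper53.CAC

open MeasureTheory Set

private theorem f1_blobC_cont (x : ℂ) (t : ℝ) : Continuous (fun ζ => (blob x t ζ : ℂ)) :=
  Complex.continuous_ofReal.comp (blob_cont x t)

private theorem f1_blobC_compact (x : ℂ) {t : ℝ} (ht : 0 < t) :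
    HasCompactSupport (fun ζ => (blob x t ζ : ℂ)) :=
  (blob_compact x ht).comp_left (g := fun t : ℝ => (t : ℂ)) Complex.ofReal_zero

private theorem f1_blobC_int (p : ℂ) {t : ℝ} (ht : 0 < t) : ∫ ζ, (blob p t ζ : ℂ) = 1 := by
  rw [integral_complex_ofReal, blob_int p ht, Complex.ofReal_one]

private theorem f1_conj (x : ℂ) {t : ℝ} (ht : 0 < t) :
    ∫ ζ, (blob x t ζ : ℂ) * conj (ζ - x) = 0 := by
  have h : ∫ ζ, conj ((blob x t ζ : ℂ) * (ζ - x)) = 0 := by
    rw [integral_conj, blob_first x ht, map_zero]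
  rw [← h]
  refine integral_congr_ae (Eventually.of_forall fun ζ => ?_)
  simp only [map_mul, Complex.conj_ofReal]

private theorem f1_second (c : ℂ) {t : ℝ} (ht : 0 < t) :
    ∫ ζ, blob c t ζ * ‖ζ - c‖ ^ 2 = 3 * t ^ 2 / 10 := by
  have hpi := Real.pi_pos
  set F : ℝ → ℝ := fun y => 3 / (Real.pi * t ^ 2) * max 0 (1 - y / t) * y ^ 2 with hF
  have e1 : ∫ ζ, blob c t ζ * ‖ζ - c‖ ^ 2 = ∫ x : ℂ, F ‖x‖ :=
    integral_sub_right_eq_self (fun x : ℂ => F ‖x‖) c
  have e2 : EqOn (fun y : ℝ => y ^ (2 - 1) • F y)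
      ((Iic t).indicator (fun y => 3 / (Real.pi * t ^ 2) * (y ^ 3 - y ^ 4 / t))) (Ioi 0) := by
    intro y hy
    have hy' : (0 : ℝ) < y := hy
    simp only [Nat.add_one_sub_one, pow_one, smul_eq_mul, hF]
    by_cases h : y ∈ Iic t
    · rw [indicator_of_mem h]
      have h1 : 0 ≤ 1 - y / t := by
        rw [sub_nonneg, div_le_one ht]; exact h
      rw [max_eq_right h1]
      ring
    · rw [indicator_of_notMem h]
      have h1 : 1 - y / t ≤ 0 := by
        rw [sub_nonpos, one_le_div ht]; exact (not_le.1 h).le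
      rw [max_eq_left h1]
      ring
  have h2 : volume.real (ball (0 : ℂ) 1) = Real.pi := by
    rw [Measure.real, Complex.volume_ball]
    simp
  rw [e1, integral_fun_norm_addHaar volume (f := F), Complex.finrank_real_complex, h2,
    setIntegral_congr_fun measurableSet_Ioi e2, setIntegral_indicator measurableSet_Iic]
  have h1 : Ioi (0 : ℝ) ∩ Iic t = Ioc 0 t := rfl
  rw [h1, ← intervalIntegral.integral_of_le ht.le, intervalIntegral.integral_const_mul,
    intervalIntegral.integral_sub (Continuous.intervalIntegrable (by fun_prop) _ _)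
      (Continuous.intervalIntegrable (by fun_prop) _ _)]
  have h3 : ∫ x in (0 : ℝ)..t, x ^ 3 = t ^ 4 / 4 := by
    rw [integral_pow]
    norm_num
  have h4 : ∫ x in (0 : ℝ)..t, x ^ 4 / t = t ^ 4 / 5 := by
    rw [intervalIntegral.integral_div, integral_pow]
    field_simp
    norm_num
    ring
  rw [h3, h4]
  simp only [nsmul_eq_mul, smul_eq_mul]
  push_cast
  field_simp
  ring

theorem gD_cont (s : ℝ) (x A B : ℂ) : Continuous (gD s x A B) := by
  unfold gD
  have h := f1_blobC_cont x (s / 4)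
  have h2 : Continuous (fun ζ : ℂ => conj (ζ - x)) :=
    Complex.continuous_conj.comp (continuous_id.sub continuous_const)
  exact (continuous_const.mul (continuous_const.add
    ((continuous_const.mul h2).div_const _))).mul h

theorem gD_compact {s : ℝ} (hs : 0 < s) (x A B : ℂ) : HasCompactSupport (gD s x A B) := by
  unfold gD
  exact (f1_blobC_compact x (by positivity : (0 : ℝ) < s / 4)).mul_left

theorem gD_norm {s : ℝ} (hs : 0 < s) (x A B ζ : ℂ) :
    ‖gD s x A B ζ‖ ≤ Real.pi * (‖A‖ + 14 * ‖B‖ / s) * blob x (s / 4) ζ := by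
  have ht : (0 : ℝ) < s / 4 := by positivity
  have hpi := Real.pi_pos
  have hb := blob_nonneg x (s / 4) ζ
  unfold gD
  rw [norm_mul, norm_mul, Complex.norm_real, Complex.norm_real, Real.norm_eq_abs,
    Real.norm_eq_abs, abs_of_pos hpi, abs_of_nonneg hb]
  by_cases h : blob x (s / 4) ζ = 0
  · rw [h, mul_zero, mul_zero]
  · have h1 := (blob_supp x ht h).le
    apply mul_le_mul_of_nonneg_right _ hb
    apply mul_le_mul_of_nonneg_left _ hpi.le
    refine (norm_add_le _ _).trans ?_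
    have h2 : ‖160 / 3 * B * conj (ζ - x) / (s : ℂ) ^ 2‖ ≤ 14 * ‖B‖ / s := by
      rw [norm_div, norm_mul, norm_mul, norm_pow, Complex.norm_real, Real.norm_eq_abs,
        abs_of_pos hs, Complex.norm_conj, norm_div, Complex.norm_ofNat, Complex.norm_ofNat]
      rw [div_le_div_iff₀ (by positivity) hs]
      have h3 : 160 / 3 * ‖B‖ * ‖ζ - x‖ ≤ 160 / 3 * ‖B‖ * (s / 4) :=
        mul_le_mul_of_nonneg_left h1 (by positivity)
      have h4 : 0 ≤ ‖B‖ * s := by positivity
      calc 160 / 3 * ‖B‖ * ‖ζ - x‖ * s ≤ 160 / 3 * ‖B‖ * (s / 4) * s :=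
            mul_le_mul_of_nonneg_right h3 hs.le
        _ = 40 / 3 * (‖B‖ * s) * s := by ring
        _ ≤ 14 * (‖B‖ * s) * s := by nlinarith
        _ = 14 * ‖B‖ * s ^ 2 := by ring
    linarith

theorem gD_int {s : ℝ} (hs : 0 < s) (x A B : ℂ) : (Real.pi : ℂ)⁻¹ * ∫ ζ, gD s x A B ζ = A := by
  have ht : (0 : ℝ) < s / 4 := by positivity
  have hpi : (Real.pi : ℂ) ≠ 0 := by exact_mod_cast Real.pi_ne_zero
  have hc := f1_blobC_cont x (s / 4)
  have hk := f1_blobC_compact x ht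
  have i1 : Integrable (fun ζ => (blob x (s / 4) ζ : ℂ)) := hc.integrable_of_hasCompactSupport hk
  have i2 : Integrable (fun ζ => (blob x (s / 4) ζ : ℂ) * conj (ζ - x)) :=
    (hc.mul (Complex.continuous_conj.comp
      (continuous_id.sub continuous_const))).integrable_of_hasCompactSupport hk.mul_right
  have e : ∀ ζ, gD s x A B ζ = (Real.pi : ℂ) * (A * (blob x (s / 4) ζ : ℂ) +
      160 / 3 * B / (s : ℂ) ^ 2 * ((blob x (s / 4) ζ : ℂ) * conj (ζ - x))) := by
    intro ζ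
    unfold gD
    ring
  simp only [e]
  rw [integral_const_mul, inv_mul_cancel_left₀ hpi, integral_add (i1.const_mul _)
    (i2.const_mul _), integral_const_mul, integral_const_mul, f1_blobC_int x ht, f1_conj x ht]
  ring

theorem gD_first {s : ℝ} (hs : 0 < s) (x A B : ℂ) :
    (Real.pi : ℂ)⁻¹ * ∫ ζ, gD s x A B ζ * (ζ - x) = B := by
  have ht : (0 : ℝ) < s / 4 := by positivity
  have hpi : (Real.pi : ℂ) ≠ 0 := by exact_mod_cast Real.pi_ne_zero
  have hc := f1_blobC_cont x (s / 4)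
  have hk := f1_blobC_compact x ht
  have i1 : Integrable (fun ζ => (blob x (s / 4) ζ : ℂ) * (ζ - x)) :=
    (hc.mul (continuous_id.sub continuous_const)).integrable_of_hasCompactSupport hk.mul_right
  have hcn : Continuous (fun ζ : ℂ => ((‖ζ - x‖ : ℝ) : ℂ) ^ 2) := by fun_prop
  have i2 : Integrable (fun ζ => (blob x (s / 4) ζ : ℂ) * ((‖ζ - x‖ : ℝ) : ℂ) ^ 2) :=
    (hc.mul hcn).integrable_of_hasCompactSupport hk.mul_right
  have e : ∀ ζ, gD s x A B ζ * (ζ - x) = (Real.pi : ℂ) *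
      (A * ((blob x (s / 4) ζ : ℂ) * (ζ - x)) +
      160 / 3 * B / (s : ℂ) ^ 2 * ((blob x (s / 4) ζ : ℂ) * ((‖ζ - x‖ : ℝ) : ℂ) ^ 2)) := by
    intro ζ
    have h1 : conj (ζ - x) * (ζ - x) = ((‖ζ - x‖ : ℝ) : ℂ) ^ 2 := Complex.conj_mul' _
    rw [← h1]
    unfold gD
    ring
  have h2 : ∫ ζ, (blob x (s / 4) ζ : ℂ) * ((‖ζ - x‖ : ℝ) : ℂ) ^ 2 =
      ((3 * (s / 4) ^ 2 / 10 : ℝ) : ℂ) := by
    rw [← f1_second x ht, ← integral_complex_ofReal]
    refine integral_congr_ae (Eventually.of_forall fun ζ => ?_)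
    push_cast
    rfl
  simp only [e]
  rw [integral_const_mul, inv_mul_cancel_left₀ hpi, integral_add (i1.const_mul _)
    (i2.const_mul _), integral_const_mul, integral_const_mul, blob_first x ht, h2]
  have hs0 : (s : ℂ) ≠ 0 := by exact_mod_cast hs.ne'
  push_cast
  field_simp
  ring

private theorem f1_tsupport {s : ℝ} (hs : 0 < s) (x A B : ℂ) :
    tsupport (gD s x A B) ⊆ closedBall x (2 * s) := by
  have ht : (0 : ℝ) < s / 4 := by positivity
  apply closure_minimal _ isClosed_closedBall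
  intro ζ hζ
  rw [Function.mem_support] at hζ
  by_contra hcon
  rw [mem_closedBall, dist_eq_norm, not_le] at hcon
  apply hζ
  unfold gD
  rw [blob_zero x ht (by linarith)]
  simp

private theorem f1_pot {s ω : ℝ} (hs : 0 < s) (hω : 0 ≤ ω) {x A B : ℂ} (hA : ‖A‖ ≤ 2 * s * ω)
    (hB : ‖B‖ ≤ 8 * s ^ 2 * ω) (z : ℂ) :
    ‖(Real.pi : ℂ)⁻¹ * ∫ ζ, gD s x A B ζ / (z - ζ)‖ ≤ 2999 * ω := by
  have ht : (0 : ℝ) < s / 4 := by positivity
  have hpi := Real.pi_pos
  obtain ⟨hI, hb⟩ := inv_ball_integral z x ht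
  have hK : ‖A‖ + 14 * ‖B‖ / s ≤ 114 * s * ω := by
    have h1 : 14 * ‖B‖ / s ≤ 112 * s * ω := by
      rw [div_le_iff₀ hs]
      calc 14 * ‖B‖ ≤ 14 * (8 * s ^ 2 * ω) := by linarith
        _ = 112 * s * ω * s := by ring
    linarith
  set K : ℝ := Real.pi * (114 * s * ω) * (1 / (s / 4) ^ 2) with hKdef
  have hK0 : 0 ≤ K := by positivity
  have h1 : Integrable ((closedBall x (s / 4)).indicator (fun ζ : ℂ => K * ‖z - ζ‖⁻¹)) :=
    (integrable_indicator_iff measurableSet_closedBall).2 (hI.const_mul _)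
  have h2 : ‖∫ ζ, gD s x A B ζ / (z - ζ)‖ ≤ ∫ ζ, (closedBall x (s / 4)).indicator
      (fun ζ : ℂ => K * ‖z - ζ‖⁻¹) ζ := by
    refine norm_integral_le_of_norm_le h1 (Eventually.of_forall fun ζ => ?_)
    rw [norm_div, div_eq_mul_inv]
    by_cases h : ζ ∈ closedBall x (s / 4)
    · rw [indicator_of_mem h]
      refine mul_le_mul_of_nonneg_right ?_ (by positivity)
      refine (gD_norm hs x A B ζ).trans ?_
      have h3 := blob_le x ht ζ
      have h4 := blob_nonneg x (s / 4) ζ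
      calc Real.pi * (‖A‖ + 14 * ‖B‖ / s) * blob x (s / 4) ζ ≤
          Real.pi * (114 * s * ω) * blob x (s / 4) ζ :=
            mul_le_mul_of_nonneg_right (mul_le_mul_of_nonneg_left hK hpi.le) h4
        _ ≤ K := mul_le_mul_of_nonneg_left h3 (by positivity)
    · rw [indicator_of_notMem h]
      rw [mem_closedBall, dist_eq_norm, not_le] at h
      have h3 : gD s x A B ζ = 0 := by
        unfold gD
        rw [blob_zero x ht h.le]
        simp
      rw [h3, norm_zero, zero_mul]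
  rw [integral_indicator measurableSet_closedBall, integral_const_mul] at h2
  have h5 : K * ∫ ζ in closedBall x (s / 4), ‖z - ζ‖⁻¹ ≤ K * (2 * Real.pi * (s / 4)) :=
    mul_le_mul_of_nonneg_left hb hK0
  have h6 : K * (2 * Real.pi * (s / 4)) = Real.pi * (912 * Real.pi * ω) := by
    rw [hKdef]
    field_simp
    ring
  rw [norm_mul, norm_inv, Complex.norm_real, Real.norm_eq_abs, abs_of_pos hpi]
  rw [inv_mul_le_iff₀ hpi]
  have h7 : 912 * Real.pi * ω ≤ 2999 * ω := by
    have := Real.pi_lt_d2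
    apply mul_le_mul_of_nonneg_right _ hω
    linarith
  calc ‖∫ ζ, gD s x A B ζ / (z - ζ)‖ ≤ Real.pi * (912 * Real.pi * ω) := by
        rw [← h6]; exact h2.trans h5
    _ ≤ Real.pi * (2999 * ω) := mul_le_mul_of_nonneg_left h7 hpi.le

theorem fwd_cell2 : ∃ C : ℝ, 0 < C ∧ ∀ (s ω : ℝ) (x A B : ℂ) (g : ℂ → ℂ), 0 < s →
    AF (closedBall x (2 * s)) x g A B → (∀ z, ‖g z‖ ≤ ω) →
    ∀ z, ‖(Real.pi : ℂ)⁻¹ * (∫ ζ, gD s x A B ζ / (z - ζ)) - g z‖ ≤ C * ω * wt (2 * s) (z - x) := by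
  refine ⟨3000, by norm_num, ?_⟩
  intro s ω x A B g hs hg hω z
  have hω0 : 0 ≤ ω := (norm_nonneg (g 0)).trans (hω 0)
  have h2s : 0 < 2 * s := by positivity
  have hcp : IsCompact (closedBall x (2 * s)) := isCompact_closedBall _ _
  have hal : (alpha (closedBall x (2 * s))).toReal ≤ 2 * s := alpha_toReal_le h2s subset_rfl
  have hal0 : 0 ≤ (alpha (closedBall x (2 * s))).toReal := ENNReal.toReal_nonneg
  have hA : ‖A‖ ≤ 2 * s * ω := by
    have h1 := hg.coef_le hcp hω
    calc ‖A‖ ≤ ω * (alpha (closedBall x (2 * s))).toReal := h1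
      _ ≤ ω * (2 * s) := mul_le_mul_of_nonneg_left hal hω0
      _ = 2 * s * ω := by ring
  have hB : ‖B‖ ≤ 8 * s ^ 2 * ω := by
    have h1 := hg.second_le hcp h2s subset_rfl hω
    calc ‖B‖ ≤ 2 * (2 * s) * ω * (alpha (closedBall x (2 * s))).toReal := h1
      _ ≤ 2 * (2 * s) * ω * (2 * s) := mul_le_mul_of_nonneg_left hal (by positivity)
      _ = 8 * s ^ 2 * ω := by ring
  have hpot := fun z => f1_pot hs hω0 hA hB (x := x) z
  have hAF := (pot_AF (gD_cont s x A B) (gD_compact hs x A B) x).const_mul (Real.pi : ℂ)⁻¹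
  rw [gD_int hs, gD_first hs] at hAF
  have hdiff := (hAF.mono (f1_tsupport hs x A B)).sub hg
  rw [sub_self, sub_self] at hdiff
  have hholo : DifferentiableOn ℂ (fun z => (Real.pi : ℂ)⁻¹ * (∫ ζ, gD s x A B ζ / (z - ζ)) - g z)
      {z | 2 * s < ‖z - x‖} := by
    apply hdiff.holo.mono
    intro w hw hmem
    rw [mem_closedBall, dist_eq_norm] at hmem
    exact absurd hw (not_lt.2 hmem)
  have hbound : ∀ w ∈ (Set.univ : Set ℂ),
      ‖(Real.pi : ℂ)⁻¹ * (∫ ζ, gD s x A B ζ / (w - ζ)) - g w‖ ≤ 3000 * ω := by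
    intro w _
    have h1 := hpot w
    have h2 := hω w
    refine (norm_sub_le _ _).trans ?_
    linarith
  exact cube_wt h2s (by positivity) (Set.subset_univ _) hholo hbound hdiff.coef z (Set.mem_univ z)

end Pool.Agent.SV
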