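import Pool.Agent.Helper53.ST.F1
import Pool.Agent.Helper53.ST.B2
import Pool.Agent.Helper53.AC.L2b
import Pool.Agent.Helper53.SV.D14
import Pool.Agent.Helper53.SV.F3

/-!
# ST-S: the step theorem (adapt the proof of `B9_key` in AC/B9.lean)

PROOF. Let `s = Fam.s`, `x j = lp s j`, `S j = ∑_{c : j c = j} α c`. If `Fam.k = 0` all `A j` are
zero. Let `C₁` be the constant of `fwd_cell2`, `C₂` that of `back_main2`, `C₀` that of
`lattice_sum`. Put `lam = 15 M ω / δ`. For `c` with `j c ∈ J` let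
`gg c ζ = (1 + δ)⁻¹ * (α c / S (j c)) * gD s (x (j c)) (A (j c)) (B (j c)) ζ`, else `gg c = 0`.
* `‖gg c ζ‖ ≤ (α c / S) π (‖A‖ + 14 ‖B‖ / s) blob ≤ 15 π M ω α c blob = δ π rho lam c ζ`.
* `∑ c, gg c = (1 + δ)⁻¹ ∑_{j ∈ J} gD s (x j) (A j) (B j)` (if `S j = 0` then `A j = B j = 0` and
  `gD = 0`), so the potential is `(1 + δ)⁻¹ (∑ g j + error)`, `‖error‖ ≤ C₁ ω C₀ ≤ δ`
  (`fwd_cell2`, `lattice_sum`): the hypothesis `hF` of `MT` holds.
* `π⁻¹ ∑ ∫ gg c = (1 + δ)⁻¹ ∑_{j∈J} A j`.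
`MT (fun N c => P1_main c)` with `ε = δ`, small `η' = η / 4` and `back_main2` with `η'' = δ / 2`
give, for one small `h`, functions `F i` with coefficients `a i`, and `u` (for every colour) with
`a i = ∑_{grp c = i} u c α c`, bound `1 + C₂ lam + δ/2 ≤ 1 + δ` and
`(1 + δ)⁻¹ ‖∑ A j‖ ≤ (1 + δ) ∑ ‖a i‖ + η / 4`. Combine the `u`s of the colours to one function
`c ↦ u^{(grp c)} c`. Constants: `C = 30 C₂ + C₀ C₁ + 15 C₂ + ...` large enough.
-/

set_option autoImplicit false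

open Complex Filter Topology Metric
open scoped ComplexConjugate

namespace Pool.Agent.SV

open Pool.Agent.Helper53.CAC

/-- regrouping the cells according to their lattice index -/
private theorem step_regroup {m : ℕ} (Fam : SFam m) (J : Finset (ℤ × ℤ)) (Φ : ℤ × ℤ → ℂ)
    (hΦ : ∀ j ∈ J, (∑ c with Fam.j c = j, Fam.α c) = 0 → Φ j = 0) :
    ∑ c, (if Fam.j c ∈ J then
      ((Fam.α c / ∑ c' with Fam.j c' = Fam.j c, Fam.α c' : ℝ) : ℂ) * Φ (Fam.j c) else 0)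
      = ∑ j ∈ J, Φ j := by
  have h1 : ∀ j ∈ J, Φ j = ∑ c, (if Fam.j c = j then
      ((Fam.α c / ∑ c' with Fam.j c' = j, Fam.α c' : ℝ) : ℂ) * Φ j else 0) := by
    intro j hj
    by_cases hS : (∑ c with Fam.j c = j, Fam.α c) = 0
    · rw [hΦ j hj hS]
      simp
    · rw [← Finset.sum_filter, ← Finset.sum_mul, ← Complex.ofReal_sum, ← Finset.sum_div,
        div_self hS, Complex.ofReal_one, one_mul]
  rw [Finset.sum_congr rfl h1, Finset.sum_comm]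
  refine Finset.sum_congr rfl fun c _ => ?_
  rw [Finset.sum_ite_eq]

theorem step : ∃ C : ℝ, 0 < C ∧ ∀ (m : ℕ) (Fam : SFam m) (J : Finset (ℤ × ℤ))
    (g : ℤ × ℤ → ℂ → ℂ) (A B : ℤ × ℤ → ℂ) (M ω δ : ℝ), 1 ≤ M → 0 < ω → 0 < δ → δ ≤ 1 →
    C * M * ω ≤ δ ^ 2 →
    (∀ j ∈ J, AF (closedBall (lp Fam.s j) (2 * Fam.s)) (lp Fam.s j) (g j) (A j) (B j)) →
    (∀ j ∈ J, ∀ z, ‖g j z‖ ≤ ω) → (∀ z, ‖∑ j ∈ J, g j z‖ ≤ 1) →
    (∀ j ∈ J, ‖A j‖ ≤ M * ω * ∑ c with Fam.j c = j, Fam.α c) →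
    (∀ j ∈ J, ‖B j‖ ≤ M * ω * Fam.s * ∑ c with Fam.j c = j, Fam.α c) →
    ∀ η : ℝ, 0 < η → ∃ u : Fin Fam.k → ℂ, (∀ c, ‖u c‖ ≤ C * M * ω / δ) ∧
      (∀ i z, ‖∑ c with Fam.grp c = i, u c * Fam.G c z‖ ≤ 1 + δ) ∧
      ‖∑ j ∈ J, A j‖ ≤ (1 + δ) ^ 2 * ∑ i, ‖∑ c with Fam.grp c = i, u c * Fam.α c‖ + η := by
  obtain ⟨C₁, hC₁, hfwd⟩ := fwd_cell2
  obtain ⟨C₂, hC₂, hback⟩ := back_main2
  obtain ⟨C₀, hC₀, hls⟩ := lattice_sum
  refine ⟨30 * C₂ + C₀ * C₁, by positivity, ?_⟩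
  intro m Fam J g A B M ω δ hM hω hδ hδ1 hCδ hg hgω hgs hA hB η hη
  have hs := Fam.s_pos
  have hpi := Real.pi_pos
  have hM0 : 0 < M := lt_of_lt_of_le one_pos hM
  have hMω : 0 < M * ω := mul_pos hM0 hω
  have h1δ : (0 : ℝ) < 1 + δ := by linarith
  -- the case of the empty family
  rcases Nat.eq_zero_or_pos Fam.k with hk | hk
  · have hA0 : ∀ j ∈ J, A j = 0 := by
      intro j hj
      have h1 := hA j hj
      have h2 : (∑ c with Fam.j c = j, Fam.α c) = 0 :=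
        Finset.sum_eq_zero fun c _ => absurd c.2 (by omega)
      rw [h2, mul_zero] at h1
      exact norm_le_zero_iff.1 h1
    refine ⟨fun _ => 0, fun c => absurd c.2 (by omega), fun i z => ?_, ?_⟩
    · simp only [zero_mul, Finset.sum_const_zero, norm_zero]
      exact h1δ.le
    · rw [Finset.sum_eq_zero hA0, norm_zero]
      have : 0 ≤ ∑ i, ‖∑ c with Fam.grp c = i, (0 : ℂ) * (Fam.α c : ℂ)‖ :=
        Finset.sum_nonneg fun i _ => norm_nonneg _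
      positivity
  -- the consequences of the smallness
  have hsm1 : C₁ * ω * C₀ ≤ δ := by
    have h1 : C₀ * C₁ * ω ≤ C₀ * C₁ * (M * ω) :=
      mul_le_mul_of_nonneg_left (by nlinarith) (by positivity)
    have h2 : 0 ≤ 30 * C₂ * (M * ω) := by positivity
    have h3 : (30 * C₂ + C₀ * C₁) * M * ω = 30 * C₂ * (M * ω) + C₀ * C₁ * (M * ω) := by ring
    have h4 : δ ^ 2 ≤ δ := by nlinarith
    calc C₁ * ω * C₀ = C₀ * C₁ * ω := by ring
      _ ≤ δ := by linarith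
  set lam : ℝ := 15 * M * ω / δ with hlam
  have hlam0 : 0 < lam := by positivity
  have hsm2 : C₂ * lam ≤ δ / 2 := by
    have h2 : 0 ≤ C₀ * C₁ * (M * ω) := by positivity
    have h3 : (30 * C₂ + C₀ * C₁) * M * ω = 30 * C₂ * (M * ω) + C₀ * C₁ * (M * ω) := by ring
    rw [hlam, mul_div_assoc', div_le_iff₀ hδ]
    nlinarith
  -- the sums of the capacities
  set S : ℤ × ℤ → ℝ := fun j => ∑ c with Fam.j c = j, Fam.α c with hSdef
  have hSpos : ∀ c, 0 < S (Fam.j c) := by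
    intro c
    have h1 : Fam.α c ≤ S (Fam.j c) :=
      Finset.single_le_sum (f := Fam.α) (fun c' _ => (Fam.α_pos c').le)
        (Finset.mem_filter.2 ⟨Finset.mem_univ c, rfl⟩)
    exact lt_of_lt_of_le (Fam.α_pos c) h1
  have hA0 : ∀ j ∈ J, S j = 0 → A j = 0 := by
    intro j hj h0
    have h1 := hA j hj
    have h2 : (∑ c with Fam.j c = j, Fam.α c) = 0 := h0
    rw [h2, mul_zero] at h1
    exact norm_le_zero_iff.1 h1
  have hB0 : ∀ j ∈ J, S j = 0 → B j = 0 := by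
    intro j hj h0
    have h1 := hB j hj
    have h2 : (∑ c with Fam.j c = j, Fam.α c) = 0 := h0
    rw [h2, mul_zero] at h1
    exact norm_le_zero_iff.1 h1
  have hgD0 : ∀ j ∈ J, S j = 0 → ∀ ζ, gD Fam.s (lp Fam.s j) (A j) (B j) ζ = 0 := by
    intro j hj h0 ζ
    unfold gD
    rw [hA0 j hj h0, hB0 j hj h0]
    simp
  -- the densities
  set gg : Fin Fam.k → ℂ → ℂ := fun c ζ => ((1 + δ : ℝ) : ℂ)⁻¹ *
    (if Fam.j c ∈ J then ((Fam.α c / S (Fam.j c) : ℝ) : ℂ) *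
      gD Fam.s (lp Fam.s (Fam.j c)) (A (Fam.j c)) (B (Fam.j c)) ζ else 0) with hgg
  have hnδ : ‖((1 + δ : ℝ) : ℂ)⁻¹‖ = (1 + δ)⁻¹ := by
    rw [norm_inv, Complex.norm_real, Real.norm_of_nonneg h1δ.le]
  have hnδ1 : (1 + δ)⁻¹ ≤ 1 := inv_le_one_of_one_le₀ (by linarith)
  have hρ0 : ∀ c z, 0 ≤ Fam.rho lam c z := fun c z =>
    mul_nonneg (mul_nonneg hlam0.le (Fam.α_pos c).le) (blob_nonneg _ _ _)
  have hρc : ∀ c, Continuous (Fam.rho lam c) := fun c =>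
    continuous_const.mul (blob_cont _ _)
  have hρs : ∀ c, HasCompactSupport (Fam.rho lam c) := fun c =>
    (blob_compact _ (by positivity : (0 : ℝ) < Fam.s / 4)).mul_left
  have hggc : ∀ c, Continuous (gg c) := by
    intro c
    simp only [hgg]
    by_cases hc : Fam.j c ∈ J
    · simp only [if_pos hc]
      exact continuous_const.mul (continuous_const.mul (gD_cont _ _ _ _))
    · simp only [if_neg hc]
      exact continuous_const
  have hg1 : ∀ c z, ‖gg c z‖ ≤ δ * Real.pi * Fam.rho lam c z := by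
    intro c z
    by_cases hc : Fam.j c ∈ J
    · have e1 := gD_norm hs (lp Fam.s (Fam.j c)) (A (Fam.j c)) (B (Fam.j c)) z
      have e2 := hA _ hc
      have e3 := hB _ hc
      have e4 : ‖A (Fam.j c)‖ + 14 * ‖B (Fam.j c)‖ / Fam.s ≤ 15 * (M * ω) * S (Fam.j c) := by
        have e5 : 14 * ‖B (Fam.j c)‖ / Fam.s ≤ 14 * (M * ω) * S (Fam.j c) := by
          rw [div_le_iff₀ hs]
          calc 14 * ‖B (Fam.j c)‖ ≤ 14 * (M * ω * Fam.s * S (Fam.j c)) := by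
                linarith
            _ = 14 * (M * ω) * S (Fam.j c) * Fam.s := by ring
        have e6 : ‖A (Fam.j c)‖ ≤ M * ω * S (Fam.j c) := e2
        linarith
      have hb := blob_nonneg (lp Fam.s (Fam.j c)) (Fam.s / 4) z
      have hq : 0 < Fam.α c / S (Fam.j c) := div_pos (Fam.α_pos c) (hSpos c)
      have e7 : ‖gg c z‖ = (1 + δ)⁻¹ * ((Fam.α c / S (Fam.j c)) *
          ‖gD Fam.s (lp Fam.s (Fam.j c)) (A (Fam.j c)) (B (Fam.j c)) z‖) := by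
        simp only [hgg, if_pos hc]
        rw [norm_mul, norm_mul, hnδ, Complex.norm_real, Real.norm_of_nonneg hq.le]
      rw [e7]
      calc (1 + δ)⁻¹ * ((Fam.α c / S (Fam.j c)) *
            ‖gD Fam.s (lp Fam.s (Fam.j c)) (A (Fam.j c)) (B (Fam.j c)) z‖)
          ≤ 1 * ((Fam.α c / S (Fam.j c)) *
            ‖gD Fam.s (lp Fam.s (Fam.j c)) (A (Fam.j c)) (B (Fam.j c)) z‖) :=
            mul_le_mul_of_nonneg_right hnδ1 (by positivity)
        _ ≤ 1 * ((Fam.α c / S (Fam.j c)) * (Real.pi * (15 * (M * ω) * S (Fam.j c)) *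
            blob (lp Fam.s (Fam.j c)) (Fam.s / 4) z)) := by
            refine mul_le_mul_of_nonneg_left (mul_le_mul_of_nonneg_left (e1.trans ?_) hq.le)
              zero_le_one
            exact mul_le_mul_of_nonneg_right (mul_le_mul_of_nonneg_left e4 hpi.le) hb
        _ = δ * Real.pi * Fam.rho lam c z := by
            unfold SFam.rho
            rw [hlam]
            have hS1 := (hSpos c).ne'
            field_simp
    · simp only [hgg, if_neg hc, mul_zero, norm_zero]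
      exact mul_nonneg (by positivity) (hρ0 c z)
  have hreg : ∀ Φ : ℤ × ℤ → ℂ, (∀ j ∈ J, S j = 0 → Φ j = 0) →
      ∑ c, (if Fam.j c ∈ J then ((Fam.α c / S (Fam.j c) : ℝ) : ℂ) * Φ (Fam.j c) else 0)
        = ∑ j ∈ J, Φ j := fun Φ hΦ => step_regroup Fam J Φ hΦ
  -- the potential
  have hF1 : ∀ z, ‖(Real.pi : ℂ)⁻¹ * ∑ c, ∫ ζ, gg c ζ / (z - ζ)‖ ≤ 1 := by
    intro z
    have e1 : ∀ c, ∫ ζ, gg c ζ / (z - ζ) = ((1 + δ : ℝ) : ℂ)⁻¹ *
        (if Fam.j c ∈ J then ((Fam.α c / S (Fam.j c) : ℝ) : ℂ) *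
          ∫ ζ, gD Fam.s (lp Fam.s (Fam.j c)) (A (Fam.j c)) (B (Fam.j c)) ζ / (z - ζ) else 0) := by
      intro c
      by_cases hc : Fam.j c ∈ J
      · rw [if_pos hc, ← MeasureTheory.integral_const_mul, ← MeasureTheory.integral_const_mul]
        congr 1
        funext ζ
        simp only [hgg, if_pos hc]
        ring
      · simp only [hgg, if_neg hc, mul_zero, zero_div, MeasureTheory.integral_zero]
    have e2 : (Real.pi : ℂ)⁻¹ * ∑ c, ∫ ζ, gg c ζ / (z - ζ) = ((1 + δ : ℝ) : ℂ)⁻¹ *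
        (∑ j ∈ J, g j z + ∑ j ∈ J, ((Real.pi : ℂ)⁻¹ *
          (∫ ζ, gD Fam.s (lp Fam.s j) (A j) (B j) ζ / (z - ζ)) - g j z)) := by
      rw [Finset.sum_sub_distrib, add_sub_cancel, ← Finset.mul_sum]
      rw [Finset.sum_congr rfl fun c _ => e1 c, ← Finset.mul_sum,
        hreg (fun j => ∫ ζ, gD Fam.s (lp Fam.s j) (A j) (B j) ζ / (z - ζ))]
      · ring
      · intro j hj h0
        simp only [hgD0 j hj h0, zero_div, MeasureTheory.integral_zero]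
    have e3 : ‖∑ j ∈ J, ((Real.pi : ℂ)⁻¹ *
          (∫ ζ, gD Fam.s (lp Fam.s j) (A j) (B j) ζ / (z - ζ)) - g j z)‖ ≤ δ := by
      calc _ ≤ ∑ j ∈ J, ‖(Real.pi : ℂ)⁻¹ *
          (∫ ζ, gD Fam.s (lp Fam.s j) (A j) (B j) ζ / (z - ζ)) - g j z‖ := norm_sum_le _ _
        _ ≤ ∑ j ∈ J, C₁ * ω * wt (2 * Fam.s) (z - lp Fam.s j) :=
            Finset.sum_le_sum fun j hj =>
              hfwd Fam.s ω (lp Fam.s j) (A j) (B j) (g j) hs (hg j hj) (hgω j hj) z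
        _ = C₁ * ω * ∑ j ∈ J, wt (2 * Fam.s) (z - lp Fam.s j) := by rw [Finset.mul_sum]
        _ ≤ C₁ * ω * C₀ := mul_le_mul_of_nonneg_left (hls Fam.s hs z J) (by positivity)
        _ ≤ δ := hsm1
    rw [e2, norm_mul, hnδ]
    have e4 : ‖∑ j ∈ J, g j z + ∑ j ∈ J, ((Real.pi : ℂ)⁻¹ *
          (∫ ζ, gD Fam.s (lp Fam.s j) (A j) (B j) ζ / (z - ζ)) - g j z)‖ ≤ 1 + δ :=
      (norm_add_le _ _).trans (add_le_add (hgs z) e3)
    calc (1 + δ)⁻¹ * _ ≤ (1 + δ)⁻¹ * (1 + δ) := mul_le_mul_of_nonneg_left e4 (by positivity)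
      _ = 1 := inv_mul_cancel₀ h1δ.ne'
  have hint : (Real.pi : ℂ)⁻¹ * ∑ c, ∫ ζ, gg c ζ = ((1 + δ : ℝ) : ℂ)⁻¹ * ∑ j ∈ J, A j := by
    have e1 : ∀ c, ∫ ζ, gg c ζ = ((1 + δ : ℝ) : ℂ)⁻¹ *
        (if Fam.j c ∈ J then ((Fam.α c / S (Fam.j c) : ℝ) : ℂ) *
          ∫ ζ, gD Fam.s (lp Fam.s (Fam.j c)) (A (Fam.j c)) (B (Fam.j c)) ζ else 0) := by
      intro c
      by_cases hc : Fam.j c ∈ J
      · rw [if_pos hc, ← MeasureTheory.integral_const_mul, ← MeasureTheory.integral_const_mul]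
        congr 1
        funext ζ
        simp only [hgg, if_pos hc]
      · simp only [hgg, if_neg hc, mul_zero, MeasureTheory.integral_zero]
    rw [Finset.sum_congr rfl fun c _ => e1 c, ← Finset.mul_sum,
      hreg (fun j => ∫ ζ, gD Fam.s (lp Fam.s j) (A j) (B j) ζ)]
    · rw [mul_left_comm, Finset.mul_sum]
      congr 1
      exact Finset.sum_congr rfl fun j _ => gD_int hs _ _ _
    · intro j hj h0
      simp only [hgD0 j hj h0, MeasureTheory.integral_zero]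
  have hMT := MT (fun N c => P1_main c) Fam.k m hk (Fam.rho lam) hρc hρ0 hρs gg hggc hδ hδ1 hg1 hF1
    Fam.grp (show 0 < η / 4 by positivity)
  have hbk := hback m Fam hk lam (δ / 2) hlam0 (by positivity)
  obtain ⟨h, ⟨F, b, hFd, hFb, hFz, hFc, hle⟩, hbk'⟩ := (hMT.and hbk).exists
  choose u hu1 hu2 hu3 using fun i => hbk' i (F i) (b i) (hFd i) (hFb i) (hFz i) (hFc i)
  refine ⟨fun c => u (Fam.grp c) c, fun c => ?_, fun i z => ?_, ?_⟩
  · refine (hu1 (Fam.grp c) c).trans ?_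
    rw [hlam, mul_div_assoc']
    refine div_le_div_of_nonneg_right ?_ hδ.le
    have h2 : 0 ≤ C₀ * C₁ * (M * ω) := by positivity
    have h3 : 0 ≤ C₂ * (M * ω) := by positivity
    nlinarith
  · have h1 : ∑ c with Fam.grp c = i, u (Fam.grp c) c * Fam.G c z
        = ∑ c with Fam.grp c = i, u i c * Fam.G c z := by
      refine Finset.sum_congr rfl fun c hc => ?_
      rw [(Finset.mem_filter.1 hc).2]
    rw [h1]
    have h2 := hu2 i z
    linarith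
  · have h1 : ∀ i, ∑ c with Fam.grp c = i, u (Fam.grp c) c * (Fam.α c : ℂ) = b i := by
      intro i
      rw [hu3 i]
      refine Finset.sum_congr rfl fun c hc => ?_
      rw [(Finset.mem_filter.1 hc).2]
    rw [hint, norm_mul, hnδ] at hle
    have h2 : ∑ i, ‖∑ c with Fam.grp c = i, u (Fam.grp c) c * (Fam.α c : ℂ)‖ = ∑ i, ‖b i‖ :=
      Finset.sum_congr rfl fun i _ => by rw [h1 i]
    rw [h2]
    calc ‖∑ j ∈ J, A j‖ = (1 + δ) * ((1 + δ)⁻¹ * ‖∑ j ∈ J, A j‖) := by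
          rw [mul_inv_cancel_left₀ h1δ.ne']
      _ ≤ (1 + δ) * ((1 + δ) * ∑ i, ‖b i‖ + η / 4) := mul_le_mul_of_nonneg_left hle h1δ.le
      _ = (1 + δ) ^ 2 * ∑ i, ‖b i‖ + (1 + δ) * (η / 4) := by ring
      _ ≤ (1 + δ) ^ 2 * ∑ i, ‖b i‖ + η := by
          have : (1 + δ) * (η / 4) ≤ η := by nlinarith
          linarith

end Pool.Agent.SV
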