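import Pool.Agent.Helper53.ST.W10
import Pool.Agent.Helper53.ST.Step

/-!
# ST-Final: continuous analytic capacity is subadditive

PROOF. Let `f, a` be admissible for `E = E₁ ∪ E₂`, `0 < δ ≤ 1`. Let `C` be the constant of `step`,
`M = 32`, `ω > 0` with `C M ω ≤ δ ^ 2`. Apply `refine_one` (ST/W4.lean) to `f` (with the piece
`PieceAt E r f 0 a b`, `E ⊆ closedBall 0 (2 r)`) and this `ω`: scale `s`, `J`, `f j`, `A j`, `B j` with
`f = ω ∑_{j∈J} f j`. For `i : Fin 2` let `P i j = E i ∩ closedBall (lp s j) (2 s)`; the cells are the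
pairs `(i, j)`, `j ∈ J`, with `(alpha (P i j)).toReal > 0`; `G` with real first coefficient
`α ≥ (alpha (P i j)).toReal / 2` (an almost extremal function, rotated),
`‖b‖ ≤ 2 (2 s) (alpha P).toReal ≤ 8 s α` (`AF.second_le`). By `alpha_four`, as
`E ∩ closedBall (lp s j) (2 s) = P 0 j ∪ P 1 j`:
`‖A j‖ ≤ (alpha (P 0 j ∪ P 1 j)).toReal ≤ 4 ((alpha (P 0 j)).toReal + (alpha (P 1 j)).toReal)
≤ 8 ∑_{j c = j} α c` and `‖B j‖ ≤ 4 s (alpha (P 0 j ∪ P 1 j)).toReal ≤ 32 s ∑ α c`.
`step` (applied to `ω f j`) gives `u` with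
`‖a‖ ≤ (1 + δ)^2 ∑ i, ‖∑_{grp c = i} u c α c‖ + η`, and
`‖∑_{grp c = i} u c α c‖ ≤ (1 + δ) (alpha (E i)).toReal` (`coeff_le_alpha` for `∑ u c G c`).
Let `η → 0`, then `δ → 0`.
-/

set_option autoImplicit false

open Complex Filter Topology Metric
open scoped ComplexConjugate

namespace Pool.Agent.SV

open Pool.Agent.Helper53.CAC

/-- a continuous function with first coefficient has the data `AF` -/
private theorem fin_AF {P : Set ℂ} {x : ℂ} {R M : ℝ} (hs : P ⊆ closedBall x R) {f : ℂ → ℂ} {a : ℂ}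
    (hc : Continuous f) (hd : DifferentiableOn ℂ f Pᶜ) (hb : ∀ z, ‖f z‖ ≤ M)
    (h0 : Tendsto f (cocompact ℂ) (𝓝 0)) (h1 : Tendsto (fun z => z * f z) (cocompact ℂ) (𝓝 a)) :
    ∃ b : ℂ, AF P x f a b := by
  have h4 : {z | R < ‖z - x‖} ⊆ Pᶜ := by
    intro z hz hzP
    have h5 := hs hzP
    rw [mem_closedBall, dist_eq_norm] at h5
    have h6 : R < ‖z - x‖ := hz
    linarith
  obtain ⟨a', b, hab⟩ := Coef.exists_of (hd.mono h4) (fun z _ => hb z) h0
  have ha : a' = a := tendsto_nhds_unique hab.ca h1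
  rw [ha] at hab
  exact ⟨b, hc, hd, hab⟩

/-- an almost extremal function -/
private theorem fin_ext {P : Set ℂ} (hP : IsCompact P) {x : ℂ} {R : ℝ} (hR : 0 < R)
    (hs : P ⊆ closedBall x R) (h : 0 < (alpha P).toReal) :
    ∃ (G : ℂ → ℂ) (t : ℝ) (b : ℂ), AF P x G t b ∧ (∀ z, ‖G z‖ ≤ 1) ∧ 0 < t ∧
      (alpha P).toReal ≤ 2 * t ∧ t ≤ R ∧ ‖b‖ ≤ 4 * R * t := by
  have h1 : ENNReal.ofReal ((alpha P).toReal / 2) < alpha P := by
    rw [ENNReal.ofReal_lt_iff_lt_toReal (by positivity) (alpha_ne_top hP)]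
    linarith
  have h2 : ∃ (f : ℂ → ℂ) (a : ℂ), Admissible P f a ∧ (alpha P).toReal / 2 < ‖a‖ := by
    by_contra hcon
    push Not at hcon
    have h3 : alpha P ≤ ENNReal.ofReal ((alpha P).toReal / 2) := by
      rw [alpha_le_iff]
      intro f a hf
      exact ENNReal.ofReal_le_ofReal (hcon f a hf)
    exact absurd h1 (not_lt.mpr h3)
  obtain ⟨f, a, hf, ha⟩ := h2
  have ha0 : 0 < ‖a‖ := lt_trans (by positivity) ha
  have hne : (‖a‖ : ℂ) ≠ 0 := by exact_mod_cast ha0.ne'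
  obtain ⟨K, hK, hKP, hholo⟩ := hf.holo
  set u : ℂ := conj a / (‖a‖ : ℂ) with hu
  have hu1 : ‖u‖ = 1 := by
    rw [hu, norm_div, RCLike.norm_conj, Complex.norm_real, norm_norm, div_self ha0.ne']
  have hua : u * a = (‖a‖ : ℂ) := by
    rw [hu, div_mul_eq_mul_div, mul_comm, Complex.mul_conj, Complex.normSq_eq_norm_sq]
    push_cast
    rw [sq, mul_div_assoc, div_self hne, mul_one]
  have hb1 : ∀ z, ‖u * f z‖ ≤ 1 := by
    intro z
    rw [norm_mul, hu1, one_mul]
    exact hf.bound z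
  obtain ⟨b, hAF⟩ := fin_AF (a := (‖a‖ : ℂ)) hs (f := fun z => u * f z)
    (continuous_const.mul hf.cont)
    ((hholo.mono (Set.compl_subset_compl.2 hKP)).const_mul u) hb1
    (by
      have := hf.zero.const_mul u
      rwa [mul_zero] at this)
    (by
      have := hf.coeff.const_mul u
      rw [hua] at this
      exact this.congr fun z => by ring)
  refine ⟨fun z => u * f z, ‖a‖, b, hAF, hb1, ha0, by linarith, ?_, ?_⟩
  · have h3 := hAF.coef_le hP hb1
    rw [Complex.norm_real, norm_norm, one_mul] at h3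
    exact h3.trans (alpha_toReal_le hR hs)
  · have h3 := hAF.second_le hP hR hs hb1
    nlinarith

/-- the estimate for one value of the parameter -/
private theorem fin_key {E₁ E₂ : Set ℂ} (h1 : IsCompact E₁) (h2 : IsCompact E₂) {f : ℂ → ℂ}
    {a : ℂ} (hf : Admissible (E₁ ∪ E₂) f a) {δ : ℝ} (hδ : 0 < δ) (hδ1 : δ ≤ 1) :
    ‖a‖ ≤ (1 + δ) ^ 3 * ((alpha E₁).toReal + (alpha E₂).toReal) := by
  classical
  obtain ⟨C, hC, hstep⟩ := step
  set ω : ℝ := δ ^ 2 / (32 * C) with hω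
  have hω0 : 0 < ω := by positivity
  have hCω : C * 32 * ω ≤ δ ^ 2 := by
    rw [hω]
    apply le_of_eq
    field_simp
  have hE : IsCompact (E₁ ∪ E₂) := h1.union h2
  -- a large disc
  obtain ⟨r, hr, hEr⟩ : ∃ r : ℝ, 0 < r ∧ E₁ ∪ E₂ ⊆ closedBall 0 (2 * r) := by
    obtain ⟨N, hN0, hN⟩ := exists_bound_compact hE
    refine ⟨N / 2, by positivity, fun z hz => ?_⟩
    rw [mem_closedBall, dist_zero_right]
    have := hN z hz
    linarith
  obtain ⟨K, hK, hKE, hholo⟩ := hf.holo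
  have hfE : DifferentiableOn ℂ f (E₁ ∪ E₂)ᶜ := hholo.mono (Set.compl_subset_compl.2 hKE)
  have hpiece : ∃ b, PieceAt (E₁ ∪ E₂) r f 0 a b := by
    obtain ⟨b, hb⟩ := fin_AF hEr hf.cont hfE hf.bound hf.zero hf.coeff
    refine ⟨b, ?_, hf.bound⟩
    rw [Set.inter_eq_left.mpr hEr]
    exact hb
  obtain ⟨b, hpiece⟩ := hpiece
  obtain ⟨s, hs, hall⟩ := refine_one hE hω0 hr hpiece
  obtain ⟨J, g, A, B, hg, -, hfg⟩ := hall s hs le_rfl
  have hs2 : 0 < 2 * s := by linarith
  -- the cells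
  set EE : Fin 2 → Set ℂ := ![E₁, E₂] with hEE
  have hEEc : ∀ i, IsCompact (EE i) := by
    intro i
    fin_cases i
    · exact h1
    · exact h2
  set P : Fin 2 × (ℤ × ℤ) → Set ℂ := fun p => EE p.1 ∩ closedBall (lp s p.2) (2 * s) with hP
  have hPc : ∀ p, IsCompact (P p) := fun p => (hEEc p.1).inter_right isClosed_closedBall
  have hPs : ∀ p, P p ⊆ closedBall (lp s p.2) (2 * s) := fun p => Set.inter_subset_right
  have hex : ∀ p, ∃ (G : ℂ → ℂ) (t : ℝ) (b : ℂ), 0 < (alpha (P p)).toReal →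
      (AF (P p) (lp s p.2) G t b ∧ (∀ z, ‖G z‖ ≤ 1) ∧ 0 < t ∧
      (alpha (P p)).toReal ≤ 2 * t ∧ t ≤ 2 * s ∧ ‖b‖ ≤ 4 * (2 * s) * t) := by
    intro p
    by_cases h : 0 < (alpha (P p)).toReal
    · obtain ⟨G, t, b, h3⟩ := fin_ext (hPc p) hs2 (hPs p) h
      exact ⟨G, t, b, fun _ => h3⟩
    · exact ⟨0, 0, 0, fun h' => absurd h' h⟩
  choose G t bb hGt using hex
  set S : Finset (Fin 2 × (ℤ × ℤ)) :=
    (Finset.univ ×ˢ J).filter (fun p => 0 < (alpha (P p)).toReal) with hS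
  have hSmem : ∀ n : Fin S.card, 0 < (alpha (P (enum S n))).toReal := fun n =>
    (Finset.mem_filter.1 (d6_enum_mem S n)).2
  let Fam : SFam 2 :=
    { k := S.card
      s := s
      P := fun n => P (enum S n)
      j := fun n => (enum S n).2
      α := fun n => t (enum S n)
      b := fun n => bb (enum S n)
      G := fun n => G (enum S n)
      grp := fun n => (enum S n).1
      s_pos := hs
      α_pos := fun n => (hGt _ (hSmem n)).2.2.1
      α_le := fun n => by
        have := (hGt _ (hSmem n)).2.2.2.2.1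
        linarith
      compact := fun n => hPc _
      sub := fun n => (hPs _).trans (closedBall_subset_closedBall (by linarith))
      hG := fun n => (hGt _ (hSmem n)).1
      hGb := fun n => (hGt _ (hSmem n)).2.1
      hb := fun n => by
        have h3 := (hGt _ (hSmem n)).2.2.2.2.2
        have h4 := (hGt _ (hSmem n)).2.2.1
        nlinarith [mul_pos hs h4]
      inj := fun c c' hc hc' => d6_enum_inj S (Prod.ext hc hc') }
  -- the sum of the coefficients over a lattice point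
  have hsumα : ∀ j ∈ J, (alpha (P (0, j))).toReal + (alpha (P (1, j))).toReal ≤
      2 * ∑ c with Fam.j c = j, Fam.α c := by
    intro j hj
    have e1 : ∑ c with Fam.j c = j, Fam.α c =
        ∑ i : Fin 2, if 0 < (alpha (P (i, j))).toReal then t (i, j) else 0 := by
      rw [Finset.sum_filter]
      have e2 : ∑ c, (if Fam.j c = j then Fam.α c else 0) =
          ∑ p ∈ S, (if p.2 = j then t p else 0) :=
        d6_enum_sum S (fun p => if p.2 = j then t p else 0)
      rw [e2, hS, Finset.sum_filter, Finset.sum_product]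
      refine Finset.sum_congr rfl fun i _ => ?_
      rw [Finset.sum_eq_single_of_mem j hj]
      · simp
      · intro j' _ hj'
        simp [hj']
    rw [e1, Fin.sum_univ_two]
    have e3 : ∀ i : Fin 2, (alpha (P (i, j))).toReal ≤
        2 * (if 0 < (alpha (P (i, j))).toReal then t (i, j) else 0) := by
      intro i
      split_ifs with h
      · exact (hGt _ h).2.2.2.1
      · rw [mul_zero]
        exact not_lt.mp h
    have e4 := e3 0
    have e5 := e3 1
    linarith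
  have hcap : ∀ j ∈ J, (alpha ((E₁ ∪ E₂) ∩ closedBall (lp s j) (2 * s))).toReal ≤
      8 * ∑ c with Fam.j c = j, Fam.α c := by
    intro j hj
    have e1 : (E₁ ∪ E₂) ∩ closedBall (lp s j) (2 * s) = P (0, j) ∪ P (1, j) := by
      rw [Set.union_inter_distrib_right]
      rfl
    rw [e1]
    have e2 := alpha_four (hPc (0, j)) (hPc (1, j))
    have e3 := hsumα j hj
    linarith
  -- the step theorem
  have hAF : ∀ j ∈ J, AF (closedBall (lp s j) (2 * s)) (lp s j) (fun z => (ω : ℂ) * g j z)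
      (ω * A j) (ω * B j) := fun j hj =>
    ((hg j hj).af.mono Set.inter_subset_right).const_mul _
  have hωn : ‖(ω : ℂ)‖ = ω := by
    rw [Complex.norm_real, Real.norm_of_nonneg hω0.le]
  have hb1 : ∀ j ∈ J, ∀ z, ‖(ω : ℂ) * g j z‖ ≤ ω := by
    intro j hj z
    rw [norm_mul, hωn]
    exact mul_le_of_le_one_right hω0.le ((hg j hj).bound z)
  have hsumf : ∀ z, ∑ j ∈ J, (ω : ℂ) * g j z = f z := by
    intro z
    rw [hfg z, Finset.mul_sum]
  have hb2 : ∀ z, ‖∑ j ∈ J, (ω : ℂ) * g j z‖ ≤ 1 := by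
    intro z
    rw [hsumf]
    exact hf.bound z
  have hPE : ∀ j, IsCompact ((E₁ ∪ E₂) ∩ closedBall (lp s j) (2 * s)) := fun j =>
    hE.inter_right isClosed_closedBall
  have hA : ∀ j ∈ J, ‖(ω : ℂ) * A j‖ ≤ 32 * ω * ∑ c with Fam.j c = j, Fam.α c := by
    intro j hj
    rw [norm_mul, hωn]
    have e1 := (hg j hj).af.coef_le (hPE j) (hg j hj).bound
    have e2 := hcap j hj
    have e3 : 0 ≤ (alpha ((E₁ ∪ E₂) ∩ closedBall (lp s j) (2 * s))).toReal :=
      ENNReal.toReal_nonneg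
    have e4 : ‖A j‖ ≤ 32 * ∑ c with Fam.j c = j, Fam.α c := by linarith
    calc ω * ‖A j‖ ≤ ω * (32 * ∑ c with Fam.j c = j, Fam.α c) :=
          mul_le_mul_of_nonneg_left e4 hω0.le
      _ = _ := by ring
  have hB : ∀ j ∈ J, ‖(ω : ℂ) * B j‖ ≤ 32 * ω * Fam.s * ∑ c with Fam.j c = j, Fam.α c := by
    intro j hj
    rw [norm_mul, hωn]
    have e1 := (hg j hj).af.second_le (hPE j) hs2 Set.inter_subset_right (hg j hj).bound
    have e2 := hcap j hj
    have e4 : ‖B j‖ ≤ 32 * s * ∑ c with Fam.j c = j, Fam.α c := by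
      calc ‖B j‖ ≤ 2 * (2 * s) * 1 *
            (alpha ((E₁ ∪ E₂) ∩ closedBall (lp s j) (2 * s))).toReal := e1
        _ ≤ 2 * (2 * s) * 1 * (8 * ∑ c with Fam.j c = j, Fam.α c) :=
            mul_le_mul_of_nonneg_left e2 (by positivity)
        _ = _ := by ring
    calc ω * ‖B j‖ ≤ ω * (32 * s * ∑ c with Fam.j c = j, Fam.α c) :=
          mul_le_mul_of_nonneg_left e4 hω0.le
      _ = 32 * ω * Fam.s * ∑ c with Fam.j c = j, Fam.α c := by
          change _ = 32 * ω * s * _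
          ring
  have ha : a = ∑ j ∈ J, (ω : ℂ) * A j := by
    have h3 := tendsto_finsetSum J (fun j hj => (hAF j hj).coef.ca)
    have h4 : Tendsto (fun z => z * f z) (cocompact ℂ) (𝓝 (∑ j ∈ J, (ω : ℂ) * A j)) := by
      refine h3.congr fun z => ?_
      rw [← hsumf z, Finset.mul_sum]
    exact tendsto_nhds_unique hf.coeff h4
  refine le_of_forall_pos_le_add fun η hη => ?_
  obtain ⟨u, -, hu1, hu2⟩ := hstep 2 Fam J (fun j z => (ω : ℂ) * g j z) (fun j => ω * A j)
    (fun j => ω * B j) 32 ω δ (by norm_num) hω0 hδ hδ1 hCω hAF hb1 hb2 hA hB η hη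
  rw [← ha] at hu2
  have hco : ∀ i, ‖∑ c with Fam.grp c = i, u c * Fam.α c‖ ≤ (1 + δ) * (alpha (EE i)).toReal := by
    intro i
    refine coeff_le_alpha (g := fun z => ∑ c with Fam.grp c = i, u c * Fam.G c z) (hEEc i)
      ?_ ?_ ?_ ?_ (hu1 i)
    · exact continuous_finsetSum _ fun c _ => continuous_const.mul (Fam.hG c).cont
    · refine DifferentiableOn.fun_sum fun c hc => ?_
      have hci : Fam.grp c = i := (Finset.mem_filter.1 hc).2
      refine ((Fam.hG c).holo.mono (Set.compl_subset_compl.2 ?_)).const_mul _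
      rw [← hci]
      exact Set.inter_subset_left
    · have h3 := tendsto_finsetSum (Finset.univ.filter fun c => Fam.grp c = i)
        (fun c _ => (Fam.hG c).coef.zero.const_mul (u c))
      simpa using h3
    · have h3 := tendsto_finsetSum (Finset.univ.filter fun c => Fam.grp c = i)
        (fun c _ => (Fam.hG c).coef.ca.const_mul (u c))
      refine h3.congr fun z => ?_
      rw [Finset.mul_sum]
      exact Finset.sum_congr rfl fun c _ => by ring
  have h3 : ∑ i, ‖∑ c with Fam.grp c = i, u c * Fam.α c‖ ≤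
      (1 + δ) * ((alpha E₁).toReal + (alpha E₂).toReal) := by
    rw [Fin.sum_univ_two, mul_add]
    exact add_le_add (hco 0) (hco 1)
  calc ‖a‖ ≤ (1 + δ) ^ 2 * ∑ i, ‖∑ c with Fam.grp c = i, u c * Fam.α c‖ + η := hu2
    _ ≤ (1 + δ) ^ 2 * ((1 + δ) * ((alpha E₁).toReal + (alpha E₂).toReal)) + η :=
        add_le_add (mul_le_mul_of_nonneg_left h3 (by positivity)) le_rfl
    _ = (1 + δ) ^ 3 * ((alpha E₁).toReal + (alpha E₂).toReal) + η := by ring

theorem alpha_subadditive {E₁ E₂ : Set ℂ} (h1 : IsCompact E₁) (h2 : IsCompact E₂) :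
    alpha (E₁ ∪ E₂) ≤ alpha E₁ + alpha E₂ := by
  rw [alpha_le_iff]
  intro f a hf
  have hS : alpha E₁ + alpha E₂ =
      ENNReal.ofReal ((alpha E₁).toReal + (alpha E₂).toReal) := by
    rw [ENNReal.ofReal_add ENNReal.toReal_nonneg ENNReal.toReal_nonneg,
      ENNReal.ofReal_toReal (alpha_ne_top h1), ENNReal.ofReal_toReal (alpha_ne_top h2)]
  rw [hS]
  refine ENNReal.ofReal_le_ofReal ?_
  set S : ℝ := (alpha E₁).toReal + (alpha E₂).toReal with hSdef
  have hlim : Tendsto (fun δ : ℝ => (1 + δ) ^ 3 * S) (𝓝[>] 0) (𝓝 S) := by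
    have h3 : Continuous (fun δ : ℝ => (1 + δ) ^ 3 * S) := by fun_prop
    have h4 := h3.tendsto 0
    simp only [add_zero, one_pow, one_mul] at h4
    exact h4.mono_left nhdsWithin_le_nhds
  refine ge_of_tendsto hlim ?_
  have h3 : Set.Ioc (0 : ℝ) 1 ∈ 𝓝[>] (0 : ℝ) := Ioc_mem_nhdsGT one_pos
  filter_upwards [h3] with δ hδ
  exact fin_key h1 h2 hf hδ.1 hδ.2

end Pool.Agent.SV
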