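import Mathlib

/-!
# ST-R1: control of the first two cumulative sums in one group (pure algebra of finite sums)

PROOF. Let `M₀ = ∑_{k<n} α k ∈ [10000 s, 10003 s]`.
Left block: let `p` be minimal with `m₁ = ∑_{k<p} α k ≥ 2500 s` (so `m₁ ≤ 2503 s`, `p ≥ 1`).
Right block: let `q ≤ n` be maximal with `m₂ = ∑_{q≤k<n} α k ≥ 2500 s` (so `m₂ ≤ 2503 s`).
The mass between is at least `10000 s - 5006 s ≥ 4900 s`, each `α k ≤ 3 s`, so `p < q` and
`q - p ≥ 1600`.
Put `v k = - w * m₂ / m₁` for `k < p`, `v k = w` for `q ≤ k < n`, and `v k = 0` otherwise. Then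
`∑_{k<n} v k * α k = 0`. As
`∑_{k<n} ∑_{l≤k} v l α l = ∑_{l<n} (n - l) v l α l = - ∑_l l v l α l`, the second condition reads
`w * den = e₀`, with `e₀ = ∑_{k<n} e k`,
`den = ∑_{k≥q} (b k + s k α k) - (m₂/m₁) ∑_{k<p} (b k + s k α k)`.
Let `D = s * (∑_{k≥q} k α k - (m₂/m₁) ∑_{k<p} k α k)` (real). As `k ≥ q` in the first sum and
`k ≤ p` in the second, `D ≥ s * m₂ * (q - p) ≥ 1600 s m₂`; the `b` terms are at most `200 s m₂`.
So `‖den‖ ≥ D - 200 s m₂ ≥ (7/8) D ≥ 1400 s m₂ ≥ 1400 * 2500 * s ^ 2`. With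
`‖e₀‖ ≤ κ s * 10003 s` this gives `‖w‖ ≤ κ` (say), `‖w‖ * D ≤ (8/7) * 10003 * κ * s ^ 2`, and
`‖v k‖ ≤ 2 κ`.
First cumulative sums: `‖∑_{k<m} v k α k‖ ≤ ‖w‖ m₂ ≤ 2503 κ s`.
Second: the cumulative sums `∑_{l≤k} v l α l` are `- w * T_k` with `T_k ≥ 0` (left block:
`(m₂/m₁) ∑_{l≤k} α l`; middle: `m₂`; right block: `∑_{l>k} α l`), and `s * ∑_{k<n} T_k = D` (the
same computation with `w = -1`). So
`‖∑_{k<m} s * ∑_{l≤k} v l α l‖ ≤ ‖w‖ D`, the `e` part is at most `10003 κ s ^ 2` and the `b` part at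
most `2 κ * 100 s * 10003 s`. Any constant like `C = 10 ^ 8` works.
-/

set_option autoImplicit false

open Finset

namespace Pool.Agent.SV

private lemma r1_ivt (s : ℝ) (hs : 0 < s) (α : ℕ → ℝ) (h3 : ∀ k, α k ≤ 3 * s) (c : ℝ)
    (hc : 0 ≤ c) : ∀ n : ℕ, c ≤ ∑ k ∈ range n, α k →
      ∃ p ≤ n, c ≤ ∑ k ∈ range p, α k ∧ ∑ k ∈ range p, α k ≤ c + 3 * s := by
  intro n
  induction n with
  | zero =>
    intro h
    refine ⟨0, le_rfl, h, ?_⟩
    simp only [range_zero, sum_empty]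
    linarith
  | succ n ih =>
    intro h
    by_cases h' : c ≤ ∑ k ∈ range n, α k
    · obtain ⟨p, hp, h1, h2⟩ := ih h'
      exact ⟨p, by omega, h1, h2⟩
    · refine ⟨n + 1, le_rfl, h, ?_⟩
      rw [sum_range_succ]
      have := h3 n
      push Not at h'
      linarith

/-- the weight with value `x` on `[0,p)`, `0` on `[p,q)`, `y` on `[q,n)` and `0` from `n` on -/
private noncomputable def r1w (p q n : ℕ) (x y : ℝ) (k : ℕ) : ℝ :=
  if k < p then x else if k < q then 0 else if k < n then y else 0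

private lemma r1w_sum1 (p q n : ℕ) (x y : ℝ) (α : ℕ → ℝ) (m : ℕ) (hm : m ≤ p) :
    ∑ k ∈ range m, r1w p q n x y k * α k = x * ∑ k ∈ range m, α k := by
  rw [mul_sum]
  refine sum_congr rfl fun k hk => ?_
  rw [mem_range] at hk
  rw [r1w, if_pos (by omega)]

private lemma r1w_sum2 (p q n : ℕ) (x y : ℝ) (α : ℕ → ℝ) (m : ℕ) (hm : p ≤ m) (hmq : m ≤ q) :
    ∑ k ∈ range m, r1w p q n x y k * α k = x * ∑ k ∈ range p, α k := by
  induction m, hm using Nat.le_induction with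
  | base => exact r1w_sum1 p q n x y α p le_rfl
  | succ m hm ih =>
    rw [sum_range_succ, ih (by omega), r1w, if_neg (by omega), if_pos (by omega)]
    ring

private lemma r1w_sum3 (p q n : ℕ) (hpq : p ≤ q) (x y : ℝ) (α : ℕ → ℝ) (m : ℕ) (hm : q ≤ m)
    (hmn : m ≤ n) :
    ∑ k ∈ range m, r1w p q n x y k * α k = x * ∑ k ∈ range p, α k +
      y * (∑ k ∈ range m, α k - ∑ k ∈ range q, α k) := by
  induction m, hm using Nat.le_induction with
  | base => rw [r1w_sum2 p q n x y α q hpq le_rfl]; ring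
  | succ m hm ih =>
    rw [sum_range_succ, ih (by omega), sum_range_succ, r1w, if_neg (by omega),
      if_neg (by omega), if_pos (by omega)]
    ring

private lemma r1_split (s : ℝ) (hs : 0 < s) (n : ℕ) (α : ℕ → ℝ) (h0 : ∀ k, 0 ≤ α k)
    (h3 : ∀ k, α k ≤ 3 * s) (hl : 10000 * s ≤ ∑ k ∈ range n, α k) :
    ∃ χ : ℕ → ℝ, (∀ k, |χ k| ≤ 2) ∧ (∀ k, n ≤ k → χ k = 0) ∧ ∑ k ∈ range n, χ k * α k = 0 ∧
      (∀ m ≤ n, |∑ k ∈ range m, χ k * α k| ≤ 2503 * s) ∧
      (∀ m ≤ n, ∑ k ∈ range m, χ k * α k ≤ 0) ∧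
      1600 * (2500 * s) ≤ ∑ k ∈ range n, (-(∑ l ∈ range (k + 1), χ l * α l)) ∧
      800 * ∑ k ∈ range n, |χ k| * α k ≤ ∑ k ∈ range n, (-(∑ l ∈ range (k + 1), χ l * α l)) := by
  have hmono : Monotone (fun m => ∑ k ∈ range m, α k) := by
    intro a b hab
    exact sum_le_sum_of_subset_of_nonneg (range_mono hab) (fun i _ _ => h0 i)
  obtain ⟨p, hpn, hp1, hp2⟩ := r1_ivt s hs α h3 (2500 * s) (by positivity) n (by linarith)
  obtain ⟨q, hqn, hq1, hq2⟩ := r1_ivt s hs α h3 (∑ k ∈ range n, α k - 2503 * s) (by linarith) n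
    (by linarith)
  set m₁ := ∑ k ∈ range p, α k with hm₁
  set m₂ := ∑ k ∈ range n, α k - ∑ k ∈ range q, α k with hm₂
  have hm₂1 : 2500 * s ≤ m₂ := by rw [hm₂]; linarith
  have hm₂2 : m₂ ≤ 2503 * s := by rw [hm₂]; linarith
  have hm₁0 : 0 < m₁ := by linarith [mul_pos (show (0 : ℝ) < 2500 by norm_num) hs]
  have hm₂0 : 0 < m₂ := by linarith [mul_pos (show (0 : ℝ) < 2500 by norm_num) hs]
  have hpq : p < q := by
    by_contra hcon
    push Not at hcon
    have := hmono hcon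
    simp only at this
    linarith
  have hgap : (1600 : ℝ) ≤ ((q - p : ℕ) : ℝ) := by
    have h1 : ∑ k ∈ range q, α k - ∑ k ∈ range p, α k = ∑ k ∈ Ico p q, α k := by
      rw [sum_Ico_eq_sub _ hpq.le]
    have h2 : ∑ k ∈ Ico p q, α k ≤ ((q - p : ℕ) : ℝ) * (3 * s) := by
      have := sum_le_card_nsmul (Ico p q) α (3 * s) (fun k _ => h3 k)
      rwa [Nat.card_Ico, nsmul_eq_mul] at this
    have h4 : 4994 * s ≤ ((q - p : ℕ) : ℝ) * (3 * s) := by linarith
    by_contra hcon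
    push Not at hcon
    have h5 : ((q - p : ℕ) : ℝ) * (3 * s) ≤ 1600 * (3 * s) :=
      mul_le_mul_of_nonneg_right hcon.le (by positivity)
    linarith
  set x : ℝ := m₂ / m₁ with hx
  have hx0 : 0 ≤ x := div_nonneg hm₂0.le hm₁0.le
  have hx2 : x ≤ 2 := by rw [hx, div_le_iff₀ hm₁0]; linarith
  have hxm : x * m₁ = m₂ := by rw [hx, div_mul_cancel₀ _ hm₁0.ne']
  -- the sums
  have hX1 : ∀ m ≤ p, ∑ k ∈ range m, r1w p q n (-x) 1 k * α k = -x * ∑ k ∈ range m, α k :=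
    fun m hm => r1w_sum1 _ _ _ _ _ _ m hm
  have hX2 : ∀ m, p ≤ m → m ≤ q → ∑ k ∈ range m, r1w p q n (-x) 1 k * α k = -m₂ := by
    intro m h1 h2
    rw [r1w_sum2 _ _ _ _ _ _ m h1 h2, ← hm₁, neg_mul, hxm]
  have hX3 : ∀ m, q ≤ m → m ≤ n → ∑ k ∈ range m, r1w p q n (-x) 1 k * α k =
      -m₂ + (∑ k ∈ range m, α k - ∑ k ∈ range q, α k) := by
    intro m h1 h2
    rw [r1w_sum3 _ _ _ hpq.le _ _ _ m h1 h2, ← hm₁, neg_mul, hxm, one_mul]
  have hXle : ∀ m ≤ n, ∑ k ∈ range m, r1w p q n (-x) 1 k * α k ≤ 0 ∧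
      -m₂ ≤ ∑ k ∈ range m, r1w p q n (-x) 1 k * α k := by
    intro m hm
    rcases le_total m p with h1 | h1
    · rw [hX1 m h1]
      have h2 : 0 ≤ ∑ k ∈ range m, α k := sum_nonneg fun k _ => h0 k
      have h4 : ∑ k ∈ range m, α k ≤ m₁ := hmono h1
      have h5 := mul_nonneg hx0 h2
      have h6 := mul_le_mul_of_nonneg_left h4 hx0
      constructor
      · linarith
      · linarith
    · rcases le_total m q with h2 | h2
      · rw [hX2 m h1 h2]
        constructor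
        · linarith
        · exact le_rfl
      · rw [hX3 m h2 hm]
        have h4 : ∑ k ∈ range q, α k ≤ ∑ k ∈ range m, α k := hmono h2
        have h5 : ∑ k ∈ range m, α k ≤ ∑ k ∈ range n, α k := hmono hm
        constructor
        · linarith
        · linarith
  have hT : 1600 * m₂ ≤ ∑ k ∈ range n, (-(∑ l ∈ range (k + 1), r1w p q n (-x) 1 l * α l)) := by
    have h1 : ∑ k ∈ Ico p q, (-(∑ l ∈ range (k + 1), r1w p q n (-x) 1 l * α l)) ≤
        ∑ k ∈ range n, (-(∑ l ∈ range (k + 1), r1w p q n (-x) 1 l * α l)) := by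
      apply sum_le_sum_of_subset_of_nonneg
      · intro k hk
        rw [mem_Ico] at hk
        rw [mem_range]
        omega
      · intro k hk _
        rw [mem_range] at hk
        have := (hXle (k + 1) (by omega)).1
        linarith
    have h2 : ∑ k ∈ Ico p q, (-(∑ l ∈ range (k + 1), r1w p q n (-x) 1 l * α l)) =
        ((q - p : ℕ) : ℝ) * m₂ := by
      rw [sum_congr rfl (g := fun _ => m₂), sum_const, Nat.card_Ico, nsmul_eq_mul]
      intro k hk
      rw [mem_Ico] at hk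
      rw [hX2 (k + 1) (by omega) (by omega), neg_neg]
    have h4 := mul_le_mul_of_nonneg_right hgap hm₂0.le
    linarith
  refine ⟨r1w p q n (-x) 1, ?_, ?_, ?_, ?_, fun m hm => (hXle m hm).1, ?_, ?_⟩
  · intro k
    rw [r1w]
    split_ifs
    · rw [abs_neg, abs_of_nonneg hx0]; exact hx2
    · simp
    · simp
    · simp
  · intro k hk
    rw [r1w, if_neg (by omega), if_neg (by omega), if_neg (by omega)]
  · rw [hX3 n hqn le_rfl]; ring
  · intro m hm
    rw [abs_le]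
    have := hXle m hm
    constructor
    · linarith
    · linarith [mul_pos (show (0 : ℝ) < 2503 by norm_num) hs]
  · linarith
  · have h1 : ∑ k ∈ range n, |r1w p q n (-x) 1 k| * α k =
        ∑ k ∈ range n, r1w p q n x 1 k * α k := by
      refine sum_congr rfl fun k _ => ?_
      congr 1
      rw [r1w, r1w]
      split_ifs
      · rw [abs_neg, abs_of_nonneg hx0]
      · simp
      · simp
      · simp
    rw [h1, r1w_sum3 _ _ _ hpq.le _ _ _ n hqn le_rfl, ← hm₁, hxm, ← hm₂]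
    linarith

theorem group_control : ∃ C : ℝ, 0 < C ∧ ∀ (s κ : ℝ), 0 < s → 0 ≤ κ → ∀ (n : ℕ) (α : ℕ → ℝ)
    (b e : ℕ → ℂ), (∀ k, 0 ≤ α k) → (∀ k, α k ≤ 3 * s) → (∀ k, ‖b k‖ ≤ 100 * s * α k) →
    (∀ k, ‖e k‖ ≤ κ * s * α k) → 10000 * s ≤ ∑ k ∈ range n, α k →
    ∑ k ∈ range n, α k ≤ 10003 * s →
    ∃ v : ℕ → ℂ, (∀ k, ‖v k‖ ≤ C * κ) ∧ (∀ k, n ≤ k → v k = 0) ∧
      ∑ k ∈ range n, v k * α k = 0 ∧
      ∑ k ∈ range n, (e k - v k * b k + s * ∑ l ∈ range (k + 1), v l * α l) = 0 ∧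
      (∀ m ≤ n, ‖∑ k ∈ range m, v k * α k‖ ≤ C * κ * s) ∧
      (∀ m ≤ n, ‖∑ k ∈ range m, (e k - v k * b k + s * ∑ l ∈ range (k + 1), v l * α l)‖
        ≤ C * κ * s ^ 2) := by
  refine ⟨10 ^ 8, by norm_num, ?_⟩
  intro s κ hs hκ n α b e h0 h3 hb he hl hu
  obtain ⟨χ, hχ2, hχn, hχ0, hχm, hχneg, hT1, hT2⟩ := r1_split s hs n α h0 h3 hl
  set T := ∑ k ∈ range n, (-(∑ l ∈ range (k + 1), χ l * α l)) with hT
  have hT0 : 0 < T := by
    have : 0 < 1600 * (2500 * s) := by positivity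
    linarith
  -- the `b` part
  have hB : ∀ m ≤ n, ‖∑ k ∈ range m, (χ k : ℂ) * b k‖ ≤ s * T / 8 := by
    intro m hm
    have h1 : ‖∑ k ∈ range m, (χ k : ℂ) * b k‖ ≤ ∑ k ∈ range m, 100 * s * (|χ k| * α k) := by
      refine (norm_sum_le _ _).trans (sum_le_sum fun k _ => ?_)
      rw [norm_mul, Complex.norm_real, Real.norm_eq_abs]
      have := mul_le_mul_of_nonneg_left (hb k) (abs_nonneg (χ k))
      linarith
    have h2 : ∑ k ∈ range m, 100 * s * (|χ k| * α k) ≤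
        ∑ k ∈ range n, 100 * s * (|χ k| * α k) := by
      apply sum_le_sum_of_subset_of_nonneg (range_mono hm)
      intro k _ _
      have := h0 k
      positivity
    rw [← mul_sum, ← mul_sum] at h2
    rw [← mul_sum] at h1
    have h4 := mul_le_mul_of_nonneg_left hT2 hs.le
    have h5 : 100 * s * ∑ k ∈ range n, |χ k| * α k = (s * (800 * ∑ k ∈ range n, |χ k| * α k)) / 8 := by
      ring
    linarith
  -- the `e` part
  have hE : ∀ m ≤ n, ‖∑ k ∈ range m, e k‖ ≤ 10003 * κ * s ^ 2 := by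
    intro m hm
    have h1 : ‖∑ k ∈ range m, e k‖ ≤ ∑ k ∈ range m, κ * s * α k :=
      (norm_sum_le _ _).trans (sum_le_sum fun k _ => he k)
    have h2 : ∑ k ∈ range m, κ * s * α k ≤ ∑ k ∈ range n, κ * s * α k := by
      apply sum_le_sum_of_subset_of_nonneg (range_mono hm)
      intro k _ _
      have := h0 k
      positivity
    rw [← mul_sum, ← mul_sum] at h2
    rw [← mul_sum] at h1
    have h4 := mul_le_mul_of_nonneg_left hu (mul_nonneg hκ hs.le)
    have h5 : κ * s * (10003 * s) = 10003 * κ * s ^ 2 := by ring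
    linarith
  -- partial sums of the cumulative sums
  have hCum : ∀ m ≤ n, |∑ k ∈ range m, ∑ l ∈ range (k + 1), χ l * α l| ≤ T := by
    intro m hm
    have h1 : ∑ k ∈ range m, (-(∑ l ∈ range (k + 1), χ l * α l)) ≤ T := by
      rw [hT]
      apply sum_le_sum_of_subset_of_nonneg (range_mono hm)
      intro k hk _
      rw [mem_range] at hk
      have := hχneg (k + 1) (by omega)
      linarith
    have h2 : 0 ≤ ∑ k ∈ range m, (-(∑ l ∈ range (k + 1), χ l * α l)) := by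
      apply sum_nonneg
      intro k hk
      rw [mem_range] at hk
      have := hχneg (k + 1) (by omega)
      linarith
    rw [sum_neg_distrib] at h1 h2
    rw [abs_le]
    constructor <;> linarith
  set den : ℂ := ∑ k ∈ range n, (χ k : ℂ) * b k + ((s * T : ℝ) : ℂ) with hden
  have hdenN : 7 / 8 * (s * T) ≤ ‖den‖ := by
    have h1 := hB n le_rfl
    have h2 : ‖((s * T : ℝ) : ℂ)‖ = s * T := by
      rw [Complex.norm_real, Real.norm_eq_abs, abs_of_pos (mul_pos hs hT0)]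
    have h4 := norm_sub_le den (∑ k ∈ range n, (χ k : ℂ) * b k)
    have h5 : den - ∑ k ∈ range n, (χ k : ℂ) * b k = ((s * T : ℝ) : ℂ) := by
      rw [hden]; ring
    rw [h5, h2] at h4
    linarith
  have hsT : 0 < s * T := mul_pos hs hT0
  have hdenpos : 0 < ‖den‖ := by linarith
  have hdenne : den ≠ 0 := norm_pos_iff.1 hdenpos
  set w : ℂ := (∑ k ∈ range n, e k) / den with hw
  have hwT : ‖w‖ * (s * T) ≤ 8 / 7 * (10003 * κ * s ^ 2) := by
    rw [hw, norm_div, div_mul_eq_mul_div, div_le_iff₀ hdenpos]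
    have h1 := mul_le_mul_of_nonneg_right (hE n le_rfl) hsT.le
    have h2 : 0 ≤ 8 / 7 * (10003 * κ * s ^ 2) := by positivity
    have h4 := mul_le_mul_of_nonneg_left hdenN h2
    linarith
  have hwκ : ‖w‖ ≤ κ := by
    have h1 : 4000000 * s ^ 2 ≤ s * T := by
      have := mul_le_mul_of_nonneg_left hT1 hs.le
      have h2 : s * (1600 * (2500 * s)) = 4000000 * s ^ 2 := by ring
      linarith
    have h2 := mul_le_mul_of_nonneg_left h1 (norm_nonneg w)
    have h4 : ‖w‖ * (4000000 * s ^ 2) ≤ κ * (4000000 * s ^ 2) := by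
      have : 0 ≤ κ * s ^ 2 := by positivity
      linarith
    exact le_of_mul_le_mul_right h4 (by positivity)
  have hcum : ∀ m, ∑ k ∈ range m, (w * (χ k : ℂ)) * (α k : ℂ) =
      w * ((∑ k ∈ range m, χ k * α k : ℝ) : ℂ) := by
    intro m
    rw [Complex.ofReal_sum, mul_sum]
    refine sum_congr rfl fun k _ => ?_
    push_cast
    ring
  have hsecond : ∀ m, ∑ k ∈ range m, (e k - (w * (χ k : ℂ)) * b k +
      s * ∑ l ∈ range (k + 1), (w * (χ l : ℂ)) * (α l : ℂ)) =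
      ∑ k ∈ range m, e k - w * (∑ k ∈ range m, (χ k : ℂ) * b k) +
        w * ((s * ∑ k ∈ range m, ∑ l ∈ range (k + 1), χ l * α l : ℝ) : ℂ) := by
    intro m
    rw [sum_add_distrib, sum_sub_distrib]
    congr 1
    · congr 1
      rw [mul_sum]
      refine sum_congr rfl fun k _ => ?_
      ring
    · rw [Complex.ofReal_mul, Complex.ofReal_sum, mul_sum, mul_sum]
      refine sum_congr rfl fun k _ => ?_
      rw [hcum]
      ring
  refine ⟨fun k => w * (χ k : ℂ), ?_, ?_, ?_, ?_, ?_, ?_⟩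
  · intro k
    simp only
    rw [norm_mul, Complex.norm_real, Real.norm_eq_abs]
    have h1 := mul_le_mul hwκ (hχ2 k) (abs_nonneg _) hκ
    have h2 : κ * 2 ≤ 10 ^ 8 * κ := by nlinarith
    linarith
  · intro k hk
    simp only
    rw [hχn k hk]
    simp
  · rw [hcum, hχ0]
    simp
  · rw [hsecond]
    have h1 : (s * ∑ k ∈ range n, ∑ l ∈ range (k + 1), χ l * α l : ℝ) = -(s * T) := by
      rw [hT, sum_neg_distrib]; ring
    rw [h1]
    have h2 : w * den = ∑ k ∈ range n, e k := by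
      rw [hw, div_mul_cancel₀ _ hdenne]
    rw [← h2, hden]
    push_cast
    ring
  · intro m hm
    rw [hcum, norm_mul, Complex.norm_real, Real.norm_eq_abs]
    have h1 := mul_le_mul hwκ (hχm m hm) (abs_nonneg _) hκ
    have h2 : 0 ≤ κ * s := by positivity
    have h4 : κ * (2503 * s) ≤ 10 ^ 8 * κ * s := by nlinarith
    linarith
  · intro m hm
    rw [hsecond]
    have h1 := hE m hm
    have h2 : ‖w * (∑ k ∈ range m, (χ k : ℂ) * b k)‖ ≤ ‖w‖ * (s * T / 8) := by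
      rw [norm_mul]
      exact mul_le_mul_of_nonneg_left (hB m hm) (norm_nonneg _)
    have h4 : ‖w * ((s * ∑ k ∈ range m, ∑ l ∈ range (k + 1), χ l * α l : ℝ) : ℂ)‖ ≤
        ‖w‖ * (s * T) := by
      rw [norm_mul, Complex.norm_real, Real.norm_eq_abs, abs_mul, abs_of_pos hs]
      exact mul_le_mul_of_nonneg_left (mul_le_mul_of_nonneg_left (hCum m hm) hs.le)
        (norm_nonneg _)
    have h5 := norm_add_le (∑ k ∈ range m, e k - w * (∑ k ∈ range m, (χ k : ℂ) * b k))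
      (w * ((s * ∑ k ∈ range m, ∑ l ∈ range (k + 1), χ l * α l : ℝ) : ℂ))
    have h6 := norm_sub_le (∑ k ∈ range m, e k) (w * (∑ k ∈ range m, (χ k : ℂ) * b k))
    have h7 : 0 ≤ κ * s ^ 2 := by positivity
    nlinarith

end Pool.Agent.SV
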