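import Pool.Agent.Helper11.ST.RowControl2

/-!
# ST-R2: control of the first two cumulative sums in a row

PROOF. Strong induction on `n` with `C = max C₁ 10000`, `C₁` the constant of `group_control`.
If `∑_{k<n} α k < 10000 s`, take `v = 0`: then `‖∑_{k<m} e k‖ ≤ κ s ∑_{k<n} α k ≤ 10000 κ s ^ 2`.
Otherwise let `p ≤ n` be minimal with `∑_{k<p} α k ≥ 10000 s` (so `p ≥ 1` and the sum is
`≤ 10003 s`); apply `group_control` to `p` (result `v₁`) and the induction hypothesis to the tail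
`k ↦ α (k + p)` etc. with `n - p` (result `v₂`), `v k = v₁ k` for `k < p`, `v k = v₂ (k - p)` for
`k ≥ p`. At `p` both cumulative sums vanish, so for `m > p` the cumulative sums of `v` at `m` are
those of `v₂` at `m - p`.
-/

set_option autoImplicit false

open Finset

namespace Pool.Agent.SV

theorem row_control : ∃ C : ℝ, 0 < C ∧ ∀ (s κ : ℝ), 0 < s → 0 ≤ κ → ∀ (n : ℕ) (α : ℕ → ℝ)
    (b e : ℕ → ℂ), (∀ k, 0 ≤ α k) → (∀ k, α k ≤ 3 * s) → (∀ k, ‖b k‖ ≤ 100 * s * α k) →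
    (∀ k, ‖e k‖ ≤ κ * s * α k) →
    ∃ v : ℕ → ℂ, (∀ k, ‖v k‖ ≤ C * κ) ∧ (∀ k, n ≤ k → v k = 0) ∧
      ∑ k ∈ range n, v k * α k = 0 ∧
      (∀ m ≤ n, ‖∑ k ∈ range m, v k * α k‖ ≤ C * κ * s) ∧
      (∀ m ≤ n, ‖∑ k ∈ range m, (e k - v k * b k + s * ∑ l ∈ range (k + 1), v l * α l)‖
        ≤ C * κ * s ^ 2) :=
  Pool.Agent.ST.row_control2

end Pool.Agent.SV
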