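import Pool.Agent.Helper53.ST.Defs
import Pool.Agent.Helper53.AC.C1
import Pool.Agent.Helper53.AC.C2

/-!
# ST-W1: the capacity with a modulus of continuity

All statements are elementary. The set in the definition of `capW` contains `0` and is bounded
above by `(alpha P).toReal` (`AF.coef_le` with `M = 1`). `exists_WCls`: take an element
`t > capW W P / 2` of the set, multiply the function by `conj a / ‖a‖` (the modulus of continuity
does not change) and use `AF.recenter`.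
-/

set_option autoImplicit false

open Complex Filter Topology Metric
open scoped ComplexConjugate

namespace Pool.Agent.SV

open Pool.Agent.Helper53.CAC

private theorem capW_bdd (W : ℝ → ℝ) {P : Set ℂ} (hP : IsCompact P) :
    ∀ t ∈ {t : ℝ | t = 0 ∨ ∃ (x : ℂ) (h : ℂ → ℂ) (a b : ℂ), WCls W P x h a b ∧ t = ‖a‖},
      t ≤ (alpha P).toReal := by
  rintro t (rfl | ⟨x, h, a, b, hc, rfl⟩)
  · exact ENNReal.toReal_nonneg
  · have := hc.af.coef_le hP hc.bound
    rwa [one_mul] at this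

theorem capW_nonneg (W : ℝ → ℝ) {P : Set ℂ} (hP : IsCompact P) : 0 ≤ capW W P :=
  le_csSup ⟨_, capW_bdd W hP⟩ (Or.inl rfl)

theorem WCls.le_capW {W : ℝ → ℝ} {P : Set ℂ} (hP : IsCompact P) {x : ℂ} {h : ℂ → ℂ} {a b : ℂ}
    (hc : WCls W P x h a b) : ‖a‖ ≤ capW W P :=
  le_csSup ⟨_, capW_bdd W hP⟩ (Or.inr ⟨x, h, a, b, hc, rfl⟩)

theorem capW_le_alpha (W : ℝ → ℝ) {P : Set ℂ} (hP : IsCompact P) :
    capW W P ≤ (alpha P).toReal :=
  csSup_le ⟨0, Or.inl rfl⟩ (capW_bdd W hP)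

theorem exists_WCls {W : ℝ → ℝ} {P : Set ℂ} (hP : IsCompact P) (x : ℂ) (h : 0 < capW W P) :
    ∃ (g : ℂ → ℂ) (a : ℝ) (b : ℂ), WCls W P x g a b ∧ 0 < a ∧ capW W P ≤ 2 * a := by
  have hne : {t : ℝ | t = 0 ∨ ∃ (x : ℂ) (h : ℂ → ℂ) (a b : ℂ),
      WCls W P x h a b ∧ t = ‖a‖}.Nonempty := ⟨0, Or.inl rfl⟩
  obtain ⟨t, ht, hlt⟩ := exists_lt_of_lt_csSup hne (half_lt_self h)
  have ht0 : 0 < t := (half_pos h).trans hlt
  rcases ht with ht | ⟨y, f, a, b, hc, hta⟩
  · exact absurd ht ht0.ne'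
  · have ha : 0 < ‖a‖ := hta ▸ ht0
    have ha' : (‖a‖ : ℂ) ≠ 0 := by
      rw [Ne, Complex.ofReal_eq_zero]
      exact ha.ne'
    have hca : conj a / (‖a‖ : ℂ) * a = (‖a‖ : ℂ) := by
      rw [div_mul_eq_mul_div, div_eq_iff ha', mul_comm, Complex.mul_conj, Complex.normSq_eq_norm_sq]
      push_cast
      ring
    have hcn : ‖conj a / (‖a‖ : ℂ)‖ = 1 := by
      rw [norm_div, Complex.norm_conj, Complex.norm_real, norm_norm, div_self ha.ne']
    have hf := (hc.af.const_mul (conj a / (‖a‖ : ℂ))).recenter x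
    rw [hca] at hf
    refine ⟨_, ‖a‖, _, ⟨hf, ?_, ?_⟩, ha, ?_⟩
    · intro z
      rw [norm_mul, hcn, one_mul]
      exact hc.bound z
    · intro z z'
      rw [← mul_sub, norm_mul, hcn, one_mul]
      exact hc.mod z z'
    · rw [← hta]
      have h5 : capW W P / 2 < t := hlt
      linarith

end Pool.Agent.SV
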