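import Pool.Agent.Helper53.ST.W1
import Pool.Agent.Helper53.AC.G1
import Pool.Agent.Helper6.Ends.UltraLim

/-!
# ST-W9: passage to the limit in the sets

PROOF. Suppose not: for infinitely many `N` there are functions `h N` with
`WCls W (cthickening (ρ N) E ∩ closedBall x R) y (h N) (a N) (b N)` and
`‖a N‖ > (alpha E).toReal + ε / 2`. Take an ultrafilter `U ≤ atTop` on this infinite set and let
`h z` be the limit of `h N z` along `U` (compactness of the closed unit disc), `a` the limit of the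
`a N` (bounded: `AF.coef_le`). Then `‖h‖ ≤ 1`, `‖h z - h z'‖ ≤ W ‖z - z'‖`, so `h` is continuous
(`W ‖z - z'‖ → 0`); `h` is holomorphic off `E` (ultralimits of bounded holomorphic functions are
holomorphic, Helper6 `UltraLim`, see the proof of `gamma_outer` in AC/G1.lean: every point off `E`
has a disc which is disjoint from `cthickening (ρ N) E` for large `N`); at infinity use
`ext_schwarz` (AC/G1.lean) with one radius for all `N` (`closedBall x R` is bounded): `h → 0` and
`z h z → a`. So `h` is admissible for `E` with coefficient `a`, `‖a‖ ≤ (alpha E).toReal`,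
contradiction. (The case `R < 0` is trivial as well: the set is empty.)
-/

set_option autoImplicit false

open Complex Filter Topology Metric
open scoped ComplexConjugate

namespace Pool.Agent.SV

open Pool.Agent.Helper53.CAC

theorem capW_limit {E : Set ℂ} (hE : IsCompact E) {W : ℝ → ℝ}
    (hW : Tendsto W (𝓝[≥] 0) (𝓝 0)) (x : ℂ) (R : ℝ) {ρ : ℕ → ℝ} (hρ0 : ∀ N, 0 < ρ N)
    (hρ : Tendsto ρ atTop (𝓝 0)) {ε : ℝ} (hε : 0 < ε) :
    ∀ᶠ N in atTop, capW W (cthickening (ρ N) E ∩ closedBall x R) ≤ (alpha E).toReal + ε := by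
  classical
  by_contra hcon
  rw [not_eventually] at hcon
  set P : ℕ → Set ℂ := fun N => cthickening (ρ N) E ∩ closedBall x R with hP
  set S : Set ℕ := {N | ¬ capW W (P N) ≤ (alpha E).toReal + ε} with hS
  have hfreq : ∃ᶠ N in atTop, N ∈ S := hcon
  have hne : NeBot (atTop ⊓ 𝓟 S : Filter ℕ) := frequently_mem_iff_neBot.1 hfreq
  have hα0 : 0 ≤ (alpha E).toReal := ENNReal.toReal_nonneg
  have h1 : ∀ N, ∃ (f : ℂ → ℂ) (a : ℂ), (∀ z, ‖f z‖ ≤ 1) ∧ DifferentiableOn ℂ f (P N)ᶜ ∧
      Tendsto f (cocompact ℂ) (𝓝 0) ∧ Tendsto (fun z => z * f z) (cocompact ℂ) (𝓝 a) ∧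
      (N ∈ S → Mod W f ∧ (alpha E).toReal + ε < ‖a‖) := by
    intro N
    by_cases hN : N ∈ S
    · have hlt : (alpha E).toReal + ε < capW W (P N) := not_le.1 hN
      have hne : {t : ℝ | t = 0 ∨ ∃ (y : ℂ) (h : ℂ → ℂ) (a b : ℂ),
        WCls W (P N) y h a b ∧ t = ‖a‖}.Nonempty := ⟨0, Or.inl rfl⟩
      obtain ⟨t, ht, hlt'⟩ := exists_lt_of_lt_csSup hne hlt
      rcases ht with ht | ⟨y, h, a, b, hc, hta⟩
      · rw [ht] at hlt'
        linarith
      · exact ⟨h, a, hc.bound, hc.af.holo, hc.af.coef.zero, hc.af.coef.ca,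
          fun _ => ⟨hc.mod, hta ▸ hlt'⟩⟩
    · refine ⟨fun _ => 0, 0, fun z => by simp, differentiableOn_const _, tendsto_const_nhds,
        ?_, fun h => absurd h hN⟩
      simp
  choose f a hfb hfd hf0 hfa hfS using h1
  let U : Ultrafilter ℕ := Ultrafilter.of (atTop ⊓ 𝓟 S)
  have hU1 : (U : Filter ℕ) ≤ atTop := (Ultrafilter.of_le _).trans inf_le_left
  have hU2 : ∀ᶠ N in (U : Filter ℕ), N ∈ S :=
    ((Ultrafilter.of_le (atTop ⊓ 𝓟 S)).trans inf_le_right) (mem_principal_self S)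
  have hlimit : ∀ (u : ℕ → ℂ) (C : ℝ), (∀ n, ‖u n‖ ≤ C) → ∃ y : ℂ, Tendsto u (U : Filter ℕ) (𝓝 y) := by
    intro u C hu
    have hle : ((U.map u : Ultrafilter ℂ) : Filter ℂ) ≤ 𝓟 (closedBall (0 : ℂ) C) := by
      rw [le_principal_iff]
      change u ⁻¹' closedBall (0 : ℂ) C ∈ (U : Filter ℕ)
      refine mem_of_superset univ_mem fun n _ => ?_
      simp only [Set.mem_preimage, mem_closedBall_zero_iff]
      exact hu n
    obtain ⟨y, _, hy⟩ := (isCompact_closedBall (0 : ℂ) C).ultrafilter_le_nhds _ hle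
    exact ⟨y, hy⟩
  choose g hg using fun z : ℂ => hlimit (fun n => f n z) 1 fun n => hfb n z
  have hgb : ∀ z, ‖g z‖ ≤ 1 := fun z =>
    le_of_tendsto (hg z).norm (Eventually.of_forall fun n => hfb n z)
  have hgm : ∀ z z', ‖g z - g z'‖ ≤ W ‖z - z'‖ := by
    intro z z'
    refine le_of_tendsto ((hg z).sub (hg z')).norm ?_
    filter_upwards [hU2] with n hn
    exact (hfS n hn).1 z z'
  have hgc : Continuous g := by
    rw [continuous_iff_continuousAt]
    intro z
    rw [ContinuousAt, tendsto_iff_norm_sub_tendsto_zero]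
    have h2 : Tendsto (fun z' : ℂ => ‖z' - z‖) (𝓝 z) (𝓝[≥] 0) := by
      rw [tendsto_nhdsWithin_iff]
      refine ⟨?_, Eventually.of_forall fun z' => norm_nonneg _⟩
      exact tendsto_iff_norm_sub_tendsto_zero.1 tendsto_id
    exact squeeze_zero (fun z' => norm_nonneg _) (fun z' => hgm z' z) (hW.comp h2)
  have hgd : DifferentiableOn ℂ g Eᶜ := by
    intro z hz
    have h2 : z ∉ closure E := by rwa [hE.isClosed.closure_eq]
    rw [closure_eq_iInter_cthickening] at h2
    simp only [Set.mem_iInter, not_forall] at h2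
    obtain ⟨δ, hδ, h3⟩ := h2
    set D : Set ℂ := (cthickening δ E)ᶜ with hD
    have hDo : IsOpen D := isClosed_cthickening.isOpen_compl
    let G : ℕ → ℂ → ℂ := fun n => if ρ n ≤ δ then f n else 0
    have hGd : ∀ n, DifferentiableOn ℂ (G n) D := by
      intro n
      by_cases h : ρ n ≤ δ
      · simp only [G, if_pos h]
        refine (hfd n).mono (Set.compl_subset_compl.2 ?_)
        exact Set.inter_subset_left.trans (cthickening_mono h E)
      · simp only [G, if_neg h]
        exact differentiableOn_const _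
    have hGb : ∀ n, ∀ w ∈ D, ‖G n w‖ ≤ 1 := by
      intro n w _
      by_cases h : ρ n ≤ δ
      · simp only [G, if_pos h]
        exact hfb n w
      · simp only [G, if_neg h]
        simp
    obtain ⟨F, hF⟩ := Pool.Agent.EN.exists_ultralim hDo G hGd hGb U
    have hFd : DifferentiableOn ℂ F D :=
      hF.differentiableOn (Eventually.of_forall hGd) hDo
    have hev : ∀ᶠ n in (U : Filter ℕ), ρ n ≤ δ :=
      hU1 ((hρ.eventually_lt_const hδ).mono fun n hn => hn.le)
    have hFg : ∀ w ∈ D, g w = F w := by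
      intro w hw
      have h4 : Tendsto (fun n => f n w) (U : Filter ℕ) (𝓝 (F w)) := by
        refine (hF.tendsto_at hw).congr' ?_
        filter_upwards [hev] with n hn
        simp only [G, if_pos hn]
      exact tendsto_nhds_unique (hg w) h4
    exact ((hFd.congr hFg).differentiableAt (hDo.mem_nhds h3)).differentiableWithinAt
  set R' : ℝ := |R| + ‖x‖ + 1 with hR'
  have hR0 : 0 < R' := by positivity
  have hPR : ∀ n, {z : ℂ | R' < ‖z‖} ⊆ (P n)ᶜ := by
    intro n z hz hz2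
    have h3 : ‖z - x‖ ≤ R := by
      have := hz2.2
      rwa [mem_closedBall, dist_eq_norm] at this
    have h4 : ‖z‖ ≤ ‖z - x‖ + ‖x‖ := by
      calc ‖z‖ = ‖(z - x) + x‖ := by rw [sub_add_cancel]
        _ ≤ ‖z - x‖ + ‖x‖ := norm_add_le _ _
    have h5 : R ≤ |R| := le_abs_self R
    have h6 : R' < ‖z‖ := hz
    linarith
  have hSch : ∀ n z, R' < ‖z‖ → ‖f n z‖ ≤ 2 * R' / ‖z‖ ∧ ‖z * f n z - a n‖ ≤ 5 * R' ^ 2 / ‖z‖ ∧
      ‖a n‖ ≤ 2 * R' := fun n z hz =>
    ext_schwarz hR0 ((hfd n).mono (hPR n)) (fun w _ => hfb n w) (hf0 n) (hfa n) z hz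
  have haR : ∀ n, ‖a n‖ ≤ 2 * R' := by
    intro n
    refine (hSch n ((R' + 1 : ℝ) : ℂ) ?_).2.2
    rw [norm_real, Real.norm_of_nonneg (by linarith)]
    linarith
  obtain ⟨A, hA⟩ := hlimit a (2 * R') haR
  have hg0 : ∀ z, R' < ‖z‖ → ‖g z‖ ≤ 2 * R' / ‖z‖ := fun z hz =>
    le_of_tendsto (hg z).norm (Eventually.of_forall fun n => (hSch n z hz).1)
  have hg1 : ∀ z, R' < ‖z‖ → ‖z * g z - A‖ ≤ 5 * R' ^ 2 / ‖z‖ := fun z hz =>
    le_of_tendsto (((hg z).const_mul z).sub hA).norm
      (Eventually.of_forall fun n => (hSch n z hz).2.1)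
  have hev : ∀ᶠ z : ℂ in cocompact ℂ, R' < ‖z‖ :=
    (tendsto_norm_cocompact_atTop (E := ℂ)).eventually_gt_atTop _
  have hdec : ∀ C : ℝ, Tendsto (fun z : ℂ => C / ‖z‖) (cocompact ℂ) (𝓝 0) := fun C =>
    tendsto_const_nhds.div_atTop (tendsto_norm_cocompact_atTop (E := ℂ))
  have hadm : Admissible E g A := by
    refine ⟨hgc, hgb, ⟨E, hE, subset_rfl, hgd⟩, ?_, ?_⟩
    · refine squeeze_zero_norm' ?_ (hdec (2 * R'))
      filter_upwards [hev] with z hz using hg0 z hz
    · rw [tendsto_iff_norm_sub_tendsto_zero]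
      refine squeeze_zero' (Eventually.of_forall fun z => norm_nonneg _) ?_ (hdec (5 * R' ^ 2))
      filter_upwards [hev] with z hz using hg1 z hz
  have h2 : (alpha E).toReal + ε ≤ ‖A‖ := by
    refine ge_of_tendsto hA.norm ?_
    filter_upwards [hU2] with n hn
    exact (hfS n hn).2.le
  have h3 : ‖A‖ ≤ (alpha E).toReal :=
    (ENNReal.ofReal_le_iff_le_toReal (alpha_ne_top hE)).1 hadm.le_alpha
  linarith

end Pool.Agent.SV
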