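import Pool.Agent.Helper53.ST.W8
import Pool.Agent.Helper53.ST.W9

/-!
# ST-W10: semiadditivity with the constant 4

PROOF. `scale_induction` and `capW_limit` for `E₁` and `E₂`; then the supremum over the admissible
functions (`alpha` is an `iSup`, see the proof of `alpha_cover` in AC/B9.lean).
-/

set_option autoImplicit false

open Complex Filter Topology Metric
open scoped ComplexConjugate

namespace Pool.Agent.SV

open Pool.Agent.Helper53.CAC

theorem alpha_four {E₁ E₂ : Set ℂ} (h1 : IsCompact E₁) (h2 : IsCompact E₂) :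
    (alpha (E₁ ∪ E₂)).toReal ≤ 4 * ((alpha E₁).toReal + (alpha E₂).toReal) := by
  have hS : 0 ≤ 4 * ((alpha E₁).toReal + (alpha E₂).toReal) := by
    have e1 : 0 ≤ (alpha E₁).toReal := ENNReal.toReal_nonneg
    have e2 : 0 ≤ (alpha E₂).toReal := ENNReal.toReal_nonneg
    positivity
  refine ENNReal.toReal_le_of_le_ofReal hS ?_
  rw [alpha_le_iff]
  intro f a hf
  refine ENNReal.ofReal_le_ofReal ?_
  obtain ⟨W, R, ρ, hW, hρ0, hρ, h⟩ := scale_induction h1 h2 hf
  refine le_of_forall_pos_le_add fun ε hε => ?_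
  have k1 := capW_limit h1 hW 0 R hρ0 hρ (ε := ε / 8) (by positivity)
  have k2 := capW_limit h2 hW 0 R hρ0 hρ (ε := ε / 8) (by positivity)
  obtain ⟨N, hN1, hN2⟩ := (k1.and k2).exists
  have hN := h N
  linarith

end Pool.Agent.SV
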