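import Pool.Agent.Helper53.ST.W1

/-!
# ST-W2: the second coefficient; discs

`second_bound`. Let `k z = ((z - x) * g z - a) / (12 s)`. On `P` (inside `closedBall x (3 s)`) we
have `‖(z - x) g z - a‖ ≤ 3 s + ‖a‖ ≤ 6 s` (`AF.coef_le`, `alpha_toReal_le`), the function is
continuous, holomorphic off `P` and tends to `0` at infinity, so this holds everywhere (maximum
principle: `CAC` `max_ext` or the proof of `AF.second_le` in AC/C2.lean), `‖k‖ ≤ 1 / 2`. First
coefficient `b / (12 s)`, second one from `Coef.exists_of`. Modulus of `k` at `t = ‖z - z'‖`: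
if `t > s` then `W t ≥ 2`; if `t ≤ s` and one of the points is in `closedBall x (6 s)`, say
`‖z - x‖ ≤ 6 s`: `12 s ‖k z - k z'‖ ≤ ‖z - x‖ W t + t * 1 ≤ 6 s W t + t` and `W t ≥ 2 t / s`; if
both are outside `closedBall x (6 s)` and `t ≤ s` then the segment stays in `{5 s ≤ ‖ζ - x‖}`,
where `‖k'‖ ≤ (1 / 2) / (2 s)` (Cauchy estimate on discs of radius `2 s`, Mathlib
`Complex.norm_deriv_le_of_forall_mem_sphere_norm_le`; then
`Convex.norm_image_sub_le_of_norm_deriv_le` on a ball), so `‖k z - k z'‖ ≤ t / (4 s) ≤ W t`.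
Hence `‖b‖ / (12 s) ≤ capW W P`.

`base_fun`: `h z = conj (z - p) / r` if `‖z - p‖ ≤ r` and `r / (z - p)` otherwise, i.e.
`h z = F ((z - p) / r)`, `F u = conj u / max 1 (‖u‖ ^ 2)`. `F` is 1-Lipschitz: for `‖u‖ ≤ 1 < ‖u'‖`
put `q = u' / ‖u'‖ ^ 2`, then `‖u - u'‖ ^ 2 - ‖u - q‖ ^ 2 =
(1 - 1 / ‖u'‖ ^ 2) * (‖u'‖ ^ 2 + 1 - 2 Re (u * conj u')) ≥ 0`; for both outside
`‖1/u - 1/u'‖ = ‖u - u'‖ / (‖u‖ ‖u'‖)`.
-/

set_option autoImplicit false

open Complex Filter Topology Metric
open scoped ComplexConjugate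

namespace Pool.Agent.SV

open Pool.Agent.Helper53.CAC

theorem second_bound {W : ℝ → ℝ} {P : Set ℂ} {x : ℂ} {s : ℝ} (hs : 0 < s) (hP : IsCompact P)
    (hsub : P ⊆ closedBall x (3 * s)) (hW : ∀ t, 0 ≤ t → min 2 (2 * t / s) ≤ W t) {g : ℂ → ℂ}
    {a b : ℂ} (h : WCls W P x g a b) : ‖b‖ ≤ 12 * s * capW W P := by
  have hs3 : 0 < 3 * s := by linarith
  have ha : ‖a‖ ≤ 3 * s := by
    have h1 := h.af.coef_le hP h.bound
    have h2 := alpha_toReal_le hs3 hsub
    linarith
  have hs12 : (0 : ℝ) < 12 * s := by linarith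
  have hcast : ((12 : ℂ) * (s : ℂ)) = ((12 * s : ℝ) : ℂ) := by push_cast; ring
  have hn12 : ‖((12 : ℂ) * (s : ℂ))‖ = 12 * s := by
    rw [hcast, Complex.norm_real, Real.norm_of_nonneg hs12.le]
  set G : ℂ → ℂ := fun z => (z - x) * g z - a with hG
  have hGc : Continuous G :=
    ((continuous_id.sub continuous_const).mul h.af.cont).sub continuous_const
  have hGd : DifferentiableOn ℂ G Pᶜ := by
    refine DifferentiableOn.sub_const ?_ a
    exact (differentiableOn_id.sub_const x).mul h.af.holo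
  have hG0 : Tendsto G (cocompact ℂ) (𝓝 0) := by
    have := (h.af.coef.ca' x).sub (tendsto_const_nhds (x := a))
    rwa [sub_self] at this
  have hG1 : Tendsto (fun z => z * G z) (cocompact ℂ) (𝓝 b) := by
    have h1 : Tendsto (fun z => (z - x) * ((z - x) * g z - a) + x * G z) (cocompact ℂ)
        (𝓝 (b + x * 0)) := h.af.coef.cb.add (hG0.const_mul x)
    rw [mul_zero, add_zero] at h1
    exact h1.congr fun z => by simp only [hG]; ring
  have hbd : ∀ z ∈ P, ‖G z‖ ≤ 6 * s := by
    intro z hz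
    have h1 : ‖z - x‖ ≤ 3 * s := by
      have := hsub hz
      rwa [mem_closedBall, dist_eq_norm] at this
    calc ‖G z‖ ≤ ‖(z - x) * g z‖ + ‖a‖ := norm_sub_le _ _
      _ ≤ 3 * s * 1 + 3 * s := by
        rw [norm_mul]
        exact add_le_add (mul_le_mul h1 (h.bound z) (norm_nonneg _) hs3.le) ha
      _ = 6 * s := by ring
  have hall : ∀ z, ‖G z‖ ≤ 6 * s := by
    intro z
    have := max_ext hP hGc hGd hG0 hbd z
    rwa [norm_zero, max_eq_left (by positivity)] at this
  set k : ℂ → ℂ := fun z => G z / (12 * s) with hk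
  have hkc : Continuous k := hGc.div_const _
  have hkd : DifferentiableOn ℂ k Pᶜ := hGd.div_const _
  have hk0 : Tendsto k (cocompact ℂ) (𝓝 0) := by
    have := hG0.div_const ((12 : ℂ) * (s : ℂ))
    rwa [zero_div] at this
  have hk1 : Tendsto (fun z => z * k z) (cocompact ℂ) (𝓝 (b / (12 * s))) := by
    have := hG1.div_const ((12 : ℂ) * (s : ℂ))
    exact this.congr fun z => by simp only [hk]; ring
  have hkb : ∀ z, ‖k z‖ ≤ 1 / 2 := by
    intro z
    show ‖G z / (12 * s)‖ ≤ 1 / 2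
    rw [norm_div, hn12, div_le_iff₀ hs12]
    have := hall z
    linarith
  have h4 : {z | 3 * s < ‖z - x‖} ⊆ Pᶜ := by
    intro z hz hzP
    have h5 := hsub hzP
    rw [mem_closedBall, dist_eq_norm] at h5
    have h6 : 3 * s < ‖z - x‖ := hz
    linarith
  have hWlow : ∀ t, 0 ≤ t → t ≤ s → 2 * t / s ≤ W t := by
    intro t ht hts
    have h1 : 2 * t / s ≤ 2 := by
      rw [div_le_iff₀ hs]; linarith
    have h2 := hW t ht
    rwa [min_eq_right h1] at h2
  -- one of the points close to the set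
  have hnear : ∀ z z' : ℂ, ‖z - z'‖ ≤ s → ‖z - x‖ ≤ 6 * s → ‖k z - k z'‖ ≤ W ‖z - z'‖ := by
    intro z z' ht hz
    have e1 : k z - k z' = ((z - x) * (g z - g z') + (z - z') * g z') / (12 * s) := by
      simp only [hk, hG]
      rw [← sub_div]
      congr 1
      ring
    rw [e1, norm_div, hn12, div_le_iff₀ hs12]
    have h1 : ‖(z - x) * (g z - g z') + (z - z') * g z'‖ ≤
        6 * s * W ‖z - z'‖ + ‖z - z'‖ * 1 := by
      refine (norm_add_le _ _).trans ?_
      rw [norm_mul, norm_mul]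
      exact add_le_add (mul_le_mul hz (h.mod z z') (norm_nonneg _) (by linarith))
        (mul_le_mul_of_nonneg_left (h.bound z') (norm_nonneg _))
    have h2 := hWlow ‖z - z'‖ (norm_nonneg _) ht
    have h3 : 2 * ‖z - z'‖ ≤ W ‖z - z'‖ * s := by
      rwa [div_le_iff₀ hs] at h2
    have h5 : 0 ≤ ‖z - z'‖ := norm_nonneg _
    nlinarith
  have hmod : Mod W k := by
    intro z z'
    rcases lt_or_ge s ‖z - z'‖ with ht | ht
    · have h1 : (2 : ℝ) ≤ 2 * ‖z - z'‖ / s := by
        rw [le_div_iff₀ hs]; linarith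
      have h2 := hW ‖z - z'‖ (norm_nonneg _)
      rw [min_eq_left h1] at h2
      have h3 := norm_sub_le (k z) (k z')
      have h5 := hkb z
      have h6 := hkb z'
      linarith
    · rcases le_or_gt ‖z - x‖ (6 * s) with hz | hz
      · exact hnear z z' ht hz
      · rcases le_or_gt ‖z' - x‖ (6 * s) with hz' | hz'
        · have h1 := hnear z' z (by rwa [norm_sub_rev]) hz'
          rw [norm_sub_rev, norm_sub_rev z' z] at h1
          exact h1
        · have hfar : ∀ ζ ∈ closedBall z s, ∀ y ∈ closedBall ζ (2 * s), y ∈ Pᶜ := by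
            intro ζ hζ y hy
            apply h4
            show 3 * s < ‖y - x‖
            rw [mem_closedBall, dist_eq_norm] at hζ hy
            have h1 : ‖z - x‖ ≤ ‖y - x‖ + ‖y - ζ‖ + ‖ζ - z‖ := by
              have e : z - x = (y - x) - (y - ζ) - (ζ - z) := by ring
              rw [e]
              refine (norm_sub_le _ _).trans ?_
              have := norm_sub_le (y - x) (y - ζ)
              linarith
            linarith
          have hPo : IsOpen Pᶜ := hP.isClosed.isOpen_compl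
          have hda : ∀ ζ ∈ closedBall z s, DifferentiableAt ℂ k ζ := by
            intro ζ hζ
            exact hkd.differentiableAt (hPo.mem_nhds
              (hfar ζ hζ ζ (mem_closedBall_self (by linarith))))
          have hder : ∀ ζ ∈ closedBall z s, ‖deriv k ζ‖ ≤ 1 / 2 / (2 * s) := by
            intro ζ hζ
            refine Complex.norm_deriv_le_of_forall_mem_sphere_norm_le (by linarith) ?_
              (fun y _ => hkb y)
            refine DifferentiableOn.diffContOnCl (hkd.mono ?_)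
            rw [closure_ball _ (by linarith : (2 * s) ≠ 0)]
            exact fun y hy => hfar ζ hζ y hy
          have hz'm : z' ∈ closedBall z s := by
            rw [mem_closedBall, dist_comm, dist_eq_norm]
            exact ht
          have h1 := Convex.norm_image_sub_le_of_norm_deriv_le hda hder (convex_closedBall z s)
            hz'm (mem_closedBall_self hs.le)
          have h2 := hWlow ‖z - z'‖ (norm_nonneg _) ht
          refine h1.trans (le_trans ?_ h2)
          have h5 : 0 ≤ ‖z - z'‖ := norm_nonneg _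
          rw [div_mul_eq_mul_div, div_le_div_iff₀ (by linarith) hs]
          nlinarith [mul_nonneg h5 hs.le]
  obtain ⟨a', b', hab⟩ := Coef.exists_of (hkd.mono h4) (fun z _ => hkb z) hk0
  have ha' : a' = b / (12 * s) := tendsto_nhds_unique hab.ca hk1
  subst ha'
  have hcls : WCls W P x k (b / (12 * s)) b' :=
    ⟨⟨hkc, hkd, hab⟩, fun z => (hkb z).trans (by norm_num), hmod⟩
  have h7 := hcls.le_capW hP
  rw [norm_div, hn12, div_le_iff₀ hs12] at h7
  linarith

/-- the conjugate of the projection by inversion -/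
noncomputable def w2F (u : ℂ) : ℂ := conj u / ((max 1 (‖u‖ ^ 2) : ℝ) : ℂ)

theorem w2F_in {u : ℂ} (h : ‖u‖ ≤ 1) : w2F u = conj u := by
  unfold w2F
  rw [max_eq_left (by nlinarith [norm_nonneg u]), ofReal_one, div_one]

theorem w2F_out {u : ℂ} (h : 1 ≤ ‖u‖) : w2F u = u⁻¹ := by
  unfold w2F
  rw [max_eq_right (by nlinarith [norm_nonneg u]), Complex.inv_def, Complex.normSq_eq_norm_sq,
    div_eq_mul_inv, ofReal_inv]

theorem w2F_mix {u v : ℂ} (hu : ‖u‖ ≤ 1) (hv : 1 ≤ ‖v‖) : ‖w2F u - w2F v‖ ≤ ‖u - v‖ := by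
  rw [w2F_in hu, w2F_out hv]
  have hv0 : 0 < ‖v‖ := by linarith
  have hvne : v ≠ 0 := norm_pos_iff.1 hv0
  have e1 : conj u - v⁻¹ = (conj u * v - 1) / v := by
    field_simp
  rw [e1, norm_div, div_le_iff₀ hv0]
  apply le_of_sq_le_sq _ (by positivity)
  rw [mul_pow, ← Complex.normSq_eq_norm_sq, ← Complex.normSq_eq_norm_sq,
    ← Complex.normSq_eq_norm_sq]
  have hu2 : Complex.normSq u ≤ 1 := by
    rw [Complex.normSq_eq_norm_sq]; nlinarith [norm_nonneg u]
  have hv2 : 1 ≤ Complex.normSq v := by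
    rw [Complex.normSq_eq_norm_sq]; nlinarith
  have hd : 0 ≤ Complex.normSq (u - v) := Complex.normSq_nonneg _
  simp only [Complex.normSq_apply, Complex.sub_re, Complex.sub_im, Complex.mul_re, Complex.mul_im,
    Complex.conj_re, Complex.conj_im, Complex.one_re, Complex.one_im] at hu2 hv2 hd ⊢
  nlinarith [mul_nonneg (sub_nonneg.2 hv2) (sub_nonneg.2 hu2), mul_nonneg (sub_nonneg.2 hv2) hd]

theorem w2F_lip (u v : ℂ) : ‖w2F u - w2F v‖ ≤ ‖u - v‖ := by
  rcases le_total ‖u‖ 1 with hu | hu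
  · rcases le_total ‖v‖ 1 with hv | hv
    · rw [w2F_in hu, w2F_in hv, ← map_sub, Complex.norm_conj]
    · exact w2F_mix hu hv
  · rcases le_total ‖v‖ 1 with hv | hv
    · rw [norm_sub_rev, norm_sub_rev u v]
      exact w2F_mix hv hu
    · rw [w2F_out hu, w2F_out hv]
      have hu0 : u ≠ 0 := norm_pos_iff.1 (by linarith)
      have hv0 : v ≠ 0 := norm_pos_iff.1 (by linarith)
      have e1 : u⁻¹ - v⁻¹ = (v - u) / (u * v) := by
        field_simp
      rw [e1, norm_div, norm_mul, norm_sub_rev v u]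
      apply div_le_self (norm_nonneg _)
      nlinarith

theorem w2F_norm (u : ℂ) : ‖w2F u‖ ≤ 1 := by
  rcases le_total ‖u‖ 1 with hu | hu
  · rw [w2F_in hu, Complex.norm_conj]
    exact hu
  · rw [w2F_out hu, norm_inv]
    exact inv_le_one_of_one_le₀ hu

theorem base_fun (p : ℂ) {r : ℝ} (hr : 0 < r) : ∃ h : ℂ → ℂ, AF (closedBall p r) p h r 0 ∧
    (∀ z, ‖h z‖ ≤ 1) ∧ ∀ z z', ‖h z - h z'‖ ≤ ‖z - z'‖ / r := by
  have hrc : (r : ℂ) ≠ 0 := by exact_mod_cast hr.ne'
  have hlip : ∀ z z' : ℂ, ‖w2F ((z - p) / r) - w2F ((z' - p) / r)‖ ≤ ‖z - z'‖ / r := by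
    intro z z'
    refine (w2F_lip _ _).trans ?_
    rw [← sub_div, norm_div, Complex.norm_real, Real.norm_of_nonneg hr.le]
    rw [sub_sub_sub_cancel_right]
  have hout : ∀ z : ℂ, r < ‖z - p‖ → w2F ((z - p) / r) = r * (z - p)⁻¹ := by
    intro z hz
    have h1 : 1 ≤ ‖(z - p) / (r : ℂ)‖ := by
      rw [norm_div, Complex.norm_real, Real.norm_of_nonneg hr.le, le_div_iff₀ hr]
      linarith
    rw [w2F_out h1, inv_div, div_eq_mul_inv]
  have hcont : Continuous fun z : ℂ => w2F ((z - p) / r) := by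
    have : LipschitzWith ⟨r⁻¹, by positivity⟩ fun z : ℂ => w2F ((z - p) / r) := by
      refine LipschitzWith.of_dist_le_mul fun z z' => ?_
      rw [dist_eq_norm, dist_eq_norm]
      have h1 := hlip z z'
      have h2 : ‖z - z'‖ / r = r⁻¹ * ‖z - z'‖ := by rw [div_eq_inv_mul]
      rw [h2] at h1
      exact h1
    exact this.continuous
  have hopen : IsOpen (closedBall p r)ᶜ := isClosed_closedBall.isOpen_compl
  have hoev : ∀ z ∈ (closedBall p r)ᶜ, r < ‖z - p‖ := by
    intro z hz
    by_contra hcon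
    push Not at hcon
    apply hz
    rwa [mem_closedBall, dist_eq_norm]
  have hev : ∀ᶠ z in cocompact ℂ, r < ‖z - p‖ := by
    filter_upwards [(isCompact_closedBall p r).compl_mem_cocompact] with z hz
    exact hoev z hz
  have hinv : Tendsto (fun z : ℂ => (z - p)⁻¹) (cocompact ℂ) (𝓝 0) := by
    have h3 : Tendsto (fun z : ℂ => z⁻¹) (cocompact ℂ) (𝓝 0) := by
      rw [← Metric.cobounded_eq_cocompact]
      exact tendsto_inv₀_cobounded
    refine (h3.comp (tendsto_add_cocompact (-p))).congr fun z => ?_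
    simp [sub_eq_add_neg]
  have hzero : Tendsto (fun z : ℂ => w2F ((z - p) / r)) (cocompact ℂ) (𝓝 0) := by
    have h1 : Tendsto (fun z : ℂ => (r : ℂ) * (z - p)⁻¹) (cocompact ℂ) (𝓝 (r * 0)) :=
      hinv.const_mul _
    rw [mul_zero] at h1
    refine h1.congr' ?_
    filter_upwards [hev] with z hz
    exact (hout z hz).symm
  have hmulr : ∀ z : ℂ, r < ‖z - p‖ → (z - p) * w2F ((z - p) / r) = r := by
    intro z hz
    have hz0 : z - p ≠ 0 := norm_pos_iff.1 (by linarith)
    rw [hout z hz]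
    field_simp
  refine ⟨fun z => w2F ((z - p) / r), ⟨hcont, ?_, hzero, ?_, ?_⟩, fun z => w2F_norm _, hlip⟩
  · intro z hz
    have h1 : (fun z : ℂ => w2F ((z - p) / r)) =ᶠ[𝓝 z] fun z => r * (z - p)⁻¹ := by
      filter_upwards [hopen.mem_nhds hz] with w hw
      exact hout w (hoev w hw)
    have hz0 : z - p ≠ 0 := norm_pos_iff.1 (by linarith [hoev z hz])
    refine DifferentiableAt.differentiableWithinAt ?_
    rw [h1.differentiableAt_iff]
    exact ((differentiableAt_id.sub_const p).inv hz0).const_mul _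
  · have h1 : Tendsto (fun z : ℂ => (r : ℂ) + p * w2F ((z - p) / r)) (cocompact ℂ)
        (𝓝 (r + p * 0)) := tendsto_const_nhds.add (hzero.const_mul p)
    rw [mul_zero, add_zero] at h1
    refine h1.congr' ?_
    filter_upwards [hev] with z hz
    linear_combination -(hmulr z hz)
  · refine Tendsto.congr' ?_ tendsto_const_nhds
    filter_upwards [hev] with z hz
    rw [hmulr z hz]
    ring

theorem capW_ball {W : ℝ → ℝ} {p : ℂ} {r : ℝ} (hr : 0 < r)
    (hW : ∀ t, 0 ≤ t → min 2 (t / r) ≤ W t) {P : Set ℂ} (hP : IsCompact P)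
    (h : closedBall p r ⊆ P) : r ≤ capW W P := by
  obtain ⟨f, h1, h2, h3⟩ := base_fun p hr
  have hcls : WCls W P p f r 0 := by
    refine ⟨h1.mono h, h2, fun z z' => ?_⟩
    refine le_trans (le_min ?_ (h3 z z')) (hW _ (norm_nonneg _))
    have := norm_sub_le (f z) (f z')
    have e1 := h2 z
    have e2 := h2 z'
    linarith
  have h4 := hcls.le_capW hP
  rwa [Complex.norm_real, Real.norm_of_nonneg hr.le] at h4

end Pool.Agent.SV
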