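import Pool.Agent.Helper53.ST.Defs
import Pool.Agent.Helper53.AC.C1

/-!
# ST-W3: modulus of continuity of a sum over cells

PROOF. Let `t = ‖z - z'‖ ≤ s`. The cells with `‖z - lp s (j c)‖ ≤ 6 s`: at most `N₀ = 169` of them
(lattice points in a square of side `12 s`, `j` is injective on `T`), each contributes at most
`lam * W t`. For the other cells the disc of radius `s` about `z` stays at distance `≥ 5 s` from
`lp s (j c)`, and `G c` is holomorphic and bounded by `1` on the discs of radius `2 s` about its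
points, so `‖G c z - G c z'‖ ≤ t / (2 s)` (Cauchy estimate and mean value inequality).
-/

set_option autoImplicit false

open Complex Filter Topology Metric
open scoped ComplexConjugate

namespace Pool.Agent.SV

/-- far from the cell the function is Lipschitz -/
private theorem w3_far {s : ℝ} (hs : 0 < s) {P : Set ℂ} {x : ℂ} {G : ℂ → ℂ}
    (hP : P ⊆ closedBall x (3 * s)) (hG : DifferentiableOn ℂ G Pᶜ) (hb : ∀ z, ‖G z‖ ≤ 1)
    {z z' : ℂ} (hz : 6 * s < ‖z - x‖) (hzz : ‖z - z'‖ ≤ s) :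
    ‖G z - G z'‖ ≤ ‖z - z'‖ / s := by
  have hfar : ∀ w ∈ closedBall z (2 * s), w ∈ Pᶜ ∧ 3 * s < ‖w - x‖ := by
    intro w hw
    rw [mem_closedBall, dist_eq_norm] at hw
    have h1 : ‖z - x‖ ≤ ‖w - z‖ + ‖w - x‖ := by
      calc ‖z - x‖ = ‖(w - x) - (w - z)‖ := by congr 1; ring
        _ ≤ ‖w - x‖ + ‖w - z‖ := norm_sub_le _ _
        _ = _ := add_comm _ _
    have h2 : 3 * s < ‖w - x‖ := by linarith
    refine ⟨fun hwP => ?_, h2⟩
    have h3 := hP hwP
    rw [mem_closedBall, dist_eq_norm] at h3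
    linarith
  have hopen : IsOpen {w : ℂ | 3 * s < ‖w - x‖} :=
    isOpen_lt continuous_const (continuous_id.sub continuous_const).norm
  have hd : ∀ w ∈ closedBall z (2 * s), DifferentiableAt ℂ G w := by
    intro w hw
    have h1 := hfar w hw
    have h2 : {w : ℂ | 3 * s < ‖w - x‖} ⊆ Pᶜ := by
      intro v hv hvP
      have h3 := hP hvP
      rw [mem_closedBall, dist_eq_norm] at h3
      exact absurd hv (not_lt.2 h3)
    exact (hG.mono h2).differentiableAt (hopen.mem_nhds h1.2)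
  have hder : ∀ w ∈ closedBall z s, ‖deriv G w‖ ≤ 1 / s := by
    intro w hw
    refine Complex.norm_deriv_le_of_forall_mem_sphere_norm_le hs ?_ (fun v _ => hb v)
    have hsub : closedBall w s ⊆ closedBall z (2 * s) := by
      refine closedBall_subset_closedBall' ?_
      rw [mem_closedBall] at hw
      linarith
    constructor
    · intro v hv
      exact (hd v (hsub (ball_subset_closedBall hv))).differentiableWithinAt
    · rw [closure_ball w hs.ne']
      intro v hv
      exact (hd v (hsub hv)).continuousAt.continuousWithinAt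
  have hzmem : z ∈ closedBall z s := mem_closedBall_self hs.le
  have hzmem' : z' ∈ closedBall z s := by
    rw [mem_closedBall, dist_eq_norm, norm_sub_rev]
    exact hzz
  have h := Convex.norm_image_sub_le_of_norm_deriv_le
    (fun w hw => hd w (closedBall_subset_closedBall (by linarith) hw)) hder
    (convex_closedBall z s) hzmem' hzmem
  calc ‖G z - G z'‖ ≤ 1 / s * ‖z - z'‖ := h
    _ = ‖z - z'‖ / s := by ring

/-- the number of lattice points near a point -/
private theorem w3_count {s : ℝ} (hs : 0 < s) {n : ℕ} (T : Finset (Fin n)) (j : Fin n → ℤ × ℤ)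
    (hj : ∀ c ∈ T, ∀ c' ∈ T, j c = j c' → c = c') (z : ℂ)
    (hT : ∀ c ∈ T, ‖z - lp s (j c)‖ ≤ 6 * s) : T.card ≤ 169 := by
  classical
  set p : ℤ := ⌊z.re / s⌋ with hp
  set q : ℤ := ⌊z.im / s⌋ with hq
  have hcoord : ∀ (t : ℝ) (i : ℤ), |t - s * i| ≤ 6 * s → i ∈ Finset.Icc (⌊t / s⌋ - 6) (⌊t / s⌋ + 6) := by
    intro t i h
    rw [abs_le] at h
    have h1 : t / s - 6 ≤ i := by
      rw [sub_le_iff_le_add, div_le_iff₀ hs]
      nlinarith [h.2]
    have h2 : (i : ℝ) ≤ t / s + 6 := by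
      have h3 : (i : ℝ) - 6 ≤ t / s := by
        rw [le_div_iff₀ hs]
        nlinarith [h.1]
      linarith
    have h3 := Int.floor_le (t / s)
    have h4 := Int.lt_floor_add_one (t / s)
    rw [Finset.mem_Icc]
    constructor
    · have h5 : ((⌊t / s⌋ - 6 : ℤ) : ℝ) ≤ (i : ℝ) := by
        push_cast
        linarith
      exact_mod_cast h5
    · have h5 : (i : ℝ) < ((⌊t / s⌋ + 7 : ℤ) : ℝ) := by
        push_cast
        linarith
      have h6 : i < ⌊t / s⌋ + 7 := by exact_mod_cast h5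
      linarith
  have hsub : T.image j ⊆ (Finset.Icc (p - 6) (p + 6)) ×ˢ (Finset.Icc (q - 6) (q + 6)) := by
    intro y hy
    obtain ⟨c, hc, rfl⟩ := Finset.mem_image.1 hy
    have h1 := hT c hc
    have hre := Complex.abs_re_le_norm (z - lp s (j c))
    have him := Complex.abs_im_le_norm (z - lp s (j c))
    have e1 : (z - lp s (j c)).re = z.re - s * (j c).1 := rfl
    have e2 : (z - lp s (j c)).im = z.im - s * (j c).2 := rfl
    rw [e1] at hre
    rw [e2] at him
    rw [Finset.mem_product]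
    exact ⟨hcoord _ _ (hre.trans h1), hcoord _ _ (him.trans h1)⟩
  have hcard : (T.image j).card = T.card :=
    Finset.card_image_of_injOn fun c hc c' hc' h => hj c hc c' hc' h
  have h1 := Finset.card_le_card hsub
  rw [hcard, Finset.card_product, Int.card_Icc, Int.card_Icc] at h1
  have h2 : (p + 6 + 1 - (p - 6)).toNat = 13 := by
    have : p + 6 + 1 - (p - 6) = 13 := by ring
    rw [this]
    rfl
  have h3 : (q + 6 + 1 - (q - 6)).toNat = 13 := by
    have : q + 6 + 1 - (q - 6) = 13 := by ring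
    rw [this]
    rfl
  rw [h2, h3] at h1
  exact h1

theorem mod_sum : ∃ N₀ : ℝ, 0 < N₀ ∧ ∀ (s : ℝ), 0 < s → ∀ (n : ℕ) (T : Finset (Fin n))
    (j : Fin n → ℤ × ℤ) (P : Fin n → Set ℂ) (G : Fin n → ℂ → ℂ) (W : ℝ → ℝ)
    (a b u : Fin n → ℂ) (lam : ℝ), 0 ≤ lam → (∀ t, 0 ≤ t → 0 ≤ W t) →
    (∀ c ∈ T, ∀ c' ∈ T, j c = j c' → c = c') →
    (∀ c ∈ T, P c ⊆ closedBall (lp s (j c)) (3 * s)) →
    (∀ c ∈ T, WCls W (P c) (lp s (j c)) (G c) (a c) (b c)) → (∀ c ∈ T, ‖u c‖ ≤ lam) →
    ∀ z z' : ℂ, ‖z - z'‖ ≤ s →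
      ‖∑ c ∈ T, u c * G c z - ∑ c ∈ T, u c * G c z'‖
        ≤ lam * (N₀ * W ‖z - z'‖ + T.card * ‖z - z'‖ / s) := by
  classical
  refine ⟨169, by norm_num, ?_⟩
  intro s hs n T j P G W a b u lam hlam hW hj hP hG hu z z' hzz
  set t : ℝ := ‖z - z'‖ with ht
  have ht0 : 0 ≤ t := norm_nonneg _
  have hWt : 0 ≤ W t := hW t ht0
  have hts : 0 ≤ t / s := div_nonneg ht0 hs.le
  -- each term
  have hterm : ∀ c ∈ T, ‖G c z - G c z'‖ ≤
      (if ‖z - lp s (j c)‖ ≤ 6 * s then W t else 0) + t / s := by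
    intro c hc
    by_cases h : ‖z - lp s (j c)‖ ≤ 6 * s
    · rw [if_pos h]
      have h1 := (hG c hc).mod z z'
      linarith
    · rw [if_neg h, zero_add]
      exact w3_far hs (hP c hc) (hG c hc).af.holo (hG c hc).bound (not_le.1 h) hzz
  have hcount : (T.filter fun c => ‖z - lp s (j c)‖ ≤ 6 * s).card ≤ 169 := by
    refine w3_count hs _ j (fun c hc c' hc' h => ?_) z fun c hc => (Finset.mem_filter.1 hc).2
    exact hj c (Finset.mem_filter.1 hc).1 c' (Finset.mem_filter.1 hc').1 h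
  have hsum : ∑ c ∈ T, ((if ‖z - lp s (j c)‖ ≤ 6 * s then W t else 0) + t / s)
      ≤ 169 * W t + T.card * t / s := by
    rw [Finset.sum_add_distrib, ← Finset.sum_filter, Finset.sum_const, Finset.sum_const,
      nsmul_eq_mul, nsmul_eq_mul]
    have h1 : (((T.filter fun c => ‖z - lp s (j c)‖ ≤ 6 * s).card : ℕ) : ℝ) ≤ 169 := by
      exact_mod_cast hcount
    have h2 := mul_le_mul_of_nonneg_right h1 hWt
    have h3 : (T.card : ℝ) * (t / s) = T.card * t / s := by ring
    linarith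
  rw [← Finset.sum_sub_distrib]
  calc ‖∑ c ∈ T, (u c * G c z - u c * G c z')‖
      ≤ ∑ c ∈ T, ‖u c * G c z - u c * G c z'‖ := norm_sum_le _ _
    _ ≤ ∑ c ∈ T, lam * ((if ‖z - lp s (j c)‖ ≤ 6 * s then W t else 0) + t / s) := by
        refine Finset.sum_le_sum fun c hc => ?_
        rw [← mul_sub, norm_mul]
        exact mul_le_mul (hu c hc) (hterm c hc) (norm_nonneg _) hlam
    _ = lam * ∑ c ∈ T, ((if ‖z - lp s (j c)‖ ≤ 6 * s then W t else 0) + t / s) := by
        rw [Finset.mul_sum]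
    _ ≤ lam * (169 * W t + T.card * t / s) := mul_le_mul_of_nonneg_left hsum hlam

end Pool.Agent.SV
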