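import Pool.Agent.Helper53.ST.Defs
import Pool.Agent.Helper53.AC.C1
import Pool.Agent.Helper53.AC.C2
import Pool.Agent.Helper53.AC.L1a
import Pool.Agent.Helper53.AC.L1b
import Pool.Agent.Helper53.AC.L1c
import Pool.Agent.Helper53.AC.L2a
import Pool.Agent.Helper53.AC.L3

/-!
# ST-W4: refinement of finitely many pieces

`second_piece`: `(z - x) f z - A` is continuous, holomorphic off the set, tends to `0` at infinity
and is bounded by `2 s + 2 s` on `closedBall x (2 s)` (`‖A‖ ≤ 2 s`: `AF.coef_le`,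
`alpha_toReal_le`), hence everywhere (maximum principle, as in `AF.second_le`); first coefficient
`B`; the second one from `Coef.exists_of`.

`refine_one` (adapt the proof of `exists_family` in AC/L3.lean): by uniform continuity of `g`
there is `δ` such that for all `0 < s ≤ δ` the localisations `loc (φ j) g` of the partition of
unity at scale `s` are bounded by `ω`. Let `f j = ω⁻¹ * loc (φ j) g`. Take for `J` the finite set of
the `j` such that `closedBall (lp s j) (2 s)` meets `E ∩ closedBall x (2 r)`; for the other `j` the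
function `loc (φ j) g` is holomorphic off the empty set, tends to zero, so it vanishes
(`AF.eq_zero`, or Liouville). If they meet and `5 s ≤ r` then
`closedBall (lp s j) (3 s) ⊆ closedBall x (3 r)`.

`refine`: take `s ≤ ε` below the `δ` of all members of the finite set `S`, `S'` the union of the
finite sets of the functions `f j` and `((z - lp s j) f j z - A j) / (4 s)`, and `n` the maximum of
the `J.card`.
-/

set_option autoImplicit false

open Complex Filter Topology Metric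
open scoped ComplexConjugate

namespace Pool.Agent.SV

open Pool.Agent.Helper53.CAC

theorem second_piece {E : Set ℂ} (hE : IsCompact E) {s : ℝ} (hs : 0 < s) {f : ℂ → ℂ}
    {x A B : ℂ} (h : PieceAt E s f x A B) :
    ∃ b : ℂ, PieceAt E s (fun z => ((z - x) * f z - A) / (4 * s)) x (B / (4 * s)) b := by
  have hP : IsCompact (E ∩ closedBall x (2 * s)) := hE.inter_right isClosed_closedBall
  have hs2 : 0 < 2 * s := by linarith
  have hsub : E ∩ closedBall x (2 * s) ⊆ closedBall x (2 * s) := Set.inter_subset_right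
  have hA : ‖A‖ ≤ 2 * s := by
    have h1 := h.af.coef_le hP h.bound
    have h2 := alpha_toReal_le hs2 hsub
    linarith
  have hs4 : (0 : ℝ) < 4 * s := by linarith
  have hs4c : ((4 : ℂ) * (s : ℂ)) ≠ 0 := by
    have : ((4 : ℂ) * (s : ℂ)) = ((4 * s : ℝ) : ℂ) := by push_cast; ring
    rw [this]
    exact_mod_cast hs4.ne'
  have hn4 : ‖((4 : ℂ) * (s : ℂ))‖ = 4 * s := by
    have : ((4 : ℂ) * (s : ℂ)) = ((4 * s : ℝ) : ℂ) := by push_cast; ring
    rw [this, Complex.norm_real, Real.norm_of_nonneg hs4.le]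
  set g : ℂ → ℂ := fun z => (z - x) * f z - A with hg
  have hgc : Continuous g :=
    ((continuous_id.sub continuous_const).mul h.af.cont).sub continuous_const
  have hgd : DifferentiableOn ℂ g (E ∩ closedBall x (2 * s))ᶜ := by
    refine DifferentiableOn.sub_const ?_ A
    exact (differentiableOn_id.sub_const x).mul h.af.holo
  have hg0 : Tendsto g (cocompact ℂ) (𝓝 0) := by
    have := (h.af.coef.ca' x).sub (tendsto_const_nhds (x := A))
    rwa [sub_self] at this
  have hg1 : Tendsto (fun z => z * g z) (cocompact ℂ) (𝓝 B) := by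
    have h1 : Tendsto (fun z => (z - x) * ((z - x) * f z - A) + x * g z) (cocompact ℂ)
        (𝓝 (B + x * 0)) := h.af.coef.cb.add (hg0.const_mul x)
    rw [mul_zero, add_zero] at h1
    exact h1.congr fun z => by simp only [hg]; ring
  have hbd : ∀ z ∈ E ∩ closedBall x (2 * s), ‖g z‖ ≤ 4 * s := by
    intro z hz
    have h1 : ‖z - x‖ ≤ 2 * s := by
      have := hsub hz
      rwa [mem_closedBall, dist_eq_norm] at this
    calc ‖g z‖ ≤ ‖(z - x) * f z‖ + ‖A‖ := norm_sub_le _ _
      _ ≤ 2 * s * 1 + 2 * s := by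
        rw [norm_mul]
        exact add_le_add (mul_le_mul h1 (h.bound z) (norm_nonneg _) hs2.le) hA
      _ = 4 * s := by ring
  have hall : ∀ z, ‖g z‖ ≤ 4 * s := by
    intro z
    have := max_ext hP hgc hgd hg0 hbd z
    rwa [norm_zero, max_eq_left (by positivity)] at this
  set k : ℂ → ℂ := fun z => g z / (4 * s) with hk
  have hkc : Continuous k := hgc.div_const _
  have hkd : DifferentiableOn ℂ k (E ∩ closedBall x (2 * s))ᶜ := hgd.div_const _
  have hk0 : Tendsto k (cocompact ℂ) (𝓝 0) := by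
    have := hg0.div_const ((4 : ℂ) * (s : ℂ))
    rwa [zero_div] at this
  have hk1 : Tendsto (fun z => z * k z) (cocompact ℂ) (𝓝 (B / (4 * s))) := by
    have := hg1.div_const ((4 : ℂ) * (s : ℂ))
    exact this.congr fun z => by simp only [hk]; ring
  have hkb : ∀ z, ‖k z‖ ≤ 1 := by
    intro z
    show ‖g z / (4 * s)‖ ≤ 1
    rw [norm_div, hn4, div_le_one hs4]
    exact hall z
  have h4 : {z | 2 * s < ‖z - x‖} ⊆ (E ∩ closedBall x (2 * s))ᶜ := by
    intro z hz hzP
    have h5 := hzP.2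
    rw [mem_closedBall, dist_eq_norm] at h5
    have h6 : 2 * s < ‖z - x‖ := hz
    linarith
  obtain ⟨a', b', hab⟩ := Coef.exists_of (hkd.mono h4) (fun z _ => hkb z) hk0
  have ha' : a' = B / (4 * s) := tendsto_nhds_unique hab.ca hk1
  subst ha'
  exact ⟨b', ⟨hkc, hkd, hab⟩, hkb⟩

theorem w4_finite {s M : ℝ} (hs : 0 < s) :
    ∃ J : Finset (ℤ × ℤ), ∀ j : ℤ × ℤ, ‖lp s j‖ ≤ M → j ∈ J := l3_finite hs

theorem refine_one {E : Set ℂ} (hE : IsCompact E) {ω r : ℝ} (hω : 0 < ω) (hr : 0 < r)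
    {g : ℂ → ℂ} {x a b : ℂ} (h : PieceAt E r g x a b) :
    ∃ δ : ℝ, 0 < δ ∧ ∀ s : ℝ, 0 < s → s ≤ δ →
      ∃ (J : Finset (ℤ × ℤ)) (f : ℤ × ℤ → ℂ → ℂ) (A B : ℤ × ℤ → ℂ),
        (∀ j ∈ J, PieceAt E s (f j) (lp s j) (A j) (B j)) ∧
        (∀ j ∈ J, closedBall (lp s j) (3 * s) ⊆ closedBall x (3 * r)) ∧
        (∀ z, g z = ω * ∑ j ∈ J, f j z) := by
  classical
  obtain ⟨D, hD, hpou⟩ := exists_pou
  have hf : Continuous g := h.af.cont
  have hf0 : Tendsto g (cocompact ℂ) (𝓝 0) := h.af.coef.zero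
  have huc : UniformContinuous g := hf.uniformContinuous_of_tendsto_cocompact hf0
  obtain ⟨δ, hδ, hδf⟩ := Metric.uniformContinuous_iff.1 huc (ω / (2 * D)) (by positivity)
  refine ⟨min (δ / 8) (r / 5), by positivity, ?_⟩
  intro s hs hsδ'
  have hsδ : 4 * s < δ := by
    have := hsδ'.trans (min_le_left _ _)
    linarith
  have hsr : 5 * s ≤ r := by
    have := hsδ'.trans (min_le_right _ _)
    linarith
  obtain ⟨φ, hφc, hφs, hφd, hφ1⟩ := hpou s hs
  have hs2 : 0 < 2 * s := by linarith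
  set K : Set ℂ := E ∩ closedBall x (2 * r) with hKdef
  have hKc : IsCompact K := hE.inter_right isClosed_closedBall
  have hfd : DifferentiableOn ℂ g Kᶜ := h.af.holo
  -- a large disc
  obtain ⟨M, hM⟩ := hKc.isBounded.subset_ball (0 : ℂ)
  obtain ⟨J, hJ⟩ := w4_finite (M := M + 2 * s) hs
  have hJmem : ∀ z ∈ ball (0 : ℂ) M, ∀ j, φ j z ≠ 0 → j ∈ J := by
    intro z hz j hj
    apply hJ
    have h1 : z ∈ tsupport (φ j) := subset_tsupport _ hj
    have h2 := hφs j h1
    rw [mem_closedBall, dist_eq_norm] at h2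
    rw [mem_ball_zero_iff] at hz
    have h3 : ‖lp s j‖ ≤ ‖z‖ + ‖z - lp s j‖ := by
      have h4 : lp s j = z - (z - lp s j) := by ring
      calc ‖lp s j‖ = ‖z - (z - lp s j)‖ := by rw [← h4]
        _ ≤ _ := norm_sub_le _ _
    linarith
  have hcs : ∀ j, HasCompactSupport (φ j) := fun j =>
    HasCompactSupport.of_support_subset_isCompact (isCompact_closedBall (lp s j) (2 * s))
      ((subset_tsupport _).trans (hφs j))
  set g₀ : ℤ × ℤ → ℂ → ℂ := fun j => loc (φ j) g with hg₀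
  have hsumf : ∀ z, g z = ∑ j ∈ J, g₀ j z := by
    intro z
    have h1 : ContDiff ℝ (⊤ : ℕ∞) (fun y => ∑ j ∈ J, φ j y) := ContDiff.sum fun j _ => hφc j
    have h2 : HasCompactSupport (fun y => ∑ j ∈ J, φ j y) := by
      have : ∀ S : Finset (ℤ × ℤ), HasCompactSupport (fun y => ∑ j ∈ S, φ j y) := by
        intro S
        induction S using Finset.induction_on with
        | empty =>
          simp only [Finset.sum_empty]
          exact HasCompactSupport.zero
        | insert j S hj ih =>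
          simp only [Finset.sum_insert hj]
          exact (hcs j).add ih
      exact this J
    have h3 := loc_one h1 h2 hf hKc hfd hf0 isOpen_ball hM (fun z hz => hφ1 z J (hJmem z hz)) z
    rw [← h3]
    exact loc_sum J (fun j _ => hφc j) (fun j _ => hcs j) hf z
  have hreg : ∀ j, Continuous (g₀ j) ∧
      DifferentiableOn ℂ (g₀ j) (K ∩ closedBall (lp s j) (2 * s))ᶜ ∧
      Tendsto (g₀ j) (cocompact ℂ) (𝓝 0) := fun j => loc_reg (hφc j) (hφs j) hf hKc hfd
  have hbd : ∀ j z, ‖g₀ j z‖ ≤ ω := by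
    intro j z
    have h1 := loc_bound hs2 (hφc j) (hφs j) (hφd j) hf hKc hfd (ω := ω / (2 * D))
      (fun y hy y' hy' => by
        rw [mem_closedBall] at hy hy'
        have h2 : dist y y' < δ := by
          have h3 := dist_triangle_right y y' (lp s j)
          linarith
        have h3 := hδf h2
        rw [dist_eq_norm] at h3
        exact h3.le) z
    have h2 : 2 * D * (ω / (2 * D)) = ω := by field_simp
    rwa [h2] at h1
  set P : ℤ × ℤ → Set ℂ := fun j => K ∩ closedBall (lp s j) (2 * s) with hP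
  have hAF : ∀ j, ∃ a b : ℂ, AF (P j) (lp s j) (g₀ j) a b := by
    intro j
    obtain ⟨h1, h2, h3⟩ := hreg j
    have h4 : {z | 2 * s < ‖z - lp s j‖} ⊆ (P j)ᶜ := by
      intro z hz hzP
      have h5 := hzP.2
      rw [mem_closedBall, dist_eq_norm] at h5
      have h6 : 2 * s < ‖z - lp s j‖ := hz
      linarith
    obtain ⟨a, b, hab⟩ := Coef.exists_of (h2.mono h4) (fun z _ => hbd j z) h3
    exact ⟨a, b, h1, h2, hab⟩
  choose A₀ B₀ hAB using hAF
  have hωc : (ω : ℂ) ≠ 0 := by exact_mod_cast hω.ne'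
  refine ⟨J.filter (fun j => (P j).Nonempty), fun j z => (ω : ℂ)⁻¹ * g₀ j z,
    fun j => (ω : ℂ)⁻¹ * A₀ j, fun j => (ω : ℂ)⁻¹ * B₀ j, ?_, ?_, ?_⟩
  · intro j _
    refine ⟨((hAB j).const_mul _).mono ?_, ?_⟩
    · intro z hz
      exact ⟨hz.1.1, hz.2⟩
    · intro z
      rw [norm_mul, norm_inv, Complex.norm_real, Real.norm_of_nonneg hω.le,
        inv_mul_le_iff₀ hω, mul_one]
      exact hbd j z
  · intro j hj
    obtain ⟨y, hy⟩ := (Finset.mem_filter.1 hj).2
    have h1 : dist y x ≤ 2 * r := hy.1.2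
    have h2 : dist y (lp s j) ≤ 2 * s := hy.2
    apply closedBall_subset_closedBall'
    have h3 : dist (lp s j) x ≤ dist y (lp s j) + dist y x := dist_triangle_left _ _ _
    linarith
  · intro z
    rw [hsumf z, Finset.mul_sum, Finset.sum_filter]
    refine Finset.sum_congr rfl fun j _ => ?_
    split_ifs with hne
    · rw [mul_inv_cancel_left₀ hωc]
    · have hPe : P j = ∅ := Set.not_nonempty_iff_eq_empty.1 hne
      obtain ⟨h1, h2, h3⟩ := hreg j
      have h2' : DifferentiableOn ℂ (g₀ j) (P j)ᶜ := h2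
      rw [hPe, Set.compl_empty, differentiableOn_univ] at h2'
      exact h2'.apply_eq_of_tendsto_cocompact z h3

theorem refine {E : Set ℂ} (hE : IsCompact E) {ω ε r : ℝ} (hω : 0 < ω) (hε : 0 < ε)
    (hr : 0 < r) (S : Set ((ℂ → ℂ) × ℂ)) (hfin : S.Finite)
    (hS : ∀ p ∈ S, ∃ a b, PieceAt E r p.1 p.2 a b) :
    ∃ (s : ℝ) (S' : Set ((ℂ → ℂ) × ℂ)) (n : ℕ), 0 < s ∧ s ≤ ε ∧ S'.Finite ∧
      (∀ p ∈ S', ∃ a b, PieceAt E s p.1 p.2 a b) ∧
      ∀ p ∈ S, Refines E ω r s S' n p.1 p.2 := by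
  classical
  have hfin' : Finite S := hfin.to_subtype
  have hft : Fintype S := Fintype.ofFinite S
  have hex : ∀ p : S, ∃ δ : ℝ, 0 < δ ∧ ∀ s : ℝ, 0 < s → s ≤ δ →
      ∃ (J : Finset (ℤ × ℤ)) (f : ℤ × ℤ → ℂ → ℂ) (A B : ℤ × ℤ → ℂ),
        (∀ j ∈ J, PieceAt E s (f j) (lp s j) (A j) (B j)) ∧
        (∀ j ∈ J, closedBall (lp s j) (3 * s) ⊆ closedBall p.1.2 (3 * r)) ∧
        (∀ z, p.1.1 z = ω * ∑ j ∈ J, f j z) := by
    intro p
    obtain ⟨a, b, hab⟩ := hS p.1 p.2
    exact refine_one hE hω hr hab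
  choose δ hδ0 hδ using hex
  have hmin : ∀ T : Finset S, ∃ s : ℝ, 0 < s ∧ s ≤ ε ∧ ∀ p ∈ T, s ≤ δ p := by
    intro T
    induction T using Finset.induction_on with
    | empty => exact ⟨ε, hε, le_rfl, by simp⟩
    | insert p T hp ih =>
      obtain ⟨s, h1, h2, h3⟩ := ih
      refine ⟨min s (δ p), lt_min h1 (hδ0 p), (min_le_left _ _).trans h2, ?_⟩
      intro q hq
      rcases Finset.mem_insert.1 hq with rfl | hq
      · exact min_le_right _ _
      · exact (min_le_left _ _).trans (h3 q hq)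
  obtain ⟨s, hs0, hsε, hsδ⟩ := hmin Finset.univ
  have hex2 : ∀ p : S, ∃ (J : Finset (ℤ × ℤ)) (f : ℤ × ℤ → ℂ → ℂ) (A B : ℤ × ℤ → ℂ),
        (∀ j ∈ J, PieceAt E s (f j) (lp s j) (A j) (B j)) ∧
        (∀ j ∈ J, closedBall (lp s j) (3 * s) ⊆ closedBall p.1.2 (3 * r)) ∧
        (∀ z, p.1.1 z = ω * ∑ j ∈ J, f j z) :=
    fun p => hδ p s hs0 (hsδ p (Finset.mem_univ _))
  choose J f A B h1 h2 h3 using hex2
  refine ⟨s, ⋃ p : S, ⋃ j ∈ J p, {(f p j, lp s j),
    (fun z => ((z - lp s j) * f p j z - A p j) / (4 * s), lp s j)}, ∑ p : S, (J p).card,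
    hs0, hsε, ?_, ?_, ?_⟩
  · refine Set.finite_iUnion fun p => ?_
    refine (J p).finite_toSet.biUnion fun j _ => ?_
    exact Set.toFinite _
  · intro q hq
    simp only [Set.mem_iUnion] at hq
    obtain ⟨p, j, hj, hq⟩ := hq
    rcases hq with hq | hq
    · rw [hq]
      exact ⟨A p j, B p j, h1 p j hj⟩
    · have hq' : q = (fun z => ((z - lp s j) * f p j z - A p j) / (4 * s), lp s j) := hq
      rw [hq']
      obtain ⟨b', hb'⟩ := second_piece hE hs0 (h1 p j hj)
      exact ⟨_, b', hb'⟩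
  · intro q hq
    set p : S := ⟨q, hq⟩ with hp
    refine ⟨J p, f p, A p, B p, ?_, h1 p, h2 p, ?_, ?_, h3 p⟩
    · exact Finset.single_le_sum (f := fun p : S => (J p).card) (fun _ _ => Nat.zero_le _)
        (Finset.mem_univ p)
    · intro j hj
      simp only [Set.mem_iUnion]
      exact ⟨p, j, hj, Or.inl rfl⟩
    · intro j hj
      simp only [Set.mem_iUnion]
      exact ⟨p, j, hj, Or.inr rfl⟩

end Pool.Agent.SV
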