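import Pool.Agent.Helper53.ST.W4

/-!
# ST-W5: the chain of refinements

PROOF. Recursion with `refine` (`ε = r k / 5`) starting from `S 0 = {(f, x)}`. One way: a structure
or subtype of states `(r, S)` with `0 < r`, `S.Finite`, pieces; `next` by `Classical.choose`; `n k`
the number belonging to the step `k`.
-/

set_option autoImplicit false

open Complex Filter Topology Metric
open scoped ComplexConjugate

namespace Pool.Agent.SV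

open Pool.Agent.Helper53.CAC

theorem exists_chain {E : Set ℂ} (hE : IsCompact E) {ω r₀ : ℝ} (hω : 0 < ω) (hr₀ : 0 < r₀)
    {f : ℂ → ℂ} {x a b : ℂ} (h : PieceAt E r₀ f x a b) :
    ∃ (r : ℕ → ℝ) (S : ℕ → Set ((ℂ → ℂ) × ℂ)) (n : ℕ → ℕ), r 0 = r₀ ∧ (f, x) ∈ S 0 ∧
      (∀ k, 0 < r k) ∧ (∀ k, r (k + 1) ≤ r k / 5) ∧
      (∀ k, ∀ p ∈ S k, ∃ a b, PieceAt E (r k) p.1 p.2 a b) ∧
      ∀ k, ∀ p ∈ S k, Refines E ω (r k) (r (k + 1)) (S (k + 1)) (n k) p.1 p.2 := by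
  have step : ∀ p : {p : ℝ × Set ((ℂ → ℂ) × ℂ) // 0 < p.1 ∧ p.2.Finite ∧
      ∀ q ∈ p.2, ∃ a b, PieceAt E p.1 q.1 q.2 a b},
      ∃ q : {p : ℝ × Set ((ℂ → ℂ) × ℂ) // 0 < p.1 ∧ p.2.Finite ∧
        ∀ q ∈ p.2, ∃ a b, PieceAt E p.1 q.1 q.2 a b} × ℕ,
        q.1.1.1 ≤ p.1.1 / 5 ∧
        ∀ t ∈ p.1.2, Refines E ω p.1.1 q.1.1.1 q.1.1.2 q.2 t.1 t.2 := by
    rintro ⟨⟨r, S⟩, hr, hfin, hS⟩
    obtain ⟨s, S', n, hs, hse, hfin', hS', href⟩ := refine hE hω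
      (show (0 : ℝ) < r / 5 from div_pos hr (by norm_num)) hr S hfin hS
    exact ⟨⟨⟨(s, S'), hs, hfin', hS'⟩, n⟩, hse, href⟩
  choose next hnext using step
  have h0 : (0 : ℝ) < r₀ ∧ ({(f, x)} : Set ((ℂ → ℂ) × ℂ)).Finite ∧
      ∀ q ∈ ({(f, x)} : Set ((ℂ → ℂ) × ℂ)), ∃ a b, PieceAt E r₀ q.1 q.2 a b := by
    refine ⟨hr₀, Set.finite_singleton _, ?_⟩
    intro q hq
    rw [Set.mem_singleton_iff] at hq
    subst hq
    exact ⟨a, b, h⟩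
  let seq : ℕ → {p : ℝ × Set ((ℂ → ℂ) × ℂ) // 0 < p.1 ∧ p.2.Finite ∧
      ∀ q ∈ p.2, ∃ a b, PieceAt E p.1 q.1 q.2 a b} :=
    fun k => Nat.rec ⟨(r₀, {(f, x)}), h0⟩ (fun _ p => (next p).1) k
  have hseq : ∀ k, seq (k + 1) = (next (seq k)).1 := fun k => rfl
  refine ⟨fun k => (seq k).1.1, fun k => (seq k).1.2, fun k => (next (seq k)).2, rfl,
    Set.mem_singleton _, fun k => (seq k).2.1, ?_, fun k => (seq k).2.2.2, ?_⟩
  · intro k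
    exact (hnext (seq k)).1
  · intro k p hp
    exact (hnext (seq k)).2 p hp

end Pool.Agent.SV
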