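import Pool.Agent.Helper53.ST.Defs

/-!
# ST-W6: the sequence of the moduli (elementary series)

All terms satisfy `0 ≤ (1/2)^l * min 2 (Q (k+l) * t) ≤ 2 * (1/2)^l` for `t ≥ 0`, `Q > 0`.
`Wseq_tendsto`: dominated convergence for series (`tendsto_tsum_of_dominated_convergence`), or
split at a large index.
-/

set_option autoImplicit false

open Complex Filter Topology Metric

namespace Pool.Agent.SV

private theorem ws_term {Q : ℕ → ℝ} (hQ : ∀ k, 0 < Q k) (k l : ℕ) {t : ℝ} (ht : 0 ≤ t) :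
    0 ≤ (1 / 2 : ℝ) ^ l * min 2 (Q (k + l) * t) ∧
      (1 / 2 : ℝ) ^ l * min 2 (Q (k + l) * t) ≤ (1 / 2 : ℝ) ^ l * 2 := by
  have h1 : 0 ≤ Q (k + l) * t := mul_nonneg (hQ _).le ht
  have h2 : (0 : ℝ) ≤ min 2 (Q (k + l) * t) := le_min (by norm_num) h1
  exact ⟨by positivity, mul_le_mul_of_nonneg_left (min_le_left _ _) (by positivity)⟩

private theorem ws_summable_geo : Summable fun l : ℕ => (1 / 2 : ℝ) ^ l * 2 :=
  (summable_geometric_of_lt_one (by norm_num) (by norm_num)).mul_right 2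

private theorem ws_summable {Q : ℕ → ℝ} (hQ : ∀ k, 0 < Q k) (k : ℕ) {t : ℝ} (ht : 0 ≤ t) :
    Summable fun l : ℕ => (1 / 2 : ℝ) ^ l * min 2 (Q (k + l) * t) :=
  Summable.of_nonneg_of_le (fun l => (ws_term hQ k l ht).1) (fun l => (ws_term hQ k l ht).2)
    ws_summable_geo

theorem Wseq_step {Q : ℕ → ℝ} (hQ : ∀ k, 0 < Q k) (k : ℕ) {t : ℝ} (ht : 0 ≤ t) :
    Wseq Q k t = min 2 (Q k * t) + 1 / 2 * Wseq Q (k + 1) t := by
  unfold Wseq
  rw [(ws_summable hQ k ht).tsum_eq_zero_add, ← tsum_mul_left]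
  congr 1
  · simp
  · refine tsum_congr fun l => ?_
    have h : k + 1 + l = k + (l + 1) := by omega
    rw [h, pow_succ]
    ring

theorem Wseq_nonneg {Q : ℕ → ℝ} (hQ : ∀ k, 0 < Q k) (k : ℕ) {t : ℝ} (ht : 0 ≤ t) :
    0 ≤ Wseq Q k t :=
  tsum_nonneg fun l => (ws_term hQ k l ht).1

theorem Wseq_ge {Q : ℕ → ℝ} (hQ : ∀ k, 0 < Q k) (k : ℕ) {t : ℝ} (ht : 0 ≤ t) :
    min 2 (Q k * t) ≤ Wseq Q k t := by
  rw [Wseq_step hQ k ht]
  have := Wseq_nonneg hQ (k + 1) ht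
  linarith

theorem Wseq_tendsto {Q : ℕ → ℝ} (hQ : ∀ k, 0 < Q k) (k : ℕ) :
    Tendsto (Wseq Q k) (𝓝[≥] 0) (𝓝 0) := by
  have h0 : (∑' _ : ℕ, (0 : ℝ)) = 0 := by simp
  have key : Tendsto (Wseq Q k) (𝓝[≥] 0) (𝓝 (∑' _ : ℕ, (0 : ℝ))) := by
   unfold Wseq
   refine tendsto_tsum_of_dominated_convergence (bound := fun l : ℕ => (1 / 2 : ℝ) ^ l * 2)
     ws_summable_geo ?_ ?_
   · intro l
     have h1 : Tendsto (fun t : ℝ => (1 / 2 : ℝ) ^ l * min 2 (Q (k + l) * t)) (𝓝 0)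
         (𝓝 ((1 / 2 : ℝ) ^ l * min 2 (Q (k + l) * 0))) := by
       apply Continuous.tendsto
       fun_prop
     have h2 : (1 / 2 : ℝ) ^ l * min 2 (Q (k + l) * 0) = 0 := by simp
     rw [h2] at h1
     exact h1.mono_left nhdsWithin_le_nhds
   · filter_upwards [self_mem_nhdsWithin] with t ht l
     rw [Real.norm_eq_abs, abs_of_nonneg (ws_term hQ k l ht).1]
     exact (ws_term hQ k l ht).2
  rwa [h0] at key

end Pool.Agent.SV
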