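import Pool.Agent.Helper53.ST.Step
import Pool.Agent.Helper53.ST.W1
import Pool.Agent.Helper53.ST.W2
import Pool.Agent.Helper53.ST.W3
import Pool.Agent.Helper53.ST.W4

/-!
# ST-W7: one level of the induction on scales

PROOF. Let `C` be the constant of `step`, `N₀` that of `mod_sum`, `δ = 1/4`, `M = 32`,
`lam = 128 C ω` (this is `C M ω / δ`), and choose `ω > 0` with `512 C ω ≤ 1` (so that
`C M ω ≤ 1/16 = δ ^ 2`), `lam ≤ 1` and `lam * N₀ ≤ 1 / 2`.
Let `J, f, A, B` be as in `Refines`. For `i : Fin 2`, `j ∈ J` let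
`c i j = capW W' (F i ∩ closedBall (lp s j) (3 s))`. The cells of the family are the pairs `(i, j)`
with `c i j > 0` (enumerate a finset by `Fin k`, e.g. with `enum` of SV/D6 or `Finset.equivFin`);
`G, α, b` from `exists_WCls` at the centre `lp s j` (so `c i j ≤ 2 α`), `α ≤ 3 s` (`AF.coef_le`,
`alpha_toReal_le`), `‖b‖ ≤ 12 s c ≤ 24 s α` (`second_bound`).
By hypothesis `hS` and `PieceAt` of `f j`: `‖A j‖ ≤ 4 (c 0 j + c 1 j) ≤ 8 ∑_{j c = j} α c`; by `hS` for
the function `((z - lp s j) f j z - A j) / (4 s)` (`second_piece` gives its coefficients)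
`‖B j‖ / (4 s) ≤ 8 ∑ α c`. So `step` applies to `g j = ω f j`, `A' = ω A`, `B' = ω B` with `M = 32`
(`∑ ω f j = g` is bounded by one), for every `η > 0`. Let `v i = ∑_{grp c = i} u c G c`,
`a i = ∑_{grp c = i} u c α c`. Then `h i = (4/5) v i` satisfies `WCls W (F i ∩ closedBall x (3 r))`:
it is `AF` there with first coefficient `(4/5) a i` (`Refines`: `closedBall (lp s j) (3 s) ⊆
closedBall x (3 r)`; recenter all to `x`), bounded by one, and for `t = ‖z - z'‖`: if `t > s` then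
`W t ≥ min 2 (Q t) = 2` (as `Q ≥ 2/s`); if `t ≤ s` then by `mod_sum`
`‖h z - h z'‖ ≤ lam (N₀ W' t + n t / s) ≤ W' t / 2 + n t / s` and also `≤ 2`, and
`n t / s ≤ Q t`. So `‖a i‖ ≤ (5/4) capW W (F i ∩ closedBall x (3 r))` and
`‖a‖ ≤ (25/16) (5/4) ∑ capW + η` where `a = ω ∑ A j` (uniqueness of the coefficient of `g`).
Let `η → 0`.
-/

set_option autoImplicit false

open Complex Filter Topology Metric
open scoped ComplexConjugate

namespace Pool.Agent.SV

open Pool.Agent.Helper53.CAC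

private theorem w7_AF_sum {ι : Type*} {P : Set ℂ} {x : ℂ} (T : Finset ι) {f : ι → ℂ → ℂ}
    {a b : ι → ℂ} (h : ∀ i ∈ T, AF P x (f i) (a i) (b i)) :
    AF P x (fun z => ∑ i ∈ T, f i z) (∑ i ∈ T, a i) (∑ i ∈ T, b i) :=
  ⟨continuous_finsetSum T fun i hi => (h i hi).cont,
    DifferentiableOn.fun_sum fun i hi => (h i hi).holo, Coef.sum T fun i hi => (h i hi).coef⟩

/-- the data of the cells -/
private theorem w7_data {F : Fin 2 → Set ℂ} (hF : ∀ i, IsCompact (F i)) {s : ℝ} (W' : ℝ → ℝ)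
    (p : Fin 2 × (ℤ × ℤ)) :
    ∃ (G : ℂ → ℂ) (α : ℝ) (b : ℂ),
      (0 < capW W' (F p.1 ∩ closedBall (lp s p.2) (3 * s)) →
        WCls W' (F p.1 ∩ closedBall (lp s p.2) (3 * s)) (lp s p.2) G α b ∧ 0 < α) ∧
      (¬ 0 < capW W' (F p.1 ∩ closedBall (lp s p.2) (3 * s)) → α = 0) ∧
      capW W' (F p.1 ∩ closedBall (lp s p.2) (3 * s)) ≤ 2 * α := by
  have hP : IsCompact (F p.1 ∩ closedBall (lp s p.2) (3 * s)) :=
    (hF p.1).inter_right isClosed_closedBall
  by_cases h : 0 < capW W' (F p.1 ∩ closedBall (lp s p.2) (3 * s))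
  · obtain ⟨g, a, b, h1, h2, h3⟩ := exists_WCls hP (lp s p.2) h
    exact ⟨g, a, b, fun _ => ⟨h1, h2⟩, fun h' => absurd h h', h3⟩
  · exact ⟨0, 0, 0, fun h' => absurd h' h, fun _ => rfl, by linarith⟩

/-- the first inequality of the moduli -/
private theorem w7_mod {W W' : ℝ → ℝ} {s Q lam N₀ : ℝ} {n : ℕ} (hs : 0 < s)
    (hW' : ∀ t, 0 ≤ t → min 2 (2 * t / s) ≤ W' t)
    (hW : ∀ t, 0 ≤ t → min 2 (Q * t) + 1 / 2 * W' t ≤ W t) (hQ : 2 / s ≤ Q) (hn : n / s ≤ Q)
    (hlam0 : 0 ≤ lam) (hlam1 : lam ≤ 1) (hlamN : lam * N₀ ≤ 1 / 2) {t y : ℝ} {m : ℕ} (hm : m ≤ n)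
    (ht : 0 ≤ t) (hy2 : y ≤ 2) (hy : t ≤ s → y ≤ lam * (N₀ * W' t + m * t / s)) : y ≤ W t := by
  have hW0 : 0 ≤ W' t := (le_min zero_le_two (by positivity)).trans (hW' t ht)
  refine le_trans ?_ (hW t ht)
  rcases le_or_gt t s with hts | hts
  · have h1 := hy hts
    have h2 : lam * (N₀ * W' t) ≤ 1 / 2 * W' t := by
      calc lam * (N₀ * W' t) = (lam * N₀) * W' t := by ring
        _ ≤ 1 / 2 * W' t := mul_le_mul_of_nonneg_right hlamN hW0
    have h3 : (m : ℝ) * t / s ≤ Q * t := by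
      calc (m : ℝ) * t / s ≤ (n : ℝ) * t / s := by
            have : (m : ℝ) ≤ n := by exact_mod_cast hm
            gcongr
        _ = n / s * t := by ring
        _ ≤ Q * t := mul_le_mul_of_nonneg_right hn ht
    have h4 : 0 ≤ (m : ℝ) * t / s := by positivity
    have h5 : lam * ((m : ℝ) * t / s) ≤ Q * t := (mul_le_of_le_one_left h4 hlam1).trans h3
    have h6 : y ≤ Q * t + 1 / 2 * W' t := by
      calc y ≤ lam * (N₀ * W' t + m * t / s) := h1
        _ = lam * (N₀ * W' t) + lam * (m * t / s) := by ring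
        _ ≤ 1 / 2 * W' t + Q * t := add_le_add h2 h5
        _ = Q * t + 1 / 2 * W' t := by ring
    rw [← sub_le_iff_le_add]
    exact le_min (by linarith) (by linarith)
  · have h1 : 2 ≤ Q * t := by
      calc (2 : ℝ) = 2 / s * s := by field_simp
        _ ≤ Q * t := mul_le_mul hQ hts.le hs.le (le_trans (by positivity) hQ)
    rw [min_eq_left h1]
    linarith

theorem level_step : ∃ ω : ℝ, 0 < ω ∧ ∀ (E : Set ℂ) (F : Fin 2 → Set ℂ) (r s Q : ℝ)
    (S : Set ((ℂ → ℂ) × ℂ)) (n : ℕ) (g : ℂ → ℂ) (x a b : ℂ) (W W' : ℝ → ℝ), IsCompact E →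
    (∀ i, IsCompact (F i)) → 0 < s → 0 < r → Refines E ω r s S n g x → PieceAt E r g x a b →
    (∀ p ∈ S, ∀ a b, PieceAt E s p.1 p.2 a b →
      ‖a‖ ≤ 4 * ∑ i, capW W' (F i ∩ closedBall p.2 (3 * s))) →
    (∀ t, 0 ≤ t → min 2 (2 * t / s) ≤ W' t) →
    (∀ t, 0 ≤ t → min 2 (Q * t) + 1 / 2 * W' t ≤ W t) → 2 / s ≤ Q → n / s ≤ Q →
    ‖a‖ ≤ 4 * ∑ i, capW W (F i ∩ closedBall x (3 * r)) := by
  classical
  obtain ⟨C, hC, hstep⟩ := step
  obtain ⟨N₀, hN₀, hmod⟩ := mod_sum
  have hden : 0 < 512 * C + 256 * C * N₀ := by positivity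
  refine ⟨(512 * C + 256 * C * N₀)⁻¹, inv_pos.2 hden, ?_⟩
  set ω : ℝ := (512 * C + 256 * C * N₀)⁻¹ with hω
  have hω0 : 0 < ω := inv_pos.2 hden
  have hω1 : (512 * C + 256 * C * N₀) * ω = 1 := mul_inv_cancel₀ hden.ne'
  have hCω : 0 < C * ω := mul_pos hC hω0
  have hCωN : 0 < C * ω * N₀ := mul_pos hCω hN₀
  have hω2 : 512 * (C * ω) ≤ 1 := by nlinarith
  have hω3 : 256 * (C * ω * N₀) ≤ 1 := by nlinarith
  intro E F r s Q S n g x a b W W' hE hF hs hr hRef hg hS hW' hW hQ hn
  obtain ⟨J, f, A, B, hJn, hp, hball, hS1, hS2, hgsum⟩ := hRef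
  choose G α β h1 h2 h3 using w7_data hF (s := s) W'
  have hα0 : ∀ p, 0 ≤ α p := by
    intro p
    by_cases h : 0 < capW W' (F p.1 ∩ closedBall (lp s p.2) (3 * s))
    · exact (h1 p h).2.le
    · rw [h2 p h]
  set cells : Finset (Fin 2 × (ℤ × ℤ)) := (Finset.univ ×ˢ J).filter
    (fun p => 0 < capW W' (F p.1 ∩ closedBall (lp s p.2) (3 * s))) with hcells
  have hcellJ : ∀ p ∈ cells, p.2 ∈ J := by
    intro p hp
    rw [hcells, Finset.mem_filter, Finset.mem_product] at hp
    exact hp.1.2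
  have hcellc : ∀ p ∈ cells, 0 < capW W' (F p.1 ∩ closedBall (lp s p.2) (3 * s)) := by
    intro p hp
    rw [hcells, Finset.mem_filter] at hp
    exact hp.2
  let e : Fin cells.card ≃ cells := cells.equivFin.symm
  have hPc : ∀ p : Fin 2 × (ℤ × ℤ), IsCompact (F p.1 ∩ closedBall (lp s p.2) (3 * s)) :=
    fun p => (hF p.1).inter_right isClosed_closedBall
  let Fam : SFam 2 :=
    { k := cells.card
      s := s
      P := fun c => F (e c).1.1 ∩ closedBall (lp s (e c).1.2) (3 * s)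
      j := fun c => (e c).1.2
      α := fun c => α (e c).1
      b := fun c => β (e c).1
      G := fun c => G (e c).1
      grp := fun c => (e c).1.1
      s_pos := hs
      α_pos := fun c => (h1 _ (hcellc _ (e c).2)).2
      α_le := by
        intro c
        have h4 := (h1 _ (hcellc _ (e c).2))
        have h5 := h4.1.af.coef_le (hPc _) h4.1.bound
        rw [one_mul, Complex.norm_real, Real.norm_of_nonneg h4.2.le] at h5
        exact h5.trans (alpha_toReal_le (by positivity) Set.inter_subset_right)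
      compact := fun c => hPc _
      sub := fun c => Set.inter_subset_right
      hG := fun c => (h1 _ (hcellc _ (e c).2)).1.af
      hGb := fun c => (h1 _ (hcellc _ (e c).2)).1.bound
      hb := by
        intro c
        have h4 := (h1 _ (hcellc _ (e c).2))
        have h5 := second_bound hs (hPc _) Set.inter_subset_right hW' h4.1
        refine h5.trans ?_
        have h6 := h3 (e c).1
        have h7 : 0 < s * α (e c).1 := mul_pos hs h4.2
        nlinarith
      inj := by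
        intro c c' hc hc'
        exact e.injective (Subtype.ext (Prod.ext hc hc')) }
  -- the sum of the first coefficients of the cells at a lattice point
  have hsum : ∀ j ∈ J, ∑ c with Fam.j c = j, Fam.α c = ∑ i, α (i, j) := by
    intro j hj
    have e1 : ∑ c with Fam.j c = j, Fam.α c =
        ∑ c : Fin cells.card, (fun p : cells => if p.1.2 = j then α p.1 else 0) (e c) := by
      rw [Finset.sum_filter]
    rw [e1, Equiv.sum_comp e (fun p : cells => if p.1.2 = j then α p.1 else 0),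
      Finset.sum_coe_sort cells (fun p => if p.2 = j then α p else 0), hcells,
      Finset.sum_filter]
    rw [Finset.sum_product]
    refine Finset.sum_congr rfl fun i _ => ?_
    have e2 : ∀ j' ∈ J, (if 0 < capW W' (F (i, j').1 ∩ closedBall (lp s (i, j').2) (3 * s)) then
        (if (i, j').2 = j then α (i, j') else 0) else 0) = if j' = j then α (i, j') else 0 := by
      intro j' _
      split_ifs with h4 h5 h5
      · rfl
      · rfl
      · exact (h2 _ h4).symm
      · rfl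
    rw [Finset.sum_congr rfl e2, Finset.sum_ite_eq' J j (fun j' => α (i, j')), if_pos hj]
  have hcap : ∀ j ∈ J, ∀ (h : ℂ → ℂ) (a' b' : ℂ), (h, lp s j) ∈ S →
      PieceAt E s h (lp s j) a' b' → ‖a'‖ ≤ 8 * ∑ c with Fam.j c = j, Fam.α c := by
    intro j hj h a' b' hhS hh
    have h4 := hS (h, lp s j) hhS a' b' hh
    refine h4.trans ?_
    rw [hsum j hj]
    have h5 : ∑ i, capW W' (F i ∩ closedBall (lp s j) (3 * s)) ≤ ∑ i, 2 * α (i, j) :=
      Finset.sum_le_sum fun i _ => h3 (i, j)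
    rw [← Finset.mul_sum] at h5
    calc 4 * ∑ i, capW W' (F i ∩ closedBall (lp s j) (3 * s)) ≤ 4 * (2 * ∑ i, α (i, j)) :=
          mul_le_mul_of_nonneg_left h5 (by norm_num)
      _ = 8 * ∑ i, α (i, j) := by ring
  have hsum0 : ∀ j, 0 ≤ ∑ c with Fam.j c = j, Fam.α c := fun j =>
    Finset.sum_nonneg fun c _ => (Fam.α_pos c).le
  have hA : ∀ j ∈ J, ‖A j‖ ≤ 8 * ∑ c with Fam.j c = j, Fam.α c := fun j hj =>
    hcap j hj (f j) (A j) (B j) (hS1 j hj) (hp j hj)
  have hB : ∀ j ∈ J, ‖B j‖ ≤ 32 * s * ∑ c with Fam.j c = j, Fam.α c := by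
    intro j hj
    obtain ⟨b', hb'⟩ := second_piece hE hs (hp j hj)
    have h4 := hcap j hj _ _ _ (hS2 j hj) hb'
    have h5 : ‖B j / (4 * (s : ℂ))‖ = ‖B j‖ / (4 * s) := by
      rw [norm_div, norm_mul, Complex.norm_real, Real.norm_of_nonneg hs.le]
      norm_num
    rw [h5, div_le_iff₀ (by positivity)] at h4
    refine h4.trans (le_of_eq ?_)
    ring
  have hpω : ∀ j ∈ J, AF (closedBall (lp s j) (2 * s)) (lp s j) (fun z => (ω : ℂ) * f j z)
      (ω * A j) (ω * B j) := fun j hj =>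
    ((hp j hj).af.mono Set.inter_subset_right).const_mul (ω : ℂ)
  have hωn : ‖(ω : ℂ)‖ = ω := by rw [Complex.norm_real, Real.norm_of_nonneg hω0.le]
  -- the coefficient of `g`
  have hacoef : a = ∑ j ∈ J, (ω : ℂ) * A j := by
    have h4 : AF (E ∪ ⋃ j ∈ J, closedBall (lp s j) (2 * s)) x
        (fun z => ∑ j ∈ J, (ω : ℂ) * f j z) (∑ j ∈ J, (ω : ℂ) * A j)
        (∑ j ∈ J, ((ω : ℂ) * B j + (lp s j - x) * (ω * A j))) := by
      refine w7_AF_sum J fun j hj => ?_
      refine AF.mono ((hpω j hj).recenter x) ?_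
      refine Set.subset_union_of_subset_right ?_ _
      exact Set.subset_biUnion_of_mem (u := fun j => closedBall (lp s j) (2 * s)) hj
    have h5 : (fun z => ∑ j ∈ J, (ω : ℂ) * f j z) = g := by
      funext z
      rw [hgsum z, Finset.mul_sum]
    rw [h5] at h4
    exact (Coef.unique hg.af.coef h4.coef).1
  refine le_of_forall_pos_le_add fun η hη => ?_
  obtain ⟨u, hu, hub, hua⟩ := hstep 2 Fam J (fun j z => (ω : ℂ) * f j z) (fun j => ω * A j)
    (fun j => ω * B j) 32 ω (1 / 4) (by norm_num) hω0 (by norm_num) (by norm_num) (by nlinarith)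
    hpω
    (by
      intro j hj z
      rw [norm_mul, hωn]
      exact mul_le_of_le_one_right hω0.le ((hp j hj).bound z))
    (by
      intro z
      rw [← Finset.mul_sum, ← hgsum z]
      exact hg.bound z)
    (by
      intro j hj
      rw [norm_mul, hωn]
      have h4 := mul_le_mul_of_nonneg_left (hA j hj) hω0.le
      have h5 := mul_nonneg hω0.le (hsum0 j)
      nlinarith)
    (by
      intro j hj
      rw [norm_mul, hωn]
      have h4 := mul_le_mul_of_nonneg_left (hB j hj) hω0.le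
      refine h4.trans (le_of_eq ?_)
      show ω * (32 * s * ∑ c with Fam.j c = j, Fam.α c) = 32 * ω * s * ∑ c with Fam.j c = j, Fam.α c
      ring)
    η hη
  have hlam : C * 32 * ω / (1 / 4) = 128 * (C * ω) := by ring
  -- the functions of the colours
  have hcol : ∀ i : Fin 2, ‖∑ c with Fam.grp c = i, u c * (Fam.α c : ℂ)‖ ≤
      5 / 4 * capW W (F i ∩ closedBall x (3 * r)) := by
    intro i
    set T : Finset (Fin Fam.k) := Finset.univ.filter (fun c => Fam.grp c = i) with hT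
    have hTgrp : ∀ c ∈ T, Fam.grp c = i := fun c hc => (Finset.mem_filter.1 hc).2
    have hTinj : ∀ c ∈ T, ∀ c' ∈ T, Fam.j c = Fam.j c' → c = c' := fun c hc c' hc' h =>
      Fam.inj c c' ((hTgrp c hc).trans (hTgrp c' hc').symm) h
    have hTcard : T.card ≤ n := by
      refine le_trans ?_ hJn
      refine Finset.card_le_card_of_injOn (fun c => Fam.j c) ?_ ?_
      · intro c _
        exact hcellJ _ (e c).2
      · intro c hc c' hc' h
        exact hTinj c hc c' hc' h
    have hsubx : ∀ c ∈ T, Fam.P c ⊆ F i ∩ closedBall x (3 * r) := by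
      intro c hc
      have h4 : Fam.grp c = i := hTgrp c hc
      have h5 : (e c).1.1 = i := h4
      refine Set.inter_subset_inter ?_ ?_
      · rw [h5]
      · exact hball _ (hcellJ _ (e c).2)
    have hAFv : AF (F i ∩ closedBall x (3 * r)) x (fun z => ∑ c ∈ T, u c * Fam.G c z)
        (∑ c ∈ T, u c * (Fam.α c : ℂ)) (∑ c ∈ T, u c * (Fam.b c + (lp s (Fam.j c) - x) * Fam.α c)) := by
      refine w7_AF_sum T fun c hc => ?_
      exact (((Fam.hG c).recenter x).mono (hsubx c hc)).const_mul (u c)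
    have hPcx : IsCompact (F i ∩ closedBall x (3 * r)) := (hF i).inter_right isClosed_closedBall
    have hW0 : ∀ t, 0 ≤ t → 0 ≤ W' t := fun t ht =>
      (le_min zero_le_two (by positivity)).trans (hW' t ht)
    have hbd : ∀ z, ‖(4 / 5 : ℂ) * ∑ c ∈ T, u c * Fam.G c z‖ ≤ 1 := by
      intro z
      rw [norm_mul]
      have h4 := hub i z
      have h5 : ‖(4 / 5 : ℂ)‖ = 4 / 5 := by
        rw [norm_div]
        norm_num
      rw [h5]
      linarith
    have hWC : WCls W (F i ∩ closedBall x (3 * r)) x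
        (fun z => (4 / 5 : ℂ) * ∑ c ∈ T, u c * Fam.G c z)
        ((4 / 5 : ℂ) * ∑ c ∈ T, u c * (Fam.α c : ℂ))
        ((4 / 5 : ℂ) * (∑ c ∈ T, u c * (Fam.b c + (lp s (Fam.j c) - x) * Fam.α c))) := by
      refine ⟨hAFv.const_mul _, hbd, ?_⟩
      intro z z'
      refine w7_mod (n := n) (m := T.card) (lam := 128 * (C * ω)) (N₀ := N₀) hs hW' hW hQ hn
        (by positivity) (by linarith) (by nlinarith) hTcard (norm_nonneg _) ?_ ?_
      · exact (norm_sub_le _ _).trans (by linarith [hbd z, hbd z'])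
      · intro hzz
        have h4 := hmod s hs Fam.k T Fam.j Fam.P Fam.G W' (fun c => (Fam.α c : ℂ)) Fam.b u
          (128 * (C * ω)) (by positivity) hW0 hTinj (fun c _ => Fam.sub c)
          (fun c _ => (h1 _ (hcellc _ (e c).2)).1)
          (fun c _ => by
            have := hu c
            rwa [hlam] at this) z z' hzz
        rw [← mul_sub, norm_mul]
        have h5 : ‖(4 / 5 : ℂ)‖ = 4 / 5 := by
          rw [norm_div]
          norm_num
        rw [h5]
        have h6 := norm_nonneg (∑ c ∈ T, u c * Fam.G c z - ∑ c ∈ T, u c * Fam.G c z')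
        linarith
    have h4 := hWC.le_capW hPcx
    rw [norm_mul] at h4
    have h5 : ‖(4 / 5 : ℂ)‖ = 4 / 5 := by
      rw [norm_div]
      norm_num
    rw [h5] at h4
    linarith
  have h4 : ∑ i, ‖∑ c with Fam.grp c = i, u c * (Fam.α c : ℂ)‖ ≤
      5 / 4 * ∑ i, capW W (F i ∩ closedBall x (3 * r)) := by
    rw [Finset.mul_sum]
    exact Finset.sum_le_sum fun i _ => hcol i
  have h5 : 0 ≤ ∑ i, capW W (F i ∩ closedBall x (3 * r)) :=
    Finset.sum_nonneg fun i _ => capW_nonneg W ((hF i).inter_right isClosed_closedBall)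
  rw [hacoef]
  refine hua.trans ?_
  nlinarith

end Pool.Agent.SV
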