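import Pool.Agent.Helper53.ST.W5
import Pool.Agent.Helper53.ST.W6
import Pool.Agent.Helper53.ST.W7

set_option autoImplicit false

open Complex Filter Topology Metric
open scoped ComplexConjugate

namespace Pool.Agent.SV

open Pool.Agent.Helper53.CAC

theorem scale_induction {E₁ E₂ : Set ℂ} (h1 : IsCompact E₁) (h2 : IsCompact E₂) {f : ℂ → ℂ}
    {a : ℂ} (hf : Admissible (E₁ ∪ E₂) f a) :
    ∃ (W : ℝ → ℝ) (R : ℝ) (ρ : ℕ → ℝ), Tendsto W (𝓝[≥] 0) (𝓝 0) ∧ (∀ N, 0 < ρ N) ∧
      Tendsto ρ atTop (𝓝 0) ∧ ∀ N, ‖a‖ ≤ 4 * (capW W (cthickening (ρ N) E₁ ∩ closedBall 0 R)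
        + capW W (cthickening (ρ N) E₂ ∩ closedBall 0 R)) := by
  obtain ⟨ω, hω, hlevel⟩ := level_step
  have hE : IsCompact (E₁ ∪ E₂) := h1.union h2
  obtain ⟨M, hM⟩ := hE.isBounded.subset_closedBall (0 : ℂ)
  obtain ⟨r₀, hr₀, hEr⟩ : ∃ r₀ : ℝ, 0 < r₀ ∧ E₁ ∪ E₂ ⊆ closedBall (0 : ℂ) (2 * r₀) :=
    ⟨max M 1, by positivity, hM.trans (closedBall_subset_closedBall (by
      have h1 := le_max_left M 1
      have h2 := le_max_right M 1
      linarith))⟩
  obtain ⟨K', hK', hK'sub, hholo⟩ := hf.holo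
  have hdE : DifferentiableOn ℂ f (E₁ ∪ E₂)ᶜ := hholo.mono (Set.compl_subset_compl.2 hK'sub)
  obtain ⟨a', b, hab⟩ := Coef.exists_of (f := f) (x := 0) (R := 2 * r₀) (M := 1)
    (hdE.mono (by
      intro z hz hzE
      have h3 := hEr hzE
      rw [mem_closedBall, dist_eq_norm] at h3
      have h4 : 2 * r₀ < ‖z - 0‖ := hz
      linarith)) (fun z _ => hf.bound z) hf.zero
  have haa : a' = a := tendsto_nhds_unique hab.ca hf.coeff
  subst haa
  have hpiece : PieceAt (E₁ ∪ E₂) r₀ f 0 a' b :=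
    ⟨⟨hf.cont, by rwa [Set.inter_eq_left.2 hEr], hab⟩, hf.bound⟩
  obtain ⟨r, S, n, hr0, hfS, hrpos, hr5, hS, href⟩ := exists_chain hE hω hr₀ hpiece
  set Q : ℕ → ℝ := fun k => (2 + n k) / r (k + 1) with hQ
  have hQpos : ∀ k, 0 < Q k := fun k => div_pos (by positivity) (hrpos (k + 1))
  have hQ2 : ∀ k, 2 / r (k + 1) ≤ Q k := fun k => by
    simp only [hQ]
    have := hrpos (k + 1)
    gcongr
    have : (0 : ℝ) ≤ n k := by positivity
    linarith
  have hQn : ∀ k, (n k : ℝ) / r (k + 1) ≤ Q k := fun k => by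
    simp only [hQ]
    have := hrpos (k + 1)
    gcongr
    linarith
  have hQr : ∀ k, 2 / r k ≤ Q k := fun k => by
    refine le_trans ?_ (hQ2 k)
    have h3 := hrpos (k + 1)
    have h4 := hrpos k
    have h5 := hr5 k
    gcongr
    linarith
  have hWge : ∀ k t, 0 ≤ t → min 2 (2 * t / r k) ≤ Wseq Q k t := by
    intro k t ht
    refine le_trans ?_ (Wseq_ge hQpos k ht)
    refine min_le_min le_rfl ?_
    have := mul_le_mul_of_nonneg_right (hQr k) ht
    calc 2 * t / r k = 2 / r k * t := by ring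
      _ ≤ _ := this
  have hrtend : Tendsto r atTop (𝓝 0) := by
    have h3 : ∀ k, r k ≤ r₀ * (1 / 5) ^ k := by
      intro k
      induction k with
      | zero => simp [hr0]
      | succ k ih =>
        have := hr5 k
        rw [pow_succ]
        linarith
    have h4 : Tendsto (fun k : ℕ => r₀ * (1 / 5 : ℝ) ^ k) atTop (𝓝 (r₀ * 0)) :=
      (tendsto_pow_atTop_nhds_zero_of_lt_one (by norm_num) (by norm_num)).const_mul r₀
    rw [mul_zero] at h4
    exact squeeze_zero (fun k => (hrpos k).le) h3 h4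
  refine ⟨Wseq Q 0, 3 * r₀, r, Wseq_tendsto hQpos 0, hrpos, hrtend, ?_⟩
  intro N
  set F : Fin 2 → Set ℂ := ![cthickening (r N) E₁, cthickening (r N) E₂] with hF
  have hFc : ∀ i, IsCompact (F i) := by
    intro i
    fin_cases i
    · exact h1.cthickening
    · exact h2.cthickening
  have key : ∀ d k, k + d = N → ∀ p ∈ S k, ∀ a b, PieceAt (E₁ ∪ E₂) (r k) p.1 p.2 a b →
      ‖a‖ ≤ 4 * ∑ i, capW (Wseq Q k) (F i ∩ closedBall p.2 (3 * r k)) := by
    intro d
    induction d with
    | zero =>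
      intro k hk p hp a b hpa
      have hkN : k = N := by omega
      subst hkN
      have hcomp : IsCompact ((E₁ ∪ E₂) ∩ closedBall p.2 (2 * r k)) :=
        hE.inter_right isClosed_closedBall
      have hFi : ∀ i, IsCompact (F i ∩ closedBall p.2 (3 * r k)) := fun i =>
        (hFc i).inter_right isClosed_closedBall
      have hnn : ∀ i, 0 ≤ capW (Wseq Q k) (F i ∩ closedBall p.2 (3 * r k)) := fun i =>
        capW_nonneg _ (hFi i)
      rcases Set.eq_empty_or_nonempty ((E₁ ∪ E₂) ∩ closedBall p.2 (2 * r k)) with he | ⟨q, hq⟩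
      · have h3 := hpa.af.coef_le hcomp (M := 1) hpa.bound
        have h4 : (alpha ((E₁ ∪ E₂) ∩ closedBall p.2 (2 * r k))).toReal ≤ 0 := by
          rw [he]
          have h5 : ∀ ε : ℝ, 0 < ε → (alpha (∅ : Set ℂ)).toReal ≤ ε := fun ε hε =>
            alpha_toReal_le (x := 0) hε (Set.empty_subset _)
          exact le_of_forall_pos_le_add fun ε hε => by rw [zero_add]; exact h5 ε hε
        have h6 : 0 ≤ ∑ i, capW (Wseq Q k) (F i ∩ closedBall p.2 (3 * r k)) :=
          Finset.sum_nonneg fun i _ => hnn i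
        linarith
      · have h3 := hpa.af.coef_le hcomp (M := 1) hpa.bound
        have h4 := alpha_toReal_le (P := (E₁ ∪ E₂) ∩ closedBall p.2 (2 * r k)) (x := p.2)
          (R := 2 * r k) (by have := hrpos k; linarith) Set.inter_subset_right
        have hball : ∀ E : Set ℂ, q ∈ E →
            closedBall q (r k) ⊆ cthickening (r k) E ∩ closedBall p.2 (3 * r k) := by
          intro E hqE y hy
          refine ⟨?_, ?_⟩
          · exact mem_cthickening_of_dist_le y q (r k) E hqE hy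
          · rw [mem_closedBall] at hy ⊢
            have h5 := hq.2
            rw [mem_closedBall] at h5
            have h6 := dist_triangle y q p.2
            linarith
        have hW1 : ∀ t, 0 ≤ t → min 2 (t / r k) ≤ Wseq Q k t := by
          intro t ht
          refine le_trans (min_le_min le_rfl ?_) (hWge k t ht)
          have := hrpos k
          gcongr
          linarith
        obtain ⟨i, hi⟩ : ∃ i, r k ≤ capW (Wseq Q k) (F i ∩ closedBall p.2 (3 * r k)) := by
          rcases hq.1 with hq1 | hq1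
          · exact ⟨0, capW_ball (hrpos k) hW1 (hFi 0) (hball _ hq1)⟩
          · exact ⟨1, capW_ball (hrpos k) hW1 (hFi 1) (hball _ hq1)⟩
        have h6 : capW (Wseq Q k) (F i ∩ closedBall p.2 (3 * r k))
            ≤ ∑ i, capW (Wseq Q k) (F i ∩ closedBall p.2 (3 * r k)) :=
          Finset.single_le_sum (fun i _ => hnn i) (Finset.mem_univ i)
        have := hrpos k
        linarith
    | succ d ih =>
      intro k hk p hp a b hpa
      refine hlevel (E₁ ∪ E₂) F (r k) (r (k + 1)) (Q k) (S (k + 1)) (n k) p.1 p.2 a b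
        (Wseq Q k) (Wseq Q (k + 1)) hE hFc (hrpos _) (hrpos _) (href k p hp) hpa
        (ih (k + 1) (by omega)) (hWge (k + 1)) ?_ (hQ2 k) (hQn k)
      intro t ht
      rw [Wseq_step hQpos k ht]
  have h3 := key N 0 (by omega) _ hfS a' b (by rw [hr0]; exact hpiece)
  rw [Fin.sum_univ_two, hr0] at h3
  exact h3

end Pool.Agent.SV
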